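import Mathlib

/-!
Combinatorics of block decompositions with blocks of odd size.
-/

namespace Pool.Agent.Helper42.KSOne

variable {N : ℕ} {β : Type*} [DecidableEq β]

/-- the part of `I` in the block `b` -/
def prt (bl : Fin N → β) (I : Finset (Fin N)) (b : β) : Finset (Fin N) := I.filter (bl · = b)

/-- all parts of `I` have even size -/
def BlockEven (bl : Fin N → β) (I : Finset (Fin N)) : Prop := ∀ b, Even (prt bl I b).card

/-- the two sets split the same pairs inside the blocks -/
def SameB (bl : Fin N → β) (I J : Finset (Fin N)) : Prop :=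
  ∀ p q, p ≠ q ∧ bl p = bl q → ((p ∈ I ↔ q ∈ I) ↔ (p ∈ J ↔ q ∈ J))

variable {bl : Fin N → β}

theorem mem_prt {I : Finset (Fin N)} {b : β} {p : Fin N} : p ∈ prt bl I b ↔ p ∈ I ∧ bl p = b :=
  Finset.mem_filter

theorem prt_card_le (I : Finset (Fin N)) (b : β) : (prt bl I b).card ≤ I.card :=
  Finset.card_filter_le _ _

theorem prt_add_le (I : Finset (Fin N)) {b b' : β} (h : b ≠ b') :
    (prt bl I b).card + (prt bl I b').card ≤ I.card := by
  rw [← Finset.card_union_of_disjoint]
  · apply Finset.card_le_card
    intro p hp
    rcases Finset.mem_union.1 hp with hp | hp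
    · exact (mem_prt.1 hp).1
    · exact (mem_prt.1 hp).1
  · rw [Finset.disjoint_left]
    intro p hp hp'
    exact h ((mem_prt.1 hp).2.symm.trans (mem_prt.1 hp').2)

theorem same_cases {I J : Finset (Fin N)} (h : SameB bl I J) (b : β) :
    prt bl I b = prt bl J b ∨
      (prt bl I b).card + (prt bl J b).card = (prt bl Finset.univ b).card := by
  by_cases hb : ∃ p, bl p = b
  · obtain ⟨p, hp⟩ := hb
    by_cases hpp : (p ∈ I ↔ p ∈ J)
    · left
      ext q
      rw [mem_prt, mem_prt]
      constructor
      · rintro ⟨h1, h2⟩
        refine ⟨?_, h2⟩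
        by_cases hqp : p = q
        · subst hqp; tauto
        · have := h p q ⟨hqp, by rw [hp, h2]⟩
          tauto
      · rintro ⟨h1, h2⟩
        refine ⟨?_, h2⟩
        by_cases hqp : p = q
        · subst hqp; tauto
        · have := h p q ⟨hqp, by rw [hp, h2]⟩
          tauto
    · right
      rw [← Finset.card_union_of_disjoint]
      · congr 1
        ext q
        rw [Finset.mem_union, mem_prt, mem_prt, mem_prt]
        constructor
        · rintro (h1 | h1)
          · exact ⟨Finset.mem_univ _, h1.2⟩
          · exact ⟨Finset.mem_univ _, h1.2⟩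
        · rintro ⟨_, h2⟩
          by_cases hqp : p = q
          · subst hqp; tauto
          · have := h p q ⟨hqp, by rw [hp, h2]⟩
            tauto
      · rw [Finset.disjoint_left]
        intro q h1 h2
        rw [mem_prt] at h1 h2
        by_cases hqp : p = q
        · subst hqp; tauto
        · have := h p q ⟨hqp, by rw [hp, h1.2]⟩
          tauto
  · left
    ext q
    rw [mem_prt, mem_prt]
    exact ⟨fun h1 => absurd ⟨q, h1.2⟩ hb, fun h1 => absurd ⟨q, h1.2⟩ hb⟩

variable {m : ℕ}

theorem eq_of_parts {I J : Finset (Fin N)} (h : ∀ p, prt bl I (bl p) = prt bl J (bl p)) :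
    I = J := by
  ext p
  have h1 : p ∈ prt bl I (bl p) ↔ p ∈ prt bl J (bl p) := by rw [h p]
  rw [mem_prt, mem_prt] at h1
  simpa using h1

/-- C1 -/
theorem same_even (hm : Odd m) (hb : ∀ p, (prt bl Finset.univ (bl p)).card = m)
    {I J : Finset (Fin N)} (hI : BlockEven bl I) (hJ : BlockEven bl J) (h : SameB bl I J) :
    I = J := by
  apply eq_of_parts (bl := bl)
  intro p
  rcases same_cases h (bl p) with h1 | h1
  · exact h1
  · exfalso
    rw [hb p] at h1
    have := (hI (bl p)).add (hJ (bl p))
    rw [h1] at this
    exact (Nat.not_even_iff_odd.2 hm) this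

/-- C3 -/
theorem same_pairs (hm : Odd m) (h3 : 3 ≤ m)
    (hb : ∀ p, (prt bl Finset.univ (bl p)).card = m)
    {I J : Finset (Fin N)} (hI : I.card = 2) (hJ : J.card = 2) (h : SameB bl I J) :
    I = J := by
  -- symmetric core
  have core : ∀ I J : Finset (Fin N), I.card = 2 → J.card = 2 → SameB bl I J → ∀ p,
      (prt bl I (bl p)).card = 2 → (prt bl J (bl p)).card = 1 → m = 3 → False := by
    intro I J hI hJ h p h2 h1 hm3
    obtain ⟨q, hq, hqb⟩ : ∃ q ∈ J, bl q ≠ bl p := by
      by_contra hcon
      push Not at hcon
      have : prt bl J (bl p) = J := by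
        ext a
        rw [mem_prt]
        exact ⟨fun h => h.1, fun h => ⟨h, hcon a h⟩⟩
      rw [this] at h1
      omega
    have e1 := prt_add_le (bl := bl) I (fun hh => hqb hh.symm : bl p ≠ bl q)
    have e2 := prt_add_le (bl := bl) J (fun hh => hqb hh.symm : bl p ≠ bl q)
    have e3 : 1 ≤ (prt bl J (bl q)).card := Finset.card_pos.2 ⟨q, mem_prt.2 ⟨hq, rfl⟩⟩
    rcases same_cases h (bl q) with h4 | h4
    · rw [h4] at e1
      omega
    · rw [hb q] at h4
      omega
  have hs : SameB bl J I := fun p q hpq => (h p q hpq).symm
  apply eq_of_parts (bl := bl)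
  intro p
  rcases same_cases h (bl p) with h1 | h1
  · exact h1
  · exfalso
    rw [hb p] at h1
    have e1 := prt_card_le (bl := bl) I (bl p)
    have e2 := prt_card_le (bl := bl) J (bl p)
    obtain ⟨r, hr⟩ := hm
    have hm3 : m = 3 := by omega
    by_cases hc : (prt bl I (bl p)).card = 2
    · exact core I J hI hJ h p hc (by omega) hm3
    · exact core J I hJ hI hs p (by omega) (by omega) hm3

/-- C2 -/
theorem same_good (hm : Odd m) (hb : ∀ p, (prt bl Finset.univ (bl p)).card = m)
    {I J : Finset (Fin N)} (hI : I.card = 2) (hJ : BlockEven bl J) (hJ4 : J.card % 4 = 2)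
    (h : SameB bl I J) : I = J := by
  obtain ⟨k, l, hkl, rfl⟩ := Finset.card_eq_two.1 hI
  by_cases hbkl : bl k = bl l
  · apply same_even hm hb _ hJ h
    intro b
    by_cases hbb : bl k = b
    · have : prt bl {k, l} b = {k, l} := by
        ext a
        rw [mem_prt]
        simp only [Finset.mem_insert, Finset.mem_singleton]
        constructor
        · exact fun h => h.1
        · rintro (rfl | rfl)
          · exact ⟨Or.inl rfl, hbb⟩
          · exact ⟨Or.inr rfl, hbkl ▸ hbb⟩
      rw [this, hI]
      exact even_two
    · have : prt bl {k, l} b = ∅ := by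
        ext a
        rw [mem_prt]
        simp only [Finset.mem_insert, Finset.mem_singleton, Finset.notMem_empty, iff_false]
        rintro ⟨rfl | rfl, h2⟩
        · exact hbb h2
        · exact hbb (hbkl.trans h2)
      rw [this]
      simp
  · exfalso
    have hk : (prt bl ({k, l} : Finset (Fin N)) (bl k)).card = 1 := by
      have : prt bl {k, l} (bl k) = {k} := by
        ext a
        rw [mem_prt]
        simp only [Finset.mem_insert, Finset.mem_singleton]
        constructor
        · rintro ⟨rfl | rfl, h2⟩
          · rfl
          · exact absurd h2.symm hbkl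
        · rintro rfl
          exact ⟨Or.inl rfl, rfl⟩
      rw [this, Finset.card_singleton]
    have hl : (prt bl ({k, l} : Finset (Fin N)) (bl l)).card = 1 := by
      have : prt bl {k, l} (bl l) = {l} := by
        ext a
        rw [mem_prt]
        simp only [Finset.mem_insert, Finset.mem_singleton]
        constructor
        · rintro ⟨rfl | rfl, h2⟩
          · exact absurd h2 hbkl
          · rfl
        · rintro rfl
          exact ⟨Or.inr rfl, rfl⟩
      rw [this, Finset.card_singleton]
    have hk' : (prt bl J (bl k)).card = m - 1 := by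
      rcases same_cases h (bl k) with h1 | h1
      · exfalso
        have := hJ (bl k)
        rw [← h1, hk] at this
        exact absurd this (by decide)
      · rw [hb k, hk] at h1
        omega
    have hl' : (prt bl J (bl l)).card = m - 1 := by
      rcases same_cases h (bl l) with h1 | h1
      · exfalso
        have := hJ (bl l)
        rw [← h1, hl] at this
        exact absurd this (by decide)
      · rw [hb l, hl] at h1
        omega
    have hJc : J.card = (prt bl J (bl k)).card + (prt bl J (bl l)).card := by
      rw [← Finset.card_union_of_disjoint]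
      · congr 1
        ext p
        rw [Finset.mem_union, mem_prt, mem_prt]
        constructor
        · intro hp
          by_contra hcon
          have hpk : bl p ≠ bl k := fun h => hcon (Or.inl ⟨hp, h⟩)
          have hpl : bl p ≠ bl l := fun h => hcon (Or.inr ⟨hp, h⟩)
          have h0 : prt bl ({k, l} : Finset (Fin N)) (bl p) = ∅ := by
            ext a
            rw [mem_prt]
            simp only [Finset.mem_insert, Finset.mem_singleton, Finset.notMem_empty, iff_false]
            rintro ⟨rfl | rfl, h2⟩
            · exact hpk h2.symm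
            · exact hpl h2.symm
          rcases same_cases h (bl p) with h1 | h1
          · rw [h0] at h1
            have : p ∈ prt bl J (bl p) := mem_prt.2 ⟨hp, rfl⟩
            rw [← h1] at this
            exact absurd this (Finset.notMem_empty _)
          · rw [h0, hb p, Finset.card_empty, zero_add] at h1
            have := hJ (bl p)
            rw [h1] at this
            exact (Nat.not_even_iff_odd.2 hm) this
        · rintro (h1 | h1)
          · exact h1.1
          · exact h1.1
      · rw [Finset.disjoint_left]
        intro p hp hp'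
        exact hbkl ((mem_prt.1 hp).2.symm.trans (mem_prt.1 hp').2)
    rw [hk', hl'] at hJc
    obtain ⟨r, hr⟩ := hm
    omega

end Pool.Agent.Helper42.KSOne
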