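import Mathlib

/-!
Monomials in anticommuting elements `x_i` with `x_i² = D_i` of an algebra.
-/

namespace Pool.Agent.Helper42.KSOne

open scoped symmDiff

variable {F A : Type*} [Field F] [Ring A] [Algebra F A] {N : ℕ}

/-- the ordered product of the `x i`, `i ∈ I`, over a list -/
def pl (x : Fin N → A) (l : List (Fin N)) (I : Finset (Fin N)) : A :=
  (l.map (fun i => if i ∈ I then x i else 1)).prod

/-- the monomial of a finite set -/
def mono (x : Fin N → A) (I : Finset (Fin N)) : A := pl x (List.finRange N) I

theorem pl_nil (x : Fin N → A) (I : Finset (Fin N)) : pl x [] I = 1 := rfl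

theorem pl_cons (x : Fin N → A) (k : Fin N) (l : List (Fin N)) (I : Finset (Fin N)) :
    pl x (k :: l) I = (if k ∈ I then x k else 1) * pl x l I := by
  simp [pl]

theorem pl_congr (x : Fin N → A) (l : List (Fin N)) (I J : Finset (Fin N))
    (h : ∀ k ∈ l, (k ∈ I ↔ k ∈ J)) : pl x l I = pl x l J := by
  induction l with
  | nil => rfl
  | cons k l ih =>
    rw [pl_cons, pl_cons, ih (fun a ha => h a (List.mem_cons_of_mem _ ha))]
    have := h k List.mem_cons_self
    by_cases hk : k ∈ I
    · rw [if_pos hk, if_pos (this.1 hk)]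
    · rw [if_neg hk, if_neg (fun hh => hk (this.2 hh))]

theorem mono_empty (x : Fin N → A) : mono x ∅ = 1 := by
  unfold mono
  generalize List.finRange N = l
  induction l with
  | nil => rfl
  | cons k l ih => rw [pl_cons, ih, if_neg (by simp), one_mul]

/-- moving an element through a product -/
theorem comm_pl (x : Fin N → A) (y : A) (s : Fin N → F) (I : Finset (Fin N))
    (l : List (Fin N)) (h : ∀ k ∈ l, k ∈ I → y * x k = s k • (x k * y)) :
    y * pl x l I = ((l.map (fun k => if k ∈ I then s k else 1)).prod) • (pl x l I * y) := by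
  induction l with
  | nil => simp [pl_nil]
  | cons k l ih =>
    rw [pl_cons, List.map_cons, List.prod_cons]
    have ih' := ih (fun a ha => h a (List.mem_cons_of_mem _ ha))
    by_cases hk : k ∈ I
    · rw [if_pos hk, if_pos hk, ← mul_assoc, h k List.mem_cons_self hk, smul_mul_assoc, mul_assoc,
        ih', mul_smul_comm, smul_smul, mul_assoc]
    · rw [if_neg hk, if_neg hk, one_mul, one_mul, ih']

theorem prod_finRange (s : Fin N → F) (I : Finset (Fin N)) :
    ((List.finRange N).map (fun k => if k ∈ I then s k else 1)).prod = ∏ k ∈ I, s k := by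
  rw [← List.ofFn_eq_map, List.prod_ofFn, Finset.prod_ite_mem, Finset.univ_inter]

theorem comm_mono (x : Fin N → A) (y : A) (s : Fin N → F) (I : Finset (Fin N))
    (h : ∀ k ∈ I, y * x k = s k • (x k * y)) :
    y * mono x I = (∏ k ∈ I, s k) • (mono x I * y) := by
  unfold mono
  rw [comm_pl x y s I _ (fun k _ hk => h k hk), prod_finRange]

/-- the hypotheses on the generators -/
structure IsGen (x : Fin N → A) (D : Fin N → F) : Prop where
  sq : ∀ i, x i * x i = algebraMap F A (D i)
  anti : ∀ i j, i ≠ j → x i * x j = -(x j * x i)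
  ne : ∀ i, D i ≠ 0

variable {x : Fin N → A} {D : Fin N → F}

theorem left_pl (h : IsGen x D) (i : Fin N) (I : Finset (Fin N)) (l : List (Fin N))
    (hi : i ∈ l) (hl : l.Nodup) : ∃ c : F, c ≠ 0 ∧ x i * pl x l I = c • pl x l (I ∆ {i}) := by
  induction l with
  | nil => simp at hi
  | cons k l ih =>
    have hkl : k ∉ l := (List.nodup_cons.1 hl).1
    by_cases hik : i = k
    · subst hik
      have e : pl x l (I ∆ {i}) = pl x l I := by
        apply pl_congr
        intro a ha
        have : a ≠ i := fun h => hkl (h ▸ ha)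
        simp [Finset.mem_symmDiff, this]
      rw [pl_cons, pl_cons, e]
      by_cases hiI : i ∈ I
      · refine ⟨D i, h.ne i, ?_⟩
        rw [if_pos hiI, if_neg (by simp [Finset.mem_symmDiff, hiI]), ← mul_assoc, h.sq, one_mul,
          Algebra.algebraMap_eq_smul_one, smul_mul_assoc, one_mul]
      · refine ⟨1, one_ne_zero, ?_⟩
        rw [if_neg hiI, if_pos (by simp [Finset.mem_symmDiff, hiI]), one_mul, one_smul]
    · have hil : i ∈ l := by
        rcases List.mem_cons.1 hi with h1 | h1
        · exact absurd h1 hik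
        · exact h1
      obtain ⟨c, hc, hcc⟩ := ih hil (List.nodup_cons.1 hl).2
      rw [pl_cons, pl_cons]
      have hki : k ≠ i := fun h => hik h.symm
      by_cases hk : k ∈ I
      · have hk' : k ∈ I ∆ {i} := by simp [Finset.mem_symmDiff, hk, hki]
        refine ⟨-c, neg_ne_zero.2 hc, ?_⟩
        rw [if_pos hk, if_pos hk', ← mul_assoc, h.anti i k hik, neg_mul, mul_assoc, hcc,
          mul_smul_comm, neg_smul]
      · have hk' : k ∉ I ∆ {i} := by simp [Finset.mem_symmDiff, hk, hki]
        exact ⟨c, hc, by rw [if_neg hk, if_neg hk', one_mul, one_mul, hcc]⟩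

theorem left_mono (h : IsGen x D) (i : Fin N) (I : Finset (Fin N)) :
    ∃ c : F, c ≠ 0 ∧ x i * mono x I = c • mono x (I ∆ {i}) :=
  left_pl h i I _ (List.mem_finRange i) (List.nodup_finRange N)

theorem mono_insert (h : IsGen x D) {i : Fin N} {I : Finset (Fin N)} (hi : i ∉ I) :
    ∃ c : F, c ≠ 0 ∧ mono x (insert i I) = c • (x i * mono x I) := by
  obtain ⟨c, hc, hcc⟩ := left_mono h i I
  have e : I ∆ {i} = insert i I := by
    ext a
    simp only [Finset.mem_symmDiff, Finset.mem_singleton, Finset.mem_insert]
    constructor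
    · rintro (⟨h1, _⟩ | ⟨h1, _⟩)
      · exact Or.inr h1
      · exact Or.inl h1
    · rintro (rfl | h1)
      · exact Or.inr ⟨rfl, hi⟩
      · exact Or.inl ⟨h1, fun h => hi (h ▸ h1)⟩
  rw [e] at hcc
  refine ⟨c⁻¹, inv_ne_zero hc, ?_⟩
  rw [hcc, smul_smul, inv_mul_cancel₀ hc, one_smul]

theorem mono_mul (h : IsGen x D) (I J : Finset (Fin N)) :
    ∃ c : F, c ≠ 0 ∧ mono x I * mono x J = c • mono x (I ∆ J) := by
  induction I using Finset.induction_on with
  | empty =>
    refine ⟨1, one_ne_zero, ?_⟩
    rw [mono_empty, one_mul, one_smul]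
    congr 1
    exact (bot_symmDiff J).symm
  | insert i I hi ih =>
    obtain ⟨c, hc, hcc⟩ := ih
    obtain ⟨c', hc', hcc'⟩ := mono_insert h hi
    obtain ⟨c'', hc'', hcc''⟩ := left_mono h i (I ∆ J)
    refine ⟨c' * (c * c''), mul_ne_zero hc' (mul_ne_zero hc hc''), ?_⟩
    have e : (I ∆ J) ∆ {i} = (insert i I) ∆ J := by
      ext a
      simp only [Finset.mem_symmDiff, Finset.mem_singleton, Finset.mem_insert]
      by_cases ha : a = i
      · subst ha
        tauto
      · tauto
    rw [hcc', smul_mul_assoc, mul_assoc, hcc, mul_smul_comm, hcc'', e, smul_smul, smul_smul]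
    ring_nf

theorem x_mul_mono (h : IsGen x D) (i : Fin N) (I : Finset (Fin N)) :
    x i * mono x I = ((-1 : F) ^ (I.erase i).card) • (mono x I * x i) := by
  rw [comm_mono (F := F) x (x i) (fun k => if k = i then 1 else -1) I]
  · congr 1
    have : ∏ k ∈ I, (if k = i then (1 : F) else -1) = ∏ k ∈ I.erase i, (-1 : F) := by
      rw [← Finset.prod_filter_mul_prod_filter_not I (fun k => k = i)]
      rw [Finset.prod_congr rfl (g := fun _ => (1 : F))
        (fun k hk => by rw [if_pos (Finset.mem_filter.1 hk).2])]
      rw [Finset.prod_const_one, one_mul]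
      have e : I.filter (fun k => ¬ k = i) = I.erase i := by
        ext a; simp [Finset.mem_erase, and_comm]
      rw [e]
      exact Finset.prod_congr rfl (fun k hk => by rw [if_neg (Finset.ne_of_mem_erase hk)])
    rw [this, Finset.prod_const]
  · intro k _
    by_cases hk : k = i
    · subst hk; simp
    · rw [if_neg hk, h.anti i k (fun hh => hk hh.symm), neg_smul, one_smul]

/-- `x_i x_j` commutes with the monomial of `I`, or anticommutes if `I` splits `{i, j}` -/
theorem pair_comm (h : IsGen x D) (i j : Fin N) (I : Finset (Fin N)) :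
    (x i * x j) * mono x I = (if (i ∈ I ↔ j ∈ I) then (1 : F) else -1) •
      (mono x I * (x i * x j)) := by
  rw [mul_assoc, x_mul_mono h j I, mul_smul_comm, ← mul_assoc, x_mul_mono h i I, smul_mul_assoc,
    smul_smul, mul_assoc]
  congr 1
  by_cases hi : i ∈ I <;> by_cases hj : j ∈ I
  · rw [Finset.card_erase_of_mem hi, Finset.card_erase_of_mem hj, if_pos (by tauto), ← pow_add,
      ← two_mul, pow_mul]
    norm_num
  · rw [Finset.card_erase_of_mem hi, Finset.erase_eq_of_notMem hj, if_neg (by tauto), ← pow_add]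
    have hc : 0 < I.card := Finset.card_pos.2 ⟨i, hi⟩
    have e : I.card + (I.card - 1) = 2 * (I.card - 1) + 1 := by omega
    rw [e, pow_succ, pow_mul]
    norm_num
  · rw [Finset.card_erase_of_mem hj, Finset.erase_eq_of_notMem hi, if_neg (by tauto), ← pow_add]
    have hc : 0 < I.card := Finset.card_pos.2 ⟨j, hj⟩
    have e : (I.card - 1) + I.card = 2 * (I.card - 1) + 1 := by omega
    rw [e, pow_succ, pow_mul]
    norm_num
  · rw [Finset.erase_eq_of_notMem hi, Finset.erase_eq_of_notMem hj, if_pos (by tauto), ← pow_add,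
      ← two_mul, pow_mul]
    norm_num

theorem mono_mul_x (h : IsGen x D) (i : Fin N) (I : Finset (Fin N)) :
    mono x I * x i = ((-1 : F) ^ (I.erase i).card) • (x i * mono x I) := by
  rw [x_mul_mono h i I, smul_smul, ← pow_add, ← two_mul, pow_mul]
  norm_num

/-- monomials of even degree with odd intersection anticommute -/
theorem mono_anti (h : IsGen x D) (I J : Finset (Fin N)) (hJ : Even J.card)
    (hIJ : Odd (I ∩ J).card) : mono x J * mono x I = -(mono x I * mono x J) := by
  rw [comm_mono (F := F) x (mono x J) (fun k => (-1) ^ (J.erase k).card) I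
    (fun k _ => mono_mul_x h k J)]
  have e : ∏ k ∈ I, ((-1 : F) ^ (J.erase k).card) = -1 := by
    have h1 : ∀ k ∈ I, ((-1 : F) ^ (J.erase k).card) = if k ∈ J then -1 else 1 := by
      intro k _
      by_cases hk : k ∈ J
      · rw [if_pos hk, Finset.card_erase_of_mem hk]
        have hpos : 0 < J.card := Finset.card_pos.2 ⟨k, hk⟩
        have : Odd (J.card - 1) := by
          obtain ⟨r, hr⟩ := hJ
          exact ⟨r - 1, by omega⟩
        exact this.neg_one_pow
      · rw [if_neg hk, Finset.erase_eq_of_notMem hk]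
        exact hJ.neg_one_pow
    rw [Finset.prod_congr rfl h1, Finset.prod_ite_mem, Finset.prod_const]
    exact hIJ.neg_one_pow
  rw [e, neg_smul, one_smul]

/-- an anti-automorphism fixing the generators -/
theorem rev_mono (h : IsGen x D) (τ : A →ₗ[F] A) (h1 : τ 1 = 1)
    (hm : ∀ a b, τ (a * b) = τ b * τ a) (hx : ∀ i, τ (x i) = x i) (I : Finset (Fin N)) :
    τ (mono x I) = ((-1 : F) ^ (I.card * (I.card - 1) / 2)) • mono x I := by
  induction I using Finset.induction_on with
  | empty => simp [mono_empty, h1]
  | insert i I hi ih =>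
    obtain ⟨c, hc, hcc⟩ := mono_insert h hi
    rw [hcc, map_smul, hm, ih, hx, smul_mul_assoc, mono_mul_x h i I, smul_smul, smul_smul,
      smul_smul, Finset.erase_eq_of_notMem hi, Finset.card_insert_of_notMem hi, mul_comm _ c,
      mul_assoc, ← pow_add]
    have e : (I.card + 1) * (I.card + 1 - 1) / 2 = I.card * (I.card - 1) / 2 + I.card := by
      rw [Nat.add_sub_cancel]
      rcases Nat.eq_zero_or_pos I.card with h0 | h0
      · rw [h0]
      · have : (I.card + 1) * I.card = I.card * (I.card - 1) + I.card * 2 := by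
          obtain ⟨r, hr⟩ := Nat.exists_eq_add_of_lt h0
          rw [hr]
          simp only [zero_add, Nat.add_sub_cancel]
          ring
        rw [this, Nat.add_mul_div_right _ _ (by norm_num)]
    rw [e]

/-- membership in the span of monomials is preserved by products -/
theorem adjoin_le (x : Fin N → A) (S : Set A) (P : Finset (Fin N) → Prop) (h0 : P ∅)
    (hS : ∀ s ∈ S, ∀ I, P I → s * mono x I ∈ Submodule.span F {u | ∃ J, P J ∧ u = mono x J}) :
    ∀ a ∈ Algebra.adjoin F S, a ∈ Submodule.span F {u | ∃ J, P J ∧ u = mono x J} := by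
  have key : ∀ a ∈ Algebra.adjoin F S, ∀ b ∈ Submodule.span F {u | ∃ J, P J ∧ u = mono x J},
      a * b ∈ Submodule.span F {u | ∃ J, P J ∧ u = mono x J} := by
    intro a ha
    induction ha using Algebra.adjoin_induction with
    | mem s hs =>
      intro b hb
      induction hb using Submodule.span_induction with
      | mem u hu =>
        obtain ⟨J, hJ, rfl⟩ := hu
        exact hS s hs J hJ
      | zero => rw [mul_zero]; exact Submodule.zero_mem _
      | add u v _ _ hu hv => rw [mul_add]; exact Submodule.add_mem _ hu hv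
      | smul c u _ hu => rw [mul_smul_comm]; exact Submodule.smul_mem _ c hu
    | algebraMap r =>
      intro b hb
      rw [Algebra.algebraMap_eq_smul_one, smul_mul_assoc, one_mul]
      exact Submodule.smul_mem _ r hb
    | add u v _ _ hu hv =>
      intro b hb
      rw [add_mul]
      exact Submodule.add_mem _ (hu b hb) (hv b hb)
    | mul u v _ _ hu hv =>
      intro b hb
      rw [mul_assoc]
      exact hu _ (hv b hb)
  intro a ha
  have := key a ha 1 (Submodule.subset_span ⟨∅, h0, (mono_empty x).symm⟩)
  rwa [mul_one] at this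

end Pool.Agent.Helper42.KSOne
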