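import Mathlib
import Pool.Agent.Helper42.KSOne.Mono
import Pool.Agent.Helper42.KSOne.Comb

/-!
Lie algebras of pairs in a Clifford algebra with a block decomposition: the case of an
algebraically closed base.
-/

namespace Pool.Agent.Helper42.KSOne

open scoped symmDiff

variable {F A : Type*} [Field F] [CharZero F] [Ring A] [Algebra F A] {N : ℕ}
  {x : Fin N → A} {D : Fin N → F}

/-- the combination of monomials with coefficients `f` -/
def Phi (x : Fin N → A) (f : Finset (Fin N) → F) : A := ∑ I, f I • mono x I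

/-- commutator of pairs -/
def brk (z w : A × A) : A × A := (z.1 * w.1 - w.1 * z.1, z.2 * w.2 - w.2 * z.2)

private theorem ad_mono (h : IsGen x D) {p q : Fin N} (hpq : p ≠ q) (I : Finset (Fin N)) :
    (x p * x q) * ((x p * x q) * mono x I - mono x I * (x p * x q)) -
      ((x p * x q) * mono x I - mono x I * (x p * x q)) * (x p * x q) =
    (if (p ∈ I ↔ q ∈ I) then (0 : F) else -4 * (D p * D q)) • mono x I := by
  have hsq : (x p * x q) * (x p * x q) = algebraMap F A (-(D p * D q)) := by
    have h1 : (x p * x q) * (x p * x q) = -((x p * x p) * (x q * x q)) := by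
      rw [mul_assoc, ← mul_assoc (x q) (x p) (x q), h.anti q p hpq.symm]
      noncomm_ring
    rw [h1, h.sq, h.sq, ← map_mul, ← map_neg]
  have hc := pair_comm h p q I
  by_cases hs : (p ∈ I ↔ q ∈ I)
  · rw [if_pos hs, one_smul] at hc
    rw [if_pos hs, hc, sub_self, mul_zero, zero_mul, sub_self, zero_smul]
  · rw [if_neg hs, neg_smul, one_smul] at hc
    rw [if_neg hs]
    set y := x p * x q with hy
    have h2 : mono x I * y = -(y * mono x I) := by rw [hc, neg_neg]
    have h3 : y * (y * mono x I - mono x I * y) - (y * mono x I - mono x I * y) * y =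
        4 * ((y * y) * mono x I) := by
      rw [h2]
      have h4 : (y * mono x I - -(y * mono x I)) * y = - (2 * (y * y * mono x I)) := by
        rw [sub_neg_eq_add, add_mul, mul_assoc, h2]
        noncomm_ring
      rw [h4]
      noncomm_ring
    rw [h3, hsq, Algebra.algebraMap_eq_smul_one, smul_mul_assoc, one_mul]
    rw [show (4 : A) = (4 : F) • (1 : A) by
      rw [← Algebra.algebraMap_eq_smul_one, map_ofNat]]
    rw [smul_mul_assoc, one_mul, smul_smul]
    congr 1
    ring

private theorem ad_Phi (h : IsGen x D) {p q : Fin N} (hpq : p ≠ q) (f : Finset (Fin N) → F) :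
    (x p * x q) * ((x p * x q) * Phi x f - Phi x f * (x p * x q)) -
      ((x p * x q) * Phi x f - Phi x f * (x p * x q)) * (x p * x q) =
    (-4 * (D p * D q)) • Phi x (fun I => if (p ∈ I ↔ q ∈ I) then 0 else f I) := by
  unfold Phi
  rw [Finset.mul_sum, Finset.sum_mul, ← Finset.sum_sub_distrib, Finset.mul_sum, Finset.sum_mul,
    ← Finset.sum_sub_distrib, Finset.smul_sum]
  apply Finset.sum_congr rfl
  intro I _
  have h1 := ad_mono h hpq I
  have h2 : (x p * x q) * ((x p * x q) * f I • mono x I - f I • mono x I * (x p * x q)) -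
      ((x p * x q) * f I • mono x I - f I • mono x I * (x p * x q)) * (x p * x q) =
      f I • ((x p * x q) * ((x p * x q) * mono x I - mono x I * (x p * x q)) -
      ((x p * x q) * mono x I - mono x I * (x p * x q)) * (x p * x q)) := by
    simp only [mul_smul_comm, smul_mul_assoc, ← smul_sub]
  rw [h2, h1, smul_smul, smul_smul]
  congr 1
  by_cases hs : (p ∈ I ↔ q ∈ I)
  · simp [hs]
  · simp only [if_neg hs]; ring

/-- two sets split the same allowed pairs -/
def Same (al : Fin N → Fin N → Prop) (I J : Finset (Fin N)) : Prop :=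
  ∀ p q, al p q → ((p ∈ I ↔ q ∈ I) ↔ (p ∈ J ↔ q ∈ J))

variable {J : Submodule F (A × A)} {al : Fin N → Fin N → Prop}

private theorem step (h : IsGen x D) (hJ : ∀ z ∈ J, ∀ w ∈ J, brk z w ∈ J) {p q : Fin N}
    (hpq : p ≠ q) (ht : (x p * x q, x p * x q) ∈ J) (f g : Finset (Fin N) → F)
    (hfg : (Phi x f, Phi x g) ∈ J) (I₀ : Finset (Fin N)) :
    (Phi x (fun I => if ((p ∈ I ↔ q ∈ I) ↔ (p ∈ I₀ ↔ q ∈ I₀)) then f I else 0),
      Phi x (fun I => if ((p ∈ I ↔ q ∈ I) ↔ (p ∈ I₀ ↔ q ∈ I₀)) then g I else 0)) ∈ J := by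
  have h1 := hJ _ ht _ (hJ _ ht _ hfg)
  simp only [brk] at h1
  rw [ad_Phi h hpq, ad_Phi h hpq] at h1
  have hne : (-4 * (D p * D q)) ≠ 0 :=
    mul_ne_zero (by norm_num) (mul_ne_zero (h.ne p) (h.ne q))
  have h2 := J.smul_mem (-4 * (D p * D q))⁻¹ h1
  rw [Prod.smul_mk, smul_smul, smul_smul, inv_mul_cancel₀ hne, one_smul, one_smul] at h2
  by_cases hs : (p ∈ I₀ ↔ q ∈ I₀)
  · have h3 := J.sub_mem hfg h2
    rw [Prod.mk_sub_mk] at h3
    have e : ∀ f : Finset (Fin N) → F, Phi x f -
        Phi x (fun I => if (p ∈ I ↔ q ∈ I) then 0 else f I) =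
        Phi x (fun I => if ((p ∈ I ↔ q ∈ I) ↔ (p ∈ I₀ ↔ q ∈ I₀)) then f I else 0) := by
      intro f
      unfold Phi
      rw [← Finset.sum_sub_distrib]
      apply Finset.sum_congr rfl
      intro I _
      by_cases hI : (p ∈ I ↔ q ∈ I)
      · simp [hI, hs]
      · simp [hI, hs]
    rwa [e, e] at h3
  · have e : ∀ f : Finset (Fin N) → F,
        Phi x (fun I => if (p ∈ I ↔ q ∈ I) then 0 else f I) =
        Phi x (fun I => if ((p ∈ I ↔ q ∈ I) ↔ (p ∈ I₀ ↔ q ∈ I₀)) then f I else 0) := by
      intro f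
      unfold Phi
      apply Finset.sum_congr rfl
      intro I _
      by_cases hI : (p ∈ I ↔ q ∈ I)
      · simp [hI, hs]
      · simp [hI, hs]
    rwa [e, e] at h2

/-- isolate the class of `I₀` -/
private theorem isoAll (h : IsGen x D) (hJ : ∀ z ∈ J, ∀ w ∈ J, brk z w ∈ J)
    (hal : ∀ p q, al p q → p ≠ q) (ht : ∀ p q, al p q → (x p * x q, x p * x q) ∈ J)
    (f g : Finset (Fin N) → F) (hfg : (Phi x f, Phi x g) ∈ J) (I₀ : Finset (Fin N))
    [DecidablePred fun I => Same al I I₀] :
    (Phi x (fun I => if Same al I I₀ then f I else 0),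
      Phi x (fun I => if Same al I I₀ then g I else 0)) ∈ J := by
  classical
  have key : ∀ S : Finset (Fin N × Fin N), (∀ s ∈ S, al s.1 s.2) →
      (Phi x (fun I => if (∀ s ∈ S, ((s.1 ∈ I ↔ s.2 ∈ I) ↔ (s.1 ∈ I₀ ↔ s.2 ∈ I₀)))
        then f I else 0),
      Phi x (fun I => if (∀ s ∈ S, ((s.1 ∈ I ↔ s.2 ∈ I) ↔ (s.1 ∈ I₀ ↔ s.2 ∈ I₀)))
        then g I else 0)) ∈ J := by
    intro S
    induction S using Finset.induction_on with
    | empty => intro _; simpa using hfg
    | insert s S hs ih =>
      intro hS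
      have h1 := ih (fun a ha => hS a (Finset.mem_insert_of_mem ha))
      have hals := hS s (Finset.mem_insert_self s S)
      have h2 := step h hJ (hal _ _ hals) (ht _ _ hals) _ _ h1 I₀
      convert h2 using 3
      · funext I
        by_cases ha : ((s.1 ∈ I ↔ s.2 ∈ I) ↔ (s.1 ∈ I₀ ↔ s.2 ∈ I₀))
        · simp only [Finset.forall_mem_insert, ha, true_and, if_true]
        · simp only [Finset.forall_mem_insert, ha, false_and, if_false]
      · funext I
        by_cases ha : ((s.1 ∈ I ↔ s.2 ∈ I) ↔ (s.1 ∈ I₀ ↔ s.2 ∈ I₀))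
        · simp only [Finset.forall_mem_insert, ha, true_and, if_true]
        · simp only [Finset.forall_mem_insert, ha, false_and, if_false]
  have h1 := key (Finset.univ.filter fun s => al s.1 s.2)
    (fun s hs => (Finset.mem_filter.1 hs).2)
  convert h1 using 3
  · funext I
    congr 1
    simp [Same]
  · funext I
    congr 1
    simp [Same]

section blocks

variable {β : Type*} [DecidableEq β] {bl : Fin N → β} {m : ℕ}

/-- the hypotheses on `J` -/
structure IsPairAlg (x : Fin N → A) (bl : Fin N → β) (J : Submodule F (A × A)) : Prop where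
  lie : ∀ z ∈ J, ∀ w ∈ J, brk z w ∈ J
  tor : ∀ p q, p ≠ q ∧ bl p = bl q → (x p * x q, x p * x q) ∈ J
  left : ∀ z ∈ J, ∃ f : Finset (Fin N) → F, (∀ I, f I ≠ 0 → I.card = 2) ∧ z.1 = Phi x f
  right : ∀ z ∈ J, ∃ g : Finset (Fin N) → F,
    (∀ I, g I ≠ 0 → BlockEven bl I ∧ I.card % 4 = 2) ∧ z.2 = Phi x g
  indep : ∀ p q, p ≠ q ∧ bl p = bl q → (x p * x q, 0) ∉ J

omit [CharZero F] in
private theorem Phi_zero : Phi x (fun _ => (0 : F)) = 0 := by
  simp [Phi]

omit [CharZero F] in
private theorem Phi_one (I₀ : Finset (Fin N)) (c : F) :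
    Phi x (fun I => if I = I₀ then c else 0) = c • mono x I₀ := by
  unfold Phi
  rw [Finset.sum_eq_single I₀]
  · simp only [if_true]
  · intro I _ hI
    simp only [if_neg hI, zero_smul]
  · intro h
    exact absurd (Finset.mem_univ _) h

omit [CharZero F] in
private theorem mono_pair (h : IsGen x D) {p q : Fin N} (hpq : p ≠ q) :
    ∃ c : F, c ≠ 0 ∧ mono x {p, q} = c • (x p * x q) := by
  obtain ⟨c, hc, e⟩ := mono_insert h (i := p) (I := {q}) (by simpa using hpq)
  obtain ⟨c', hc', e'⟩ := mono_insert h (i := q) (I := ∅) (by simp)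
  have e'' : mono x {q} = c' • x q := by
    have : (insert q (∅ : Finset (Fin N))) = {q} := rfl
    rw [← this, e', mono_empty, mul_one]
  refine ⟨c * c', mul_ne_zero hc hc', ?_⟩
  have : (insert p ({q} : Finset (Fin N))) = {p, q} := rfl
  rw [← this, e, e'', mul_smul_comm, smul_smul]

private theorem brk_mono (h : IsGen x D) {I K : Finset (Fin N)} (hI : Even I.card)
    (hIK : Odd (K ∩ I).card) :
    ∃ c : F, c ≠ 0 ∧ mono x I * mono x K - mono x K * mono x I = c • mono x (I ∆ K) := by
  have h1 := mono_anti h K I hI hIK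
  obtain ⟨c, hc, e⟩ := mono_mul h I K
  refine ⟨2 * c, mul_ne_zero two_ne_zero hc, ?_⟩
  have h2 : mono x K * mono x I = -(mono x I * mono x K) := by rw [h1, neg_neg]
  rw [h2, sub_neg_eq_add, e, ← two_smul F, smul_smul]

/-- the kernel of the second projection is zero -/
private theorem ker_zero (h : IsGen x D) (hm : Odd m) (h3 : 3 ≤ m)
    (hb : ∀ p, (prt bl Finset.univ (bl p)).card = m) (hJ : IsPairAlg x bl J)
    (f : Finset (Fin N) → F) (hf : ∀ I, f I ≠ 0 → I.card = 2) (hz : (Phi x f, 0) ∈ J) :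
    ∀ I, f I = 0 := by
  classical
  intro I₀
  by_contra hne
  have hI2 := hf I₀ hne
  have h1 := isoAll (al := fun p q => p ≠ q ∧ bl p = bl q) h hJ.lie (fun _ _ h => h.1) hJ.tor f
    (fun _ => 0) (by rwa [Phi_zero]) I₀
  have e1 : (fun I => if Same (fun p q => p ≠ q ∧ bl p = bl q) I I₀ then f I else 0) =
      fun I => if I = I₀ then f I₀ else 0 := by
    funext I
    by_cases hI : I = I₀
    · subst hI
      have hsame : Same (fun p q => p ≠ q ∧ bl p = bl q) I I := fun _ _ _ => Iff.rfl
      rw [if_pos rfl, if_pos hsame]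
    · rw [if_neg hI]
      split_ifs with hs
      · by_contra hfI
        exact hI (same_pairs hm h3 hb (hf I hfI) hI2 hs)
      · rfl
  have e2 : (fun I => if Same (fun p q => p ≠ q ∧ bl p = bl q) I I₀ then (0 : F) else 0) =
      fun _ => 0 := by
    funext I
    simp
  rw [e1, e2, Phi_one, Phi_zero] at h1
  have h2 : (mono x I₀, (0 : A)) ∈ J := by
    have := J.smul_mem (f I₀)⁻¹ h1
    rwa [Prod.smul_mk, smul_smul, inv_mul_cancel₀ hne, one_smul, smul_zero] at this
  obtain ⟨k, l, hkl, rfl⟩ := Finset.card_eq_two.1 hI2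
  have hfin : ∀ p q, p ≠ q → bl p = bl q → (mono x {p, q}, (0 : A)) ∈ J → False := by
    intro p q hpq hbpq hmem
    obtain ⟨c, hc, e⟩ := mono_pair h hpq
    have := J.smul_mem c⁻¹ hmem
    rw [e, Prod.smul_mk, smul_smul, inv_mul_cancel₀ hc, one_smul, smul_zero] at this
    exact hJ.indep p q ⟨hpq, hbpq⟩ this
  by_cases hbkl : bl k = bl l
  · exact hfin k l hkl hbkl h2
  · -- choose another element of the block of `k`
    obtain ⟨k', hk'b, hk'⟩ : ∃ k', bl k' = bl k ∧ k' ≠ k := by
      by_contra hcon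
      push Not at hcon
      have : prt bl Finset.univ (bl k) = {k} := by
        ext a
        rw [mem_prt]
        simp only [Finset.mem_univ, true_and, Finset.mem_singleton]
        exact ⟨fun ha => hcon a ha, fun ha => by rw [ha]⟩
      have h5 := hb k
      rw [this, Finset.card_singleton] at h5
      omega
    have hk'l : k' ≠ l := fun hh => hbkl (by rw [← hk'b, hh])
    have e5 : ∀ a b : Fin N, a ≠ b → ({a, b} : Finset (Fin N)).card = 2 :=
      fun a b hab => Finset.card_pair hab
    -- `[{k', k}, {k, l}] = {k', l}`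
    have s1 : (mono x {k', l}, (0 : A)) ∈ J := by
      have t1 := hJ.lie _ (hJ.tor k' k ⟨hk', hk'b⟩) _ h2
      simp only [brk, mul_zero, zero_mul, sub_zero] at t1
      obtain ⟨c, hc, e⟩ := mono_pair h hk'
      have hodd : Odd (({k, l} : Finset (Fin N)) ∩ {k', k}).card := by
        have : ({k, l} : Finset (Fin N)) ∩ {k', k} = {k} := by
          ext a
          simp only [Finset.mem_inter, Finset.mem_insert, Finset.mem_singleton]
          grind
        rw [this, Finset.card_singleton]
        exact odd_one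
      obtain ⟨c', hc', e'⟩ := brk_mono h (I := {k', k}) (K := {k, l})
        (by rw [e5 _ _ hk']; exact even_two) hodd
      have hsd : ({k', k} : Finset (Fin N)) ∆ {k, l} = {k', l} := by
        ext a
        simp only [Finset.mem_symmDiff, Finset.mem_insert, Finset.mem_singleton]
        grind
      rw [e, hsd] at e'
      have t2 := J.smul_mem (c'⁻¹ * c) t1
      have e6 : (c'⁻¹ * c) • (x k' * x k * mono x {k, l} - mono x {k, l} * (x k' * x k)) =
          mono x {k', l} := by
        have e7 : c • (x k' * x k * mono x {k, l} - mono x {k, l} * (x k' * x k)) =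
            c' • mono x {k', l} := by
          rw [← e', smul_sub, smul_mul_assoc, mul_smul_comm]
        rw [mul_smul, e7, smul_smul, inv_mul_cancel₀ hc', one_smul]
      rwa [Prod.smul_mk, e6, smul_zero] at t2
    -- `[{k, l}, {k', l}] = {k, k'}`
    have s2 : (mono x {k, k'}, (0 : A)) ∈ J := by
      have t1 := hJ.lie _ h2 _ s1
      simp only [brk, mul_zero, sub_zero] at t1
      have hodd : Odd (({k', l} : Finset (Fin N)) ∩ {k, l}).card := by
        have : ({k', l} : Finset (Fin N)) ∩ {k, l} = {l} := by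
          ext a
          simp only [Finset.mem_inter, Finset.mem_insert, Finset.mem_singleton]
          grind
        rw [this, Finset.card_singleton]
        exact odd_one
      obtain ⟨c', hc', e'⟩ := brk_mono h (I := {k, l}) (K := {k', l})
        (by rw [e5 _ _ hkl]; exact even_two) hodd
      have hsd : ({k, l} : Finset (Fin N)) ∆ {k', l} = {k, k'} := by
        ext a
        simp only [Finset.mem_symmDiff, Finset.mem_insert, Finset.mem_singleton]
        grind
      rw [hsd] at e'
      have t2 := J.smul_mem c'⁻¹ t1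
      rw [e'] at t2
      rwa [Prod.smul_mk, smul_smul, inv_mul_cancel₀ hc', one_smul, smul_zero] at t2
    exact hfin k k' (Ne.symm hk') hk'b.symm s2

/-- the right components are combinations of pairs -/
private theorem right_two (h : IsGen x D) (hm : Odd m)
    (hb : ∀ p, (prt bl Finset.univ (bl p)).card = m) (hJ : IsPairAlg x bl J)
    (f g : Finset (Fin N) → F) (hf : ∀ I, f I ≠ 0 → I.card = 2)
    (hg : ∀ I, g I ≠ 0 → BlockEven bl I ∧ I.card % 4 = 2) (hz : (Phi x f, Phi x g) ∈ J) :
    ∀ I, g I ≠ 0 → I.card = 2 := by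
  classical
  intro I₀ hne
  by_contra hcard
  obtain ⟨hev, hc4⟩ := hg I₀ hne
  have h1 := isoAll (al := fun p q => p ≠ q ∧ bl p = bl q) h hJ.lie (fun _ _ h => h.1) hJ.tor f
    g hz I₀
  have e1 : (fun I => if Same (fun p q => p ≠ q ∧ bl p = bl q) I I₀ then f I else 0) =
      fun _ => 0 := by
    funext I
    split_ifs with hs
    · by_contra hfI
      have := same_good hm hb (hf I hfI) hev hc4 hs
      exact hcard (this ▸ hf I hfI)
    · rfl
  have e2 : (fun I => if Same (fun p q => p ≠ q ∧ bl p = bl q) I I₀ then g I else 0) =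
      fun I => if I = I₀ then g I₀ else 0 := by
    funext I
    by_cases hI : I = I₀
    · subst hI
      have hsame : Same (fun p q => p ≠ q ∧ bl p = bl q) I I := fun _ _ _ => Iff.rfl
      rw [if_pos rfl, if_pos hsame]
    · rw [if_neg hI]
      split_ifs with hs
      · by_contra hfI
        exact hI (same_even hm hb (hg I hfI).1 hev hs)
      · rfl
  rw [e1, e2, Phi_one, Phi_zero] at h1
  have h2 : ((0 : A), mono x I₀) ∈ J := by
    have := J.smul_mem (g I₀)⁻¹ h1
    rwa [Prod.smul_mk, smul_smul, inv_mul_cancel₀ hne, one_smul, smul_zero] at this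
  have hev0 : Even I₀.card := ⟨I₀.card / 2, by omega⟩
  obtain ⟨p, hp⟩ : I₀.Nonempty := by
    rw [Finset.nonempty_iff_ne_empty]
    rintro rfl
    simp at hc4
  obtain ⟨q, hqb, hq⟩ : ∃ q, bl q = bl p ∧ q ∉ I₀ := by
    by_contra hcon
    push Not at hcon
    have : prt bl I₀ (bl p) = prt bl Finset.univ (bl p) := by
      ext a
      rw [mem_prt, mem_prt]
      exact ⟨fun ha => ⟨Finset.mem_univ _, ha.2⟩, fun ha => ⟨hcon a ha.2, ha.2⟩⟩
    have h5 := hev (bl p)
    rw [this, hb p] at h5
    exact (Nat.not_even_iff_odd.2 hm) h5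
  have hpq : p ≠ q := fun hh => hq (hh ▸ hp)
  obtain ⟨c, hc, e⟩ := mono_pair h hpq
  have hpqc : ({p, q} : Finset (Fin N)).card = 2 := Finset.card_pair hpq
  set J₀ : Finset (Fin N) := {p, q} ∆ I₀ with hJ₀
  -- the exchanged set
  have s1 : ((0 : A), mono x J₀) ∈ J := by
    have t1 := hJ.lie _ (hJ.tor p q ⟨hpq, hqb.symm⟩) _ h2
    simp only [brk, mul_zero, zero_mul, sub_zero] at t1
    have hodd : Odd (I₀ ∩ {p, q}).card := by
      have : I₀ ∩ {p, q} = {p} := by
        ext a
        simp only [Finset.mem_inter, Finset.mem_insert, Finset.mem_singleton]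
        grind
      rw [this, Finset.card_singleton]
      exact odd_one
    obtain ⟨c', hc', e'⟩ := brk_mono h (I := {p, q}) (K := I₀) (by rw [hpqc]; exact even_two) hodd
    rw [e] at e'
    have t2 := J.smul_mem (c'⁻¹ * c) t1
    have e6 : (c'⁻¹ * c) • (x p * x q * mono x I₀ - mono x I₀ * (x p * x q)) = mono x J₀ := by
      have e7 : c • (x p * x q * mono x I₀ - mono x I₀ * (x p * x q)) = c' • mono x J₀ := by
        rw [← e', smul_sub, smul_mul_assoc, mul_smul_comm]
      rw [mul_smul, e7, smul_smul, inv_mul_cancel₀ hc', one_smul]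
    rwa [Prod.smul_mk, e6, smul_zero] at t2
  have s2 : ((0 : A), mono x {p, q}) ∈ J := by
    have t1 := hJ.lie _ h2 _ s1
    simp only [brk, mul_zero, sub_zero] at t1
    have hodd : Odd (J₀ ∩ I₀).card := by
      have : J₀ ∩ I₀ = I₀.erase p := by
        ext a
        simp only [hJ₀, Finset.mem_inter, Finset.mem_symmDiff, Finset.mem_insert,
          Finset.mem_singleton, Finset.mem_erase]
        grind
      rw [this, Finset.card_erase_of_mem hp]
      exact ⟨I₀.card / 2 - 1, by omega⟩
    obtain ⟨c', hc', e'⟩ := brk_mono h (I := I₀) (K := J₀) hev0 hodd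
    have hsd : I₀ ∆ J₀ = {p, q} := by
      ext a
      simp only [hJ₀, Finset.mem_symmDiff, Finset.mem_insert, Finset.mem_singleton]
      grind
    rw [hsd] at e'
    have t2 := J.smul_mem c'⁻¹ t1
    rw [e'] at t2
    rwa [Prod.smul_mk, smul_smul, inv_mul_cancel₀ hc', one_smul, smul_zero] at t2
  have s3 : ((0 : A), x p * x q) ∈ J := by
    have := J.smul_mem c⁻¹ s2
    rwa [e, Prod.smul_mk, smul_smul, inv_mul_cancel₀ hc, one_smul, smul_zero] at this
  have s4 := J.sub_mem (hJ.tor p q ⟨hpq, hqb.symm⟩) s3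
  rw [Prod.mk_sub_mk, sub_zero, sub_self] at s4
  exact hJ.indep p q ⟨hpq, hqb.symm⟩ s4

/-- The pair algebra is the diagonal of the span of the `x_p x_q` with `p`, `q` in a block. -/
theorem block_main (h : IsGen x D) (hm : Odd m) (h3 : 3 ≤ m)
    (hb : ∀ p, (prt bl Finset.univ (bl p)).card = m) (hJ : IsPairAlg x bl J) :
    ∀ z ∈ J, z.1 = z.2 ∧
      z.2 ∈ Submodule.span F {u | ∃ p q, (p ≠ q ∧ bl p = bl q) ∧ u = x p * x q} := by
  intro z hz
  obtain ⟨f, hf, hzf⟩ := hJ.left z hz
  obtain ⟨g, hg, hzg⟩ := hJ.right z hz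
  have hz' : (Phi x f, Phi x g) ∈ J := by rw [← hzf, ← hzg]; exact hz
  have hg2 := right_two h hm hb hJ f g hf hg hz'
  have hpair : ∀ I, g I ≠ 0 → ∃ p q, (p ≠ q ∧ bl p = bl q) ∧ I = {p, q} := by
    intro I hI
    obtain ⟨p, q, hpq, rfl⟩ := Finset.card_eq_two.1 (hg2 I hI)
    refine ⟨p, q, ⟨hpq, ?_⟩, rfl⟩
    by_contra hbb
    have h5 := (hg _ hI).1 (bl p)
    have : prt bl {p, q} (bl p) = {p} := by
      ext a
      rw [mem_prt]
      simp only [Finset.mem_insert, Finset.mem_singleton]
      constructor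
      · rintro ⟨rfl | rfl, h2⟩
        · rfl
        · exact absurd h2.symm hbb
      · rintro rfl
        exact ⟨Or.inl rfl, rfl⟩
    rw [this, Finset.card_singleton] at h5
    exact absurd h5 (by decide)
  have hdiag : (Phi x g, Phi x g) ∈ J := by
    have : (Phi x g, Phi x g) = ∑ I, g I • (mono x I, mono x I) := by
      unfold Phi
      apply Prod.ext
      · rw [Prod.fst_sum]
        rfl
      · rw [Prod.snd_sum]
        rfl
    rw [this]
    apply Submodule.sum_mem
    intro I _
    by_cases hI : g I = 0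
    · rw [hI, zero_smul]; exact J.zero_mem
    · obtain ⟨p, q, hpq, rfl⟩ := hpair I hI
      obtain ⟨c, hc, e⟩ := mono_pair h hpq.1
      rw [e]
      have : (c • (x p * x q), c • (x p * x q)) = c • (x p * x q, x p * x q) := rfl
      rw [this]
      exact J.smul_mem _ (J.smul_mem _ (hJ.tor p q hpq))
  have hd := J.sub_mem hz' hdiag
  rw [Prod.mk_sub_mk, sub_self] at hd
  have e1 : Phi x f - Phi x g = Phi x (fun I => f I - g I) := by
    unfold Phi
    rw [← Finset.sum_sub_distrib]
    exact Finset.sum_congr rfl (fun I _ => by rw [sub_smul])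
  rw [e1] at hd
  have hfg := ker_zero h hm h3 hb hJ (fun I => f I - g I) (by
    intro I hI
    by_cases hfI : f I = 0
    · have : g I ≠ 0 := fun h0 => hI (by simp only [hfI, h0, sub_zero])
      exact hg2 I this
    · exact hf I hfI) hd
  have hfg' : f = g := by
    funext I
    have := hfg I
    exact sub_eq_zero.1 this
  refine ⟨by rw [hzf, hzg, hfg'], ?_⟩
  rw [hzg]
  unfold Phi
  apply Submodule.sum_mem
  intro I _
  by_cases hI : g I = 0
  · rw [hI, zero_smul]; exact Submodule.zero_mem _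
  · obtain ⟨p, q, hpq, rfl⟩ := hpair I hI
    obtain ⟨c, hc, e⟩ := mono_pair h hpq.1
    rw [e]
    exact Submodule.smul_mem _ _ (Submodule.smul_mem _ _
      (Submodule.subset_span ⟨p, q, hpq, rfl⟩))

end blocks

end Pool.Agent.Helper42.KSOne
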