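import Mathlib
import Pool.Agent.Helper9.KSMDefs

/-!
Definitions for the theorem that one mixed algebraic class on `X^a × A^b` is enough.

Dictionary. `K = ℚ`, `L = ℂ`; `V = Kⁿ` with the form `b(x, y) = ∑ dᵢ xᵢ yᵢ` is the transcendental
part of `H²(X)(1)` of a projective hyper-Kaehler variety `X`, `H = Kᵐ` is `H¹(A)` for an abelian
variety `A`, and `j` is the Lie algebra of the Tannakian group of the category of homological
motives generated by the motives of `V` and of `A`; it acts on `V` and on `H`.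
-/

namespace Pool.Agent.Helper42.KSOne

open Pool.Agent.Helper9.KSM

/-- The action of the pair `(Y, y)` on the tensor `T` in
`V ⊗ ⋯ ⊗ V ⊗ H ⊗ ⋯ ⊗ H ⊗ H* ⊗ ⋯ ⊗ H*` (`a`, `b` and `c` factors). -/
def act {K : Type} [Field K] {n m a b c : ℕ} (Y : Mat n K) (y : Mat m K)
    (T : (Fin a → Fin n) → (Fin b → Fin m) → (Fin c → Fin m) → K) :
    (Fin a → Fin n) → (Fin b → Fin m) → (Fin c → Fin m) → K := fun i j k =>
  (∑ s, ∑ p, Y (i s) p * T (Function.update i s p) j k) +
    (∑ s, ∑ q, y (j s) q * T i (Function.update j s q) k) -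
    ∑ s, ∑ q, T i j (Function.update k s q) * y q (k s)

/-- There is a mixed tensor: a tensor in `V^{⊗ a} ⊗ H^{⊗ b} ⊗ (H*)^{⊗ c}` which is invariant under
`j` but not under `so(V) × 0`. -/
def HasMixed {K : Type} [Field K] {n m : ℕ} (d : Fin n → K)
    (j : Submodule K (Mat n K × Mat m K)) : Prop :=
  ∃ (a b c : ℕ) (T : (Fin a → Fin n) → (Fin b → Fin m) → (Fin c → Fin m) → K),
    (∀ p ∈ j, act p.1 p.2 T = 0) ∧ ∃ Y, IsSkew d Y ∧ act Y 0 T ≠ 0

/-- `s` is closed under the commutator with `j`. -/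
def IsStable {K : Type} [Field K] {n m : ℕ} (j s : Submodule K (Mat n K × Mat m K)) : Prop :=
  s ≤ j ∧ ∀ p ∈ j, ∀ q ∈ s, (p.1 * q.1 - q.1 * p.1, p.2 * q.2 - q.2 * p.2) ∈ s

/-- `j` is a Lie algebra of pairs of matrices whose first projection has image the orthogonal Lie
algebra of `b`, and the kernel of this projection has a complementary ideal. -/
structure IsOrthPair {K : Type} [Field K] {n m : ℕ} (d : Fin n → K)
    (j : Submodule K (Mat n K × Mat m K)) : Prop where
  lie : IsStable j j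
  skew : ∀ p ∈ j, IsSkew d p.1
  onto : ∀ Y, IsSkew d Y → ∃ p ∈ j, p.1 = Y
  compl : ∃ s, IsStable j s ∧ (∀ p ∈ j, ∃ q ∈ s, q.1 = p.1) ∧ ∀ q ∈ s, q.1 = 0 → q = 0

/-- The Hodge projector `∑ lᵢ xᵢ` in `L ⊗ j`: it is idempotent on `H` and acts on `V` as the
rotation of a hyperbolic pair. -/
structure IsHodgePair {K L : Type} [Field K] [Field L] [Algebra K L] {n m r : ℕ} (d : Fin n → K)
    (j : Submodule K (Mat n K × Mat m K)) (l : Fin r → L)
    (x : Fin r → Mat n K × Mat m K) : Prop where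
  mem : ∀ i, x i ∈ j
  idem : comb l (fun i => (x i).2) * comb l (fun i => (x i).2) = comb l (fun i => (x i).2)
  type : ∃ e f, IsHyp (fun i => algebraMap K L (d i)) e f ∧
    comb l (fun i => (x i).1) = rot (fun i => algebraMap K L (d i)) e f

/-- The image of `j` in the endomorphisms of `H`. -/
def onH {K : Type} [Field K] {n m : ℕ} (j : Submodule K (Mat n K × Mat m K)) :
    Submodule K (Mat m K) :=
  j.map (LinearMap.snd K (Mat n K) (Mat m K))

end Pool.Agent.Helper42.KSOne
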