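import Mathlib

/-!
Definitions for the theorem on Kuga-Satake varieties of K3 surfaces of odd Picard number.

Dictionary. `K = ℚ`; `V = E^m` is the transcendental part of `H²(X)(1)` of a hyper-Kaehler variety
`X` whose field `E` of Hodge endomorphisms is totally real, with the polarisation
`b(v, w) = Tr (∑ dᵢ vᵢ wᵢ)`; `Cl` is the Clifford algebra of `V` (two copies of `H¹(KS(X))`, on
which the motivic group acts by left multiplication); the Lie algebra of the Hodge group consists
of the `E`-linear skew maps `Y` of `V`, acting on `Cl` by left multiplication by the bivector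
of `Y`; `j` is the Lie algebra of the elements of multiplier one in the Tannaka group of the
category of homological motives generated by the motives of `V` and of `KS(X)`.
-/

namespace Pool.Agent.Helper42.KSOne

variable (K : Type) {E : Type} [Field K] [Field E] [Algebra K E] {m : ℕ}

/-- The bilinear form `b(v, w) = Tr_{E/K} (∑ dᵢ vᵢ wᵢ)` on `V = E^m`. -/
noncomputable def trBil (d : Fin m → E) : (Fin m → E) →ₗ[K] (Fin m → E) →ₗ[K] K :=
  LinearMap.mk₂ K (fun v w => Algebra.trace K E (∑ i, d i * v i * w i))
    (fun v v' w => by
      rw [← map_add, ← Finset.sum_add_distrib]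
      exact congrArg _ (Finset.sum_congr rfl fun i _ => by simp only [Pi.add_apply]; ring))
    (fun c v w => by
      rw [← map_smul, Finset.smul_sum]
      exact congrArg _ (Finset.sum_congr rfl fun i _ => by
        simp only [Pi.smul_apply, Algebra.smul_def]; ring))
    (fun v w w' => by
      rw [← map_add, ← Finset.sum_add_distrib]
      exact congrArg _ (Finset.sum_congr rfl fun i _ => by simp only [Pi.add_apply]; ring))
    (fun c v w => by
      rw [← map_smul, Finset.smul_sum]
      exact congrArg _ (Finset.sum_congr rfl fun i _ => by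
        simp only [Pi.smul_apply, Algebra.smul_def]; ring))

/-- The Clifford algebra of the quadratic form `b(v, v)` over `K`. -/
noncomputable abbrev Cl (d : Fin m → E) : Type :=
  CliffordAlgebra (LinearMap.BilinMap.toQuadraticMap (trBil K d) : QuadraticForm K (Fin m → E))

/-- The inclusion of `V` in its Clifford algebra. -/
noncomputable abbrev inV (d : Fin m → E) : (Fin m → E) →ₗ[K] Cl K d :=
  CliffordAlgebra.ι (LinearMap.BilinMap.toQuadraticMap (trBil K d))

/-- The bivectors: the span of all `v w - w v`. -/
noncomputable def bivectors (d : Fin m → E) : Submodule K (Cl K d) :=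
  Submodule.span K {u | ∃ v w, u = inV K d v * inV K d w - inV K d w * inV K d v}

/-- Elements of the Hodge Lie algebra: `E`-linear maps `Y` of `V` together with a bivector `u`
acting on `V` (by the commutator) as `Y`. -/
def IsHodge (d : Fin m → E) (z : Module.End K (Fin m → E) × Cl K d) : Prop :=
  (∀ (a : E) (v : Fin m → E), z.1 (a • v) = a • z.1 v) ∧ z.2 ∈ bivectors K d ∧
    ∀ v, z.2 * inV K d v - inV K d v * z.2 = inV K d (z.1 v)

/-- The properties of the motivic Lie algebra `j`: it is a Lie algebra which contains the Hodge Lie
algebra, preserves the form on `V`, commutes with all endomorphisms of `Cl` which commute with the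
Hodge Lie algebra (endomorphisms of abelian varieties are algebraic) and preserves the
polarisations of the Kuga-Satake variety (its elements are skew for the canonical involution). -/
structure IsMotivic (d : Fin m → E) (j : Submodule K (Module.End K (Fin m → E) × Cl K d)) :
    Prop where
  lie : ∀ z ∈ j, ∀ w ∈ j, (z.1 * w.1 - w.1 * z.1, z.2 * w.2 - w.2 * z.2) ∈ j
  hodge : ∀ z, IsHodge K d z → z ∈ j
  skew : ∀ z ∈ j, ∀ v w, trBil K d (z.1 v) w + trBil K d v (z.1 w) = 0
  comm : ∀ z ∈ j, ∀ T : Cl K d →ₗ[K] Cl K d,
    (∀ h, IsHodge K d h → ∀ w, T (h.2 * w) = h.2 * T w) → ∀ w, T (z.2 * w) = z.2 * T w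
  pol : ∀ z ∈ j, CliffordAlgebra.reverse z.2 = -z.2

/-- The action of `z` on a multilinear form on `V^a × Cl^b`. -/
noncomputable def actT {d : Fin m → E} {a b : ℕ} (z : Module.End K (Fin m → E) × Cl K d)
    (f : MultilinearMap K (fun _ : Fin a => (Fin m → E))
      (MultilinearMap K (fun _ : Fin b => Cl K d) K))
    (v : Fin a → (Fin m → E)) (w : Fin b → Cl K d) : K :=
  (∑ s, f (Function.update v s (z.1 (v s))) w) + ∑ s, f v (Function.update w s (z.2 * w s))

/-- There is a mixed form: a multilinear form on `V^a × Cl^b` which is invariant under `j` but not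
invariant under the Hodge Lie algebra acting on the variables in `V` only. -/
def HasMixedForm (d : Fin m → E) (j : Submodule K (Module.End K (Fin m → E) × Cl K d)) : Prop :=
  ∃ (a b : ℕ) (f : MultilinearMap K (fun _ : Fin a => (Fin m → E))
      (MultilinearMap K (fun _ : Fin b => Cl K d) K)),
    (∀ z ∈ j, ∀ v w, actT K z f v w = 0) ∧
      ∃ z, IsHodge K d z ∧ ∃ v w, actT K (z.1, 0) f v w ≠ 0

end Pool.Agent.Helper42.KSOne
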