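import Mathlib

/-!
Dual bases for the trace form and embeddings in an algebraically closed field.
-/

namespace Pool.Agent.Helper42.KSOne

open Module

variable (K E L : Type) [Field K] [CharZero K] [Field E] [Algebra K E] [FiniteDimensional K E]
  [Field L] [Algebra K L] [IsAlgClosed L]

/-- a basis of `E` over `K` -/
noncomputable def om : Basis (Fin (finrank K E)) K E := finBasis K E

/-- the dual basis for the trace form -/
noncomputable def omd : Basis (Fin (finrank K E)) K E :=
  (Algebra.traceForm K E).dualBasis (traceForm_nondegenerate K E) (om K E)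

theorem tr_omd_om (k l : Fin (finrank K E)) :
    Algebra.trace K E (omd K E k * om K E l) = if l = k then 1 else 0 :=
  LinearMap.BilinForm.apply_dualBasis_left (traceForm_nondegenerate K E) (om K E) k l

theorem expand_omd (y : E) : y = ∑ k, Algebra.trace K E (om K E k * y) • omd K E k := by
  conv_lhs => rw [← (omd K E).sum_repr y]
  apply Finset.sum_congr rfl
  intro k _
  congr 1
  rw [omd, LinearMap.BilinForm.dualBasis_repr_apply, Algebra.traceForm_apply, mul_comm]

theorem expand_om (y : E) : y = ∑ k, Algebra.trace K E (omd K E k * y) • om K E k := by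
  conv_lhs => rw [← (om K E).sum_repr y]
  apply Finset.sum_congr rfl
  intro k _
  congr 1
  have h : y = ∑ l, (om K E).repr y l • om K E l := ((om K E).sum_repr y).symm
  conv_rhs => rw [h]
  rw [Finset.mul_sum, map_sum, Finset.sum_eq_single k]
  · rw [mul_smul_comm, map_smul, tr_omd_om, if_pos rfl, smul_eq_mul, mul_one]
  · intro l _ hl
    rw [mul_smul_comm, map_smul, tr_omd_om, if_neg hl, smul_zero]
  · intro h
    exact absurd (Finset.mem_univ _) h

theorem emb_trace (y : E) : algebraMap K L (Algebra.trace K E y) = ∑ σ : E →ₐ[K] L, σ y :=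
  trace_eq_sum_embeddings L

theorem orth1 (k l : Fin (finrank K E)) :
    ∑ σ : E →ₐ[K] L, σ (omd K E k) * σ (om K E l) = if l = k then 1 else 0 := by
  have h := emb_trace K E L (omd K E k * om K E l)
  rw [tr_omd_om] at h
  simp only [map_mul] at h
  rw [← h]
  split_ifs <;> simp

theorem orth2 [DecidableEq (E →ₐ[K] L)] (σ τ : E →ₐ[K] L) :
    ∑ k, σ (om K E k) * τ (omd K E k) = if σ = τ then 1 else 0 := by
  have hc : Fintype.card (Fin (finrank K E)) = Fintype.card (E →ₐ[K] L) := by
    rw [Fintype.card_fin, AlgHom.card]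
  let M : Matrix (Fin (finrank K E)) (E →ₐ[K] L) L := fun k σ => σ (omd K E k)
  let M' : Matrix (E →ₐ[K] L) (Fin (finrank K E)) L := fun σ k => σ (om K E k)
  have h1 : M * M' = 1 := by
    ext k l
    rw [Matrix.mul_apply, Matrix.one_apply]
    have := orth1 K E L k l
    simp only [M, M', this]
    by_cases h : l = k
    · rw [if_pos h, if_pos h.symm]
    · rw [if_neg h, if_neg (fun hh => h hh.symm)]
  have h2 : M' * M = 1 := (Matrix.mul_eq_one_comm_of_card_eq _ _ _ hc).1 h1
  have h3 := congrFun (congrFun h2 σ) τ
  rw [Matrix.mul_apply, Matrix.one_apply] at h3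
  exact h3

end Pool.Agent.Helper42.KSOne
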