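import Mathlib
import Pool.Agent.Helper42.KSOne.Defs2
import Pool.Agent.Helper42.KSOne.Emb

/-!
Computations in the Clifford algebra of a trace form over the base field.
-/

namespace Pool.Agent.Helper42.KSOne

open Module

variable {K E : Type} [Field K] [CharZero K] [Field E] [Algebra K E] [FiniteDimensional K E]
  {m : ℕ} (d : Fin m → E)

omit [CharZero K] [FiniteDimensional K E] in
theorem trBil_apply (v w : Fin m → E) :
    trBil K d v w = Algebra.trace K E (∑ i, d i * v i * w i) := rfl

omit [CharZero K] [FiniteDimensional K E] in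
theorem trBil_symm (v w : Fin m → E) : trBil K d v w = trBil K d w v := by
  rw [trBil_apply, trBil_apply]
  exact congrArg _ (Finset.sum_congr rfl fun i _ => by ring)

omit [CharZero K] [FiniteDimensional K E] in
theorem trBil_single (i : Fin m) (a : E) (v : Fin m → E) :
    trBil K d (Pi.single i a) v = Algebra.trace K E (d i * a * v i) := by
  rw [trBil_apply, Finset.sum_eq_single i]
  · rw [Pi.single_eq_same]
  · intro j _ hj
    rw [Pi.single_eq_of_ne hj, mul_zero, zero_mul]
  · intro h
    exact absurd (Finset.mem_univ _) h

omit [CharZero K] [FiniteDimensional K E] in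
theorem inV_anti (v w : Fin m → E) :
    inV K d v * inV K d w + inV K d w * inV K d v =
      algebraMap K (Cl K d) (2 * trBil K d v w) := by
  rw [CliffordAlgebra.ι_mul_ι_add_swap, LinearMap.BilinMap.polar_toQuadraticMap,
    trBil_symm d w v, two_mul]

omit [CharZero K] [FiniteDimensional K E] in
theorem ad_pair (p q v : Fin m → E) :
    (inV K d p * inV K d q) * inV K d v - inV K d v * (inV K d p * inV K d q) =
      (2 * trBil K d q v) • inV K d p - (2 * trBil K d p v) • inV K d q := by
  have h1 := inV_anti (K := K) d q v
  have h2 := inV_anti (K := K) d v p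
  rw [trBil_symm d v p] at h2
  have e1 : inV K d q * inV K d v = algebraMap K (Cl K d) (2 * trBil K d q v) -
      inV K d v * inV K d q := by rw [← h1]; abel
  have e2 : inV K d v * inV K d p = algebraMap K (Cl K d) (2 * trBil K d p v) -
      inV K d p * inV K d v := by rw [← h2]; abel
  rw [mul_assoc, e1, ← mul_assoc (inV K d v), e2, mul_sub, sub_mul,
    Algebra.algebraMap_eq_smul_one, Algebra.algebraMap_eq_smul_one, mul_smul_comm, mul_one,
    smul_mul_assoc, one_mul, ← mul_assoc]
  abel

theorem inV_inj {v w : Fin m → E} (h : inV K d v = inV K d w) : v = w := by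
  rw [← sub_eq_zero, ← map_sub] at h
  rw [← sub_eq_zero]
  set u := v - w with hu
  have : Invertible (2 : K) := invertibleOfNonzero two_ne_zero
  by_contra hne
  have : ∃ φ : Module.Dual K (Fin m → E), φ u ≠ 0 := by
    by_contra hcon
    push Not at hcon
    exact hne ((Module.forall_dual_apply_eq_zero_iff K u).1 hcon)
  obtain ⟨φ, hφ⟩ := this
  have h1 := CliffordAlgebra.contractLeft_ι
    (Q := (LinearMap.BilinMap.toQuadraticMap (trBil K d) : QuadraticForm K (Fin m → E))) φ u
  have h2 : (CliffordAlgebra.ι (LinearMap.BilinMap.toQuadraticMap (trBil K d) :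
    QuadraticForm K (Fin m → E))) u = 0 := h
  rw [h2, map_zero] at h1
  have h3 : φ u = 0 := by
    have := (algebraMap K (Cl K d)).injective
    apply this
    rw [map_zero]
    exact h1.symm
  exact hφ h3

/-- the element `∑ (a ω_k e_i) (ω_k* e_j)` -/
noncomputable def cc (i j : Fin m) (a : E) : Cl K d :=
  ∑ k, inV K d (Pi.single i (a * om K E k)) * inV K d (Pi.single j (omd K E k))

theorem cc_add (i j : Fin m) (a b : E) : cc (K := K) d i j (a + b) = cc d i j a + cc d i j b := by
  unfold cc
  rw [← Finset.sum_add_distrib]
  apply Finset.sum_congr rfl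
  intro k _
  rw [add_mul, Pi.single_add, map_add, add_mul]

theorem cc_smul (i j : Fin m) (c : K) (a : E) : cc (K := K) d i j (c • a) = c • cc d i j a := by
  unfold cc
  rw [Finset.smul_sum]
  apply Finset.sum_congr rfl
  intro k _
  rw [smul_mul_assoc, Pi.single_smul, map_smul, smul_mul_assoc]

/-- the endomorphism of `cc i j a` -/
noncomputable def YY (i j : Fin m) (a : E) : Module.End K (Fin m → E) where
  toFun v := Pi.single i (2 * a * d j * v j) - Pi.single j (2 * a * d i * v i)
  map_add' v w := by
    simp only [Pi.add_apply, mul_add, Pi.single_add]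
    abel
  map_smul' c v := by
    simp only [Pi.smul_apply, RingHom.id_apply, mul_smul_comm, Pi.single_smul, smul_sub]

theorem YY_apply (i j : Fin m) (a : E) (v : Fin m → E) :
    YY (K := K) d i j a v = Pi.single i (2 * a * d j * v j) - Pi.single j (2 * a * d i * v i) :=
  rfl

omit [CharZero K] [FiniteDimensional K E] [Field K] [Algebra K E] in
theorem single_sum {ι : Type} (s : Finset ι) (i : Fin m) (f : ι → E) :
    ∑ k ∈ s, Pi.single (M := fun _ => E) i (f k) = Pi.single i (∑ k ∈ s, f k) := by
  ext j
  rw [Finset.sum_apply]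
  by_cases h : j = i
  · subst h; simp
  · simp [Pi.single_eq_of_ne h]

theorem ad_cc (i j : Fin m) (a : E) (v : Fin m → E) :
    cc (K := K) d i j a * inV K d v - inV K d v * cc (K := K) d i j a =
      inV K d (YY (K := K) d i j a v) := by
  unfold cc
  rw [Finset.sum_mul, Finset.mul_sum, ← Finset.sum_sub_distrib]
  have h1 : ∀ k, inV K d (Pi.single i (a * om K E k)) * inV K d (Pi.single j (omd K E k)) *
      inV K d v - inV K d v * (inV K d (Pi.single i (a * om K E k)) *
        inV K d (Pi.single j (omd K E k))) =
      inV K d (Pi.single i (a * (2 * (Algebra.trace K E (omd K E k * (d j * v j))) • om K E k))) -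
      inV K d (Pi.single j (2 * (Algebra.trace K E (om K E k * (a * d i * v i))) •
        omd K E k)) := by
    intro k
    rw [ad_pair, trBil_single, trBil_single]
    have e1 : d j * omd K E k * v j = omd K E k * (d j * v j) := by ring
    have e2 : d i * (a * om K E k) * v i = om K E k * (a * d i * v i) := by ring
    rw [e1, e2]
    have e3 : a * (2 * (Algebra.trace K E (omd K E k * (d j * v j))) • om K E k) =
        (2 * (Algebra.trace K E (omd K E k * (d j * v j)))) • (a * om K E k) := by
      generalize Algebra.trace K E (omd K E k * (d j * v j)) = t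
      rw [Algebra.smul_def, Algebra.smul_def, map_mul, map_ofNat]
      ring
    have e4 : 2 * (Algebra.trace K E (om K E k * (a * d i * v i))) • omd K E k =
        (2 * (Algebra.trace K E (om K E k * (a * d i * v i)))) • omd K E k := by
      generalize Algebra.trace K E (om K E k * (a * d i * v i)) = t
      rw [Algebra.smul_def, Algebra.smul_def, map_mul, map_ofNat]
      ring
    rw [e3, e4, Pi.single_smul, Pi.single_smul, map_smul, map_smul]
  simp only [h1]
  rw [Finset.sum_sub_distrib, ← map_sum, ← map_sum, YY_apply, map_sub]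
  have e5 : ∑ k, Pi.single (M := fun _ => E) i
      (a * (2 * (Algebra.trace K E (omd K E k * (d j * v j))) • om K E k)) =
      Pi.single i (2 * a * d j * v j) := by
    rw [single_sum, ← Finset.mul_sum, ← Finset.mul_sum, ← expand_om K E]
    congr 1
    ring
  have e6 : ∑ k, Pi.single (M := fun _ => E) j
      (2 * (Algebra.trace K E (om K E k * (a * d i * v i))) • omd K E k) =
      Pi.single j (2 * a * d i * v i) := by
    rw [single_sum, ← Finset.mul_sum, ← expand_omd K E]
    congr 1
    ring
  rw [e5, e6]

theorem cc_biv {i j : Fin m} (hij : i ≠ j) (a : E) : cc (K := K) d i j a ∈ bivectors K d := by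
  unfold cc
  apply Submodule.sum_mem
  intro k _
  have h1 := inV_anti (K := K) d (Pi.single i (a * om K E k)) (Pi.single j (omd K E k))
  rw [trBil_single, Pi.single_eq_of_ne hij, mul_zero, map_zero, mul_zero, map_zero] at h1
  have h2 : inV K d (Pi.single i (a * om K E k)) * inV K d (Pi.single j (omd K E k)) =
      (2 : K)⁻¹ • (inV K d (Pi.single i (a * om K E k)) * inV K d (Pi.single j (omd K E k)) -
        inV K d (Pi.single j (omd K E k)) * inV K d (Pi.single i (a * om K E k))) := by
    rw [eq_neg_of_add_eq_zero_right h1, sub_neg_eq_add, ← two_smul K, smul_smul,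
      inv_mul_cancel₀ two_ne_zero, one_smul]
  rw [h2]
  exact Submodule.smul_mem _ _ (Submodule.subset_span ⟨_, _, rfl⟩)

theorem isHodge_cc {i j : Fin m} (hij : i ≠ j) (a : E) :
    IsHodge K d (YY (K := K) d i j a, cc (K := K) d i j a) := by
  refine ⟨?_, cc_biv d hij a, fun v => ad_cc d i j a v⟩
  intro b v
  simp only [YY_apply, Pi.smul_apply, smul_eq_mul, smul_sub]
  rw [← Pi.single_smul, ← Pi.single_smul]
  simp only [smul_eq_mul]
  congr 2 <;> ring

end Pool.Agent.Helper42.KSOne
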