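import Mathlib
import Pool.Agent.Helper42.KSOne.Defs2
import Pool.Agent.Helper42.KSOne.Emb
import Pool.Agent.Helper42.KSOne.Gen
import Pool.Agent.Helper42.KSOne.Block

/-!
Extension of scalars: the Clifford algebra of a trace form over an algebraically closed field.
-/

namespace Pool.Agent.Helper42.KSOne

open Module TensorProduct

section general

variable {K L C : Type} [Field K] [Field L] [Algebra K L] [Ring C] [Algebra K C]

/-- the inclusion in the extension of scalars -/
noncomputable def inc : C →ₐ[K] (L ⊗[K] C) := Algebra.TensorProduct.includeRight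

/-- the map induced by a functional on `L` -/
noncomputable def rr (φ : L →ₗ[K] K) : (L ⊗[K] C) →ₗ[K] C :=
  (TensorProduct.lid K C).toLinearMap ∘ₗ (LinearMap.rTensor C φ)

theorem rr_tmul (φ : L →ₗ[K] K) (a : L) (u : C) : rr φ (a ⊗ₜ[K] u) = φ a • u := by
  simp [rr]

theorem inc_apply (u : C) : (inc u : L ⊗[K] C) = 1 ⊗ₜ[K] u := rfl

theorem rr_inc (φ : L →ₗ[K] K) (u : C) : rr φ (inc u : L ⊗[K] C) = φ 1 • u := by
  rw [inc_apply, rr_tmul]

theorem rr_inc_mul (φ : L →ₗ[K] K) (u : C) (a : L ⊗[K] C) : rr φ (inc u * a) = u * rr φ a := by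
  induction a using TensorProduct.induction_on with
  | zero => rw [mul_zero, map_zero, mul_zero]
  | tmul l w =>
    rw [inc_apply, Algebra.TensorProduct.tmul_mul_tmul, rr_tmul, rr_tmul, one_mul, mul_smul_comm]
  | add a b ha hb => rw [mul_add, map_add, map_add, mul_add, ha, hb]

theorem rr_smul (φ : L →ₗ[K] K) (c : L) (a : L ⊗[K] C) :
    rr φ (c • a) = rr (φ ∘ₗ (LinearMap.mulLeft K c)) a := by
  induction a using TensorProduct.induction_on with
  | zero => rw [smul_zero, map_zero, map_zero]
  | tmul l w =>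
    rw [TensorProduct.smul_tmul', rr_tmul, rr_tmul]
    rfl
  | add a b ha hb => rw [smul_add, map_add, map_add, ha, hb]

theorem rr_sep (a : L ⊗[K] C) (h : ∀ φ : L →ₗ[K] K, rr φ a = 0) : a = 0 := by
  classical
  let b := Basis.ofVectorSpace K L
  have key : ∀ (a : L ⊗[K] C) i, TensorProduct.equivFinsuppOfBasisLeft b a i =
      rr (b.coord i) a := by
    intro a i
    induction a using TensorProduct.induction_on with
    | zero => rw [map_zero, map_zero]; rfl
    | tmul l w =>
      rw [TensorProduct.equivFinsuppOfBasisLeft_apply_tmul_apply, rr_tmul]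
      rfl
    | add a b ha hb => rw [map_add, map_add, Finsupp.add_apply, ha, hb]
  have : TensorProduct.equivFinsuppOfBasisLeft b a = 0 := by
    ext i
    rw [key, h]
    rfl
  exact (LinearEquiv.map_eq_zero_iff _).1 this

theorem exists_functional_one : ∃ φ : L →ₗ[K] K, φ 1 = 1 := by
  obtain ⟨φ, hφ⟩ : ∃ φ : L →ₗ[K] K, φ 1 ≠ 0 := by
    by_contra hcon
    push Not at hcon
    exact one_ne_zero ((Module.forall_dual_apply_eq_zero_iff K (1 : L)).1 hcon)
  exact ⟨(φ 1)⁻¹ • φ, by simp [hφ]⟩

theorem inc_injective : Function.Injective (inc : C →ₐ[K] (L ⊗[K] C)) := by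
  intro u v h
  obtain ⟨φ, hφ⟩ := exists_functional_one (K := K) (L := L)
  have := congrArg (rr φ) h
  rwa [rr_inc, rr_inc, hφ, one_smul, one_smul] at this

theorem alg_smul (c : K) (a : L ⊗[K] C) : (algebraMap K L c) • a = c • a :=
  algebraMap_smul L c a

end general

section clifford

variable {K E L : Type} [Field K] [CharZero K] [Field E] [Algebra K E] [FiniteDimensional K E]
  [Field L] [Algebra K L] [IsAlgClosed L] {m : ℕ} (d : Fin m → E)

/-- the orthogonal basis over `L` -/
noncomputable def xx (σ : E →ₐ[K] L) (i : Fin m) : L ⊗[K] Cl K d :=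
  ∑ k, σ (omd K E k) • inc (inV K d (Pi.single i (om K E k)))

theorem inc_single (i : Fin m) (v : E) :
    (inc (inV K d (Pi.single i v)) : L ⊗[K] Cl K d) = ∑ σ : E →ₐ[K] L, σ v • xx d σ i := by
  have h1 : ∀ σ : E →ₐ[K] L, σ v • xx d σ i =
      ∑ k, (σ (omd K E k * v)) • (inc (inV K d (Pi.single i (om K E k))) : L ⊗[K] Cl K d) := by
    intro σ
    rw [xx, Finset.smul_sum]
    apply Finset.sum_congr rfl
    intro k _
    rw [smul_smul, map_mul, mul_comm]
  simp only [h1]
  rw [Finset.sum_comm]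
  have h2 : ∀ k, ∑ σ : E →ₐ[K] L, (σ (omd K E k * v)) •
      (inc (inV K d (Pi.single i (om K E k))) : L ⊗[K] Cl K d) =
      inc (inV K d (Pi.single i (Algebra.trace K E (omd K E k * v) • om K E k))) := by
    intro k
    rw [← Finset.sum_smul, ← emb_trace, alg_smul, Pi.single_smul, map_smul, map_smul]
  simp only [h2]
  rw [← map_sum, ← map_sum, single_sum, ← expand_om K E v]

theorem inc_inV (v : Fin m → E) :
    (inc (inV K d v) : L ⊗[K] Cl K d) = ∑ σ : E →ₐ[K] L, ∑ i, σ (v i) • xx d σ i := by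
  have h : v = ∑ i, Pi.single i (v i) := (Finset.univ_sum_single v).symm
  conv_lhs => rw [h]
  rw [map_sum, map_sum, Finset.sum_comm]
  exact Finset.sum_congr rfl fun i _ => inc_single d i (v i)

theorem xx_rel [DecidableEq (E →ₐ[K] L)] (σ τ : E →ₐ[K] L) (i j : Fin m) :
    xx d σ i * xx d τ j + xx d τ j * xx d σ i =
      algebraMap L (L ⊗[K] Cl K d) (if σ = τ ∧ i = j then 2 * σ (d i) else 0) := by
  have e : ∀ k l, (σ (omd K E k) • inc (inV K d (Pi.single i (om K E k)))) *
      (τ (omd K E l) • inc (inV K d (Pi.single j (om K E l)))) +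
      (τ (omd K E l) • inc (inV K d (Pi.single j (om K E l)))) *
      (σ (omd K E k) • inc (inV K d (Pi.single i (om K E k)))) =
      algebraMap L (L ⊗[K] Cl K d) (σ (omd K E k) * τ (omd K E l) *
        (if i = j then 2 * ∑ ρ : E →ₐ[K] L, ρ (d i) * ρ (om K E k) * ρ (om K E l) else 0)) := by
    intro k l
    have hh : ∀ p q : Cl K d, (inc p : L ⊗[K] Cl K d) * inc q + inc q * inc p =
        inc (p * q + q * p) := fun p q => by rw [map_add, map_mul, map_mul]
    rw [smul_mul_smul_comm, smul_mul_smul_comm, mul_comm (τ (omd K E l)), ← smul_add, hh,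
      inV_anti, trBil_single]
    have h1 : (inc ((algebraMap K (Cl K d)) (2 * (Algebra.trace K E)
        (d i * om K E k * Pi.single (M := fun _ => E) j (om K E l) i))) : L ⊗[K] Cl K d) =
        algebraMap L (L ⊗[K] Cl K d) (algebraMap K L (2 * (Algebra.trace K E)
        (d i * om K E k * Pi.single (M := fun _ => E) j (om K E l) i))) := by
      rw [AlgHom.commutes]
      rfl
    rw [h1, Algebra.smul_def, ← map_mul]
    congr 2
    rw [map_mul, map_ofNat]
    by_cases hij : i = j
    · subst hij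
      rw [Pi.single_eq_same, if_pos rfl, emb_trace]
      simp only [map_mul]
    · rw [Pi.single_eq_of_ne hij, if_neg hij, mul_zero, map_zero, map_zero, mul_zero]
  unfold xx
  rw [Finset.sum_mul_sum, Finset.sum_mul_sum]
  rw [Finset.sum_comm (f := fun k l => τ (omd K E k) • inc (inV K d (Pi.single j (om K E k))) *
    σ (omd K E l) • inc (inV K d (Pi.single i (om K E l))))]
  rw [← Finset.sum_add_distrib]
  simp only [← Finset.sum_add_distrib, e]
  simp only [← map_sum]
  congr 1
  by_cases hij : i = j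
  · subst hij
    simp only [if_true, and_true]
    have h2 : ∀ k l, σ (omd K E k) * τ (omd K E l) *
        (2 * ∑ ρ : E →ₐ[K] L, ρ (d i) * ρ (om K E k) * ρ (om K E l)) =
        ∑ ρ : E →ₐ[K] L, 2 * ρ (d i) * (ρ (om K E k) * σ (omd K E k)) *
          (ρ (om K E l) * τ (omd K E l)) := by
      intro k l
      rw [Finset.mul_sum, Finset.mul_sum]
      exact Finset.sum_congr rfl fun ρ _ => by ring
    simp only [h2]
    have h3 : ∀ k, ∑ l, ∑ ρ : E →ₐ[K] L, 2 * ρ (d i) * (ρ (om K E k) * σ (omd K E k)) *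
          (ρ (om K E l) * τ (omd K E l)) = ∑ ρ : E →ₐ[K] L,
          2 * ρ (d i) * (ρ (om K E k) * σ (omd K E k)) * (if ρ = τ then 1 else 0) := by
      intro k
      rw [Finset.sum_comm]
      apply Finset.sum_congr rfl
      intro ρ _
      rw [← Finset.mul_sum, orth2]
    simp only [h3]
    rw [Finset.sum_comm]
    have h4 : ∀ ρ : E →ₐ[K] L, ∑ k, 2 * ρ (d i) * (ρ (om K E k) * σ (omd K E k)) *
        (if ρ = τ then 1 else 0) = 2 * ρ (d i) * (if ρ = σ then 1 else 0) *
        (if ρ = τ then 1 else 0) := by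
      intro ρ
      rw [← Finset.sum_mul, ← Finset.mul_sum, orth2]
    simp only [h4]
    rw [Finset.sum_eq_single σ]
    · rw [if_pos rfl, mul_one]
      split_ifs <;> simp
    · intro ρ _ hρ
      rw [if_neg hρ, mul_zero, zero_mul]
    · intro h
      exact absurd (Finset.mem_univ _) h
  · simp [hij]

theorem inc_cc {i j : Fin m} (a : E) :
    (inc (cc (K := K) d i j a) : L ⊗[K] Cl K d) =
      ∑ σ : E →ₐ[K] L, σ a • (xx d σ i * xx d σ j) := by
  classical
  unfold cc
  rw [map_sum]
  have h1 : ∀ k, (inc (inV K d (Pi.single i (a * om K E k)) *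
      inV K d (Pi.single j (omd K E k))) : L ⊗[K] Cl K d) =
      ∑ σ : E →ₐ[K] L, ∑ τ : E →ₐ[K] L, (σ a * (σ (om K E k) * τ (omd K E k))) •
        (xx d σ i * xx d τ j) := by
    intro k
    rw [map_mul, inc_single, inc_single, Finset.sum_mul_sum]
    apply Finset.sum_congr rfl
    intro σ _
    apply Finset.sum_congr rfl
    intro τ _
    rw [smul_mul_smul_comm, map_mul, mul_assoc]
  simp only [h1]
  rw [Finset.sum_comm]
  apply Finset.sum_congr rfl
  intro σ _
  rw [Finset.sum_comm]
  have h2 : ∀ τ : E →ₐ[K] L, ∑ k, (σ a * (σ (om K E k) * τ (omd K E k))) •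
        (xx d σ i * xx d τ j) = (σ a * (if σ = τ then 1 else 0)) • (xx d σ i * xx d τ j) := by
    intro τ
    rw [← Finset.sum_smul, ← Finset.mul_sum, orth2]
  simp only [h2]
  rw [Finset.sum_eq_single σ]
  · rw [if_pos rfl, mul_one]
  · intro τ _ hτ
    rw [if_neg (Ne.symm hτ), mul_zero, zero_smul]
  · intro h
    exact absurd (Finset.mem_univ _) h

theorem xx_mul (σ : E →ₐ[K] L) (i j : Fin m) :
    xx d σ i * xx d σ j = ∑ k, σ (omd K E k) • (inc (cc (K := K) d i j (om K E k)) :
      L ⊗[K] Cl K d) := by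
  classical
  have h1 : ∀ k, σ (omd K E k) • (inc (cc (K := K) d i j (om K E k)) : L ⊗[K] Cl K d) =
      ∑ τ : E →ₐ[K] L, (τ (om K E k) * σ (omd K E k)) • (xx d τ i * xx d τ j) := by
    intro k
    rw [inc_cc, Finset.smul_sum]
    apply Finset.sum_congr rfl
    intro τ _
    rw [smul_smul, mul_comm]
  simp only [h1]
  rw [Finset.sum_comm]
  have h2 : ∀ τ : E →ₐ[K] L, ∑ k, (τ (om K E k) * σ (omd K E k)) • (xx d τ i * xx d τ j) =
      (if τ = σ then (1 : L) else 0) • (xx d τ i * xx d τ j) := by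
    intro τ
    rw [← Finset.sum_smul, orth2]
  simp only [h2]
  rw [Finset.sum_eq_single σ]
  · rw [if_pos rfl, one_smul]
  · intro τ _ hτ
    rw [if_neg hτ, zero_smul]
  · intro h
    exact absurd (Finset.mem_univ _) h

end clifford

end Pool.Agent.Helper42.KSOne
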