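import Mathlib
import Pool.Agent.Helper42.KSOne.Mono
import Pool.Agent.Helper42.KSOne.Comb
import Pool.Agent.Helper42.KSOne.Block

/-!
Filtering of combinations of monomials by operators which are diagonal on monomials.
-/

namespace Pool.Agent.Helper42.KSOne

variable {F A : Type*} [Field F] [CharZero F] [Ring A] [Algebra F A] {N : ℕ}
  {x : Fin N → A} {D : Fin N → F}

open Classical in
theorem filt (S : A →ₗ[F] A) (s : Finset (Fin N) → F) (hs : ∀ I, S (mono x I) = s I • mono x I)
    (hs1 : ∀ I, s I = 1 ∨ s I = -1) (f : Finset (Fin N) → F) (h : S (Phi x f) = Phi x f) :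
    Phi x f = Phi x (fun I => if s I = 1 then f I else 0) := by
  have h1 : Phi x f = (2 : F)⁻¹ • (Phi x f + S (Phi x f)) := by
    rw [h, ← two_smul F, smul_smul, inv_mul_cancel₀ two_ne_zero, one_smul]
  conv_lhs => rw [h1]
  unfold Phi
  rw [map_sum, ← Finset.sum_add_distrib, Finset.smul_sum]
  apply Finset.sum_congr rfl
  intro I _
  rw [map_smul, hs, smul_smul, ← add_smul, smul_smul]
  rcases hs1 I with h2 | h2
  · beta_reduce
    rw [if_pos h2, h2, mul_one]
    congr 1
    rw [← two_mul, ← mul_assoc, inv_mul_cancel₀ two_ne_zero, one_mul]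
  · have h3 : (-1 : F) ≠ 1 := by
      intro h
      have : (2 : F) = 0 := by linear_combination -h
      exact two_ne_zero this
    have h4 : ¬ s I = 1 := by rw [h2]; exact h3
    beta_reduce
    rw [if_neg h4, h2, mul_neg, mul_one, add_neg_cancel, mul_zero, zero_smul]
    try rw [zero_smul]

open Classical in
theorem filtAll {T : Type*} (R : Finset T) (S : T → A →ₗ[F] A)
    (s : T → Finset (Fin N) → F)
    (hs : ∀ t I, S t (mono x I) = s t I • mono x I) (hs1 : ∀ t I, s t I = 1 ∨ s t I = -1)
    (f : Finset (Fin N) → F) (h : ∀ t ∈ R, S t (Phi x f) = Phi x f) :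
    Phi x f = Phi x (fun I => if ∀ t ∈ R, s t I = 1 then f I else 0) := by
  induction R using Finset.induction_on with
  | empty => simp
  | insert t R ht ih =>
    have h1 := ih (fun a ha => h a (Finset.mem_insert_of_mem ha))
    have h2 := h t (Finset.mem_insert_self t R)
    rw [h1] at h2
    have h3 := filt (S t) (s t) (hs t) (hs1 t) _ h2
    rw [h1, h3]
    congr 1
    funext I
    by_cases h4 : s t I = 1
    · simp only [Finset.forall_mem_insert, h4, true_and, if_true]
    · simp only [Finset.forall_mem_insert, h4, false_and, if_false]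

omit [CharZero F] in
theorem span_to_Phi (P : Finset (Fin N) → Prop) (u : A)
    (hu : u ∈ Submodule.span F {u | ∃ J, P J ∧ u = mono x J}) :
    ∃ f : Finset (Fin N) → F, (∀ I, f I ≠ 0 → P I) ∧ u = Phi x f := by
  classical
  induction hu using Submodule.span_induction with
  | mem u hu =>
    obtain ⟨J, hJ, rfl⟩ := hu
    refine ⟨fun I => if I = J then 1 else 0, ?_, ?_⟩
    · intro I hI
      by_contra hP
      apply hI
      simp only
      rw [if_neg]
      rintro rfl
      exact hP hJ
    · unfold Phi
      rw [Finset.sum_eq_single J]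
      · simp
      · intro I _ hI
        simp [hI]
      · intro h
        exact absurd (Finset.mem_univ _) h
  | zero => exact ⟨fun _ => 0, fun I hI => absurd rfl hI, by simp [Phi]⟩
  | add u v _ _ hu hv =>
    obtain ⟨f, hf, rfl⟩ := hu
    obtain ⟨g, hg, rfl⟩ := hv
    refine ⟨fun I => f I + g I, ?_, ?_⟩
    · intro I hI
      by_cases h : f I = 0
      · apply hg
        intro h'
        apply hI
        simp only [h, h', add_zero]
      · exact hf I h
    · unfold Phi
      rw [← Finset.sum_add_distrib]
      exact Finset.sum_congr rfl fun I _ => (add_smul _ _ _).symm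
  | smul c u _ hu =>
    obtain ⟨f, hf, rfl⟩ := hu
    refine ⟨fun I => c * f I, ?_, ?_⟩
    · intro I hI
      apply hf
      intro h
      apply hI
      simp only [h, mul_zero]
    · unfold Phi
      rw [Finset.smul_sum]
      exact Finset.sum_congr rfl fun I _ => smul_smul _ _ _

omit [CharZero F] in
/-- commutation with a monomial of odd degree -/
theorem mono_conj (h : IsGen x D) (B I : Finset (Fin N)) (hB : Odd B.card) :
    mono x B * mono x I = ((-1 : F) ^ (I \ B).card) • (mono x I * mono x B) := by
  rw [comm_mono (F := F) x (mono x B) (fun k => (-1) ^ (B.erase k).card) I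
    (fun k _ => mono_mul_x h k B)]
  congr 1
  have h1 : ∀ k ∈ I, ((-1 : F) ^ (B.erase k).card) = if k ∈ I \ B then -1 else 1 := by
    intro k hk
    by_cases hkB : k ∈ B
    · rw [if_neg (by simp [hkB]), Finset.card_erase_of_mem hkB]
      have : Even (B.card - 1) := by
        obtain ⟨r, hr⟩ := hB
        exact ⟨r, by omega⟩
      exact this.neg_one_pow
    · rw [if_pos (by simp [hkB, hk]), Finset.erase_eq_of_notMem hkB]
      exact hB.neg_one_pow
  rw [Finset.prod_congr rfl h1, Finset.prod_ite_mem, Finset.prod_const]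
  congr 1
  congr 1
  ext a
  simp

omit [CharZero F] in
/-- the square of a monomial -/
theorem mono_sq (h : IsGen x D) (B : Finset (Fin N)) :
    ∃ c : F, c ≠ 0 ∧ mono x B * mono x B = c • (1 : A) := by
  obtain ⟨c, hc, e⟩ := mono_mul h B B
  refine ⟨c, hc, ?_⟩
  rw [e, symmDiff_self]
  congr 1
  exact mono_empty x

/-- conjugation by an element whose square is a scalar -/
def conjL (y : A) (c : F) : A →ₗ[F] A :=
  c⁻¹ • (LinearMap.mulRight F y ∘ₗ LinearMap.mulLeft F y)

omit [CharZero F] in
theorem conjL_apply (y : A) (c : F) (a : A) : conjL y c a = c⁻¹ • ((y * a) * y) := rfl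

omit [CharZero F] in
theorem conjL_of_comm {y : A} {c : F} (hc : c ≠ 0) (hy : y * y = c • (1 : A)) {a : A} {s : F}
    (h : y * a = s • (a * y)) : conjL y c a = s • a := by
  rw [conjL_apply, h, smul_mul_assoc, mul_assoc, hy, mul_smul_comm, mul_one, smul_smul, smul_smul]
  congr 1
  field_simp

theorem neg_one_pow_cases (n : ℕ) : ((-1 : F) ^ n = 1 ∨ (-1 : F) ^ n = -1) :=
  neg_one_pow_eq_or F n

theorem neg_one_pow_eq_one {n : ℕ} (h : (-1 : F) ^ n = 1) : Even n := by
  by_contra hn
  rw [Nat.not_even_iff_odd] at hn
  rw [hn.neg_one_pow] at h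
  have : (2 : F) = 0 := by linear_combination -h
  exact two_ne_zero this

/-- a combination of pairs commuting with all generators is zero -/
theorem pairs_central (h : IsGen x D) (f : Finset (Fin N) → F) (hf : ∀ I, f I ≠ 0 → I.card = 2)
    (hc : ∀ k, x k * Phi x f = Phi x f * x k) : Phi x f = 0 := by
  classical
  have hsq : ∀ k, x k * x k = D k • (1 : A) := fun k => by
    rw [h.sq, Algebra.algebraMap_eq_smul_one]
  have h1 := filtAll (x := x) Finset.univ (fun k => conjL (x k) (D k))
    (fun k I => (-1 : F) ^ (I.erase k).card)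
    (fun k I => conjL_of_comm (h.ne k) (hsq k) (x_mul_mono h k I))
    (fun k I => neg_one_pow_cases _) f
    (fun k _ => by
      have := conjL_of_comm (h.ne k) (hsq k) (a := Phi x f) (s := 1) (by rw [hc k, one_smul])
      rwa [one_smul] at this)
  rw [h1]
  unfold Phi
  apply Finset.sum_eq_zero
  intro I _
  by_cases hI : f I = 0
  · simp only [hI, ite_self, zero_smul]
  · have hI2 := hf I hI
    simp only
    rw [if_neg, zero_smul]
    intro hall
    obtain ⟨k, hk⟩ : I.Nonempty := Finset.card_pos.1 (by omega)
    have h2 := hall k (Finset.mem_univ _)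
    rw [Finset.card_erase_of_mem hk, hI2] at h2
    have := neg_one_pow_eq_one h2
    exact absurd this (by decide)

end Pool.Agent.Helper42.KSOne
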