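import Mathlib
import Pool.Agent.Helper9.KSMDefs

/-!
The orthogonal Lie algebra of a diagonal form in `n ≥ 3`, `n ≠ 4` variables over a field of
characteristic zero is simple (elementary proof by the operators `ad(R_ij)²`).
-/

namespace Pool.Agent.Helper42.KSOne

open Pool.Agent.Helper9.KSM

variable {K : Type} [Field K] {n : ℕ}

/-- the coordinate rotation, entrywise -/
private def R (d : Fin n → K) (i j : Fin n) : Mat n K :=
  rot d (Pi.single i 1) (Pi.single j 1)

private theorem R_apply (d : Fin n → K) (i j k l : Fin n) :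
    R d i j k l = ((if k = i then 1 else 0) * (if l = j then 1 else 0) -
      (if k = j then 1 else 0) * (if l = i then 1 else 0)) * d l := by
  simp only [R, rot, Matrix.of_apply, Pi.single_apply]

/-- `(R_ij Y)_{kl}` -/
private theorem R_mul (d : Fin n → K) (i j : Fin n) (Y : Mat n K) (k l : Fin n) :
    (R d i j * Y) k l = (if k = i then d j * Y j l else 0) - (if k = j then d i * Y i l else 0) := by
  rw [Matrix.mul_apply]
  simp only [R_apply]
  have h : ∀ p, ((if k = i then (1 : K) else 0) * (if p = j then 1 else 0) -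
      (if k = j then 1 else 0) * (if p = i then 1 else 0)) * d p * Y p l =
      (if p = j then (if k = i then d p * Y p l else 0) else 0) -
        (if p = i then (if k = j then d p * Y p l else 0) else 0) := by
    intro p
    split_ifs <;> ring
  simp only [h, Finset.sum_sub_distrib, Finset.sum_ite_eq', Finset.mem_univ, if_true]

private theorem mul_R (d : Fin n → K) (i j : Fin n) (Y : Mat n K) (k l : Fin n) :
    (Y * R d i j) k l = (if l = j then Y k i * d j else 0) - (if l = i then Y k j * d i else 0) := by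
  rw [Matrix.mul_apply]
  simp only [R_apply]
  have h : ∀ p, Y k p * (((if p = i then (1 : K) else 0) * (if l = j then 1 else 0) -
      (if p = j then 1 else 0) * (if l = i then 1 else 0)) * d l) =
      (if p = i then (if l = j then Y k p * d l else 0) else 0) -
        (if p = j then (if l = i then Y k p * d l else 0) else 0) := by
    intro p
    split_ifs <;> ring
  simp only [h, Finset.sum_sub_distrib, Finset.sum_ite_eq', Finset.mem_univ, if_true]
  split_ifs <;> simp_all

private def br (A B : Mat n K) : Mat n K := A * B - B * A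

private theorem br_apply (d : Fin n → K) (i j : Fin n) (Y : Mat n K) (k l : Fin n) :
    br (R d i j) Y k l = (if k = i then d j * Y j l else 0) - (if k = j then d i * Y i l else 0)
      - (if l = j then Y k i * d j else 0) + (if l = i then Y k j * d i else 0) := by
  simp only [br, Matrix.sub_apply, R_mul, mul_R]
  ring

/-- entries of `ad(R_ij)² Y` for skew `Y` -/
private theorem br_br_apply {d : Fin n → K} {i j : Fin n} (hij : i ≠ j) {Y : Mat n K}
    (hY : IsSkew d Y) (k l : Fin n) (hkl : k ≠ l) :
    br (R d i j) (br (R d i j) Y) k l =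
      if ((k = i ∨ k = j) ↔ (l = i ∨ l = j)) then 0 else - (d i * d j) * Y k l := by
  have hij' : j ≠ i := fun h => hij h.symm
  have hlk : l ≠ k := fun h => hkl h.symm
  have e1 := hY i j
  have e2 := hY j i
  have e3 := hY i i
  have e4 := hY j j
  by_cases h1 : k = i
  · subst h1
    by_cases h2 : l = k
    · exact absurd h2.symm hkl
    · by_cases h3 : l = j
      · subst h3
        simp only [br_apply, if_true, if_neg hij, if_neg hij', or_true, true_or]
        linear_combination (-(2 * d l)) * e1
      · simp only [br_apply, if_true, if_neg hij, if_neg hij', if_neg h2, if_neg h3, or_false,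
          true_or, h2, h3, true_iff, if_false]
        ring
  · by_cases h2 : k = j
    · subst h2
      by_cases h3 : l = i
      · subst h3
        simp only [br_apply, if_true, if_neg hij, if_neg hij', or_true, true_or]
        linear_combination (-(2 * d l)) * e1
      · simp only [br_apply, if_true, if_neg hij, if_neg hij', if_neg h3, if_neg hlk, or_false,
          or_true, h3, hlk, true_iff, if_false]
        ring
    · by_cases h3 : l = i
      · subst h3
        simp only [br_apply, if_true, if_neg hij, if_neg hij', if_neg h1, if_neg h2, or_false,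
          true_or, h1, h2, false_iff, not_true, if_false]
        ring
      · by_cases h4 : l = j
        · subst h4
          simp only [br_apply, if_true, if_neg hij, if_neg hij', if_neg h1, if_neg h2, if_neg h3,
            or_true, h1, h2, h3, or_false, false_iff, not_true, if_false]
          ring
        · simp [br_apply, h1, h2, h3, h4]

private theorem R_skew (d : Fin n → K) (i j : Fin n) : IsSkew d (R d i j) := by
  intro k l
  simp only [R_apply]
  by_cases h1 : k = i <;> by_cases h2 : l = j <;> by_cases h3 : k = j <;> by_cases h4 : l = i <;>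
    simp_all <;> ring

private theorem br_skew {d : Fin n → K} {A B : Mat n K} (hA : IsSkew d A) (hB : IsSkew d B) :
    IsSkew d (br A B) := by
  intro i j
  simp only [br, Matrix.sub_apply, Matrix.mul_apply]
  rw [← Finset.sum_sub_distrib, ← Finset.sum_sub_distrib, Finset.mul_sum, Finset.mul_sum,
    ← Finset.sum_add_distrib]
  apply Finset.sum_eq_zero
  intro k _
  have h1 := hA i k
  have h2 := hB i k
  have h3 := hA j k
  have h4 := hB j k
  linear_combination B k j * h1 - A k j * h2 + B k i * h3 - A k i * h4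

private theorem diag_zero [CharZero K] {d : Fin n → K} (hd : ∀ i, d i ≠ 0) {Y : Mat n K}
    (hY : IsSkew d Y) (i : Fin n) : Y i i = 0 := by
  have h := hY i i
  have h2 : 2 * d i * Y i i = 0 := by linear_combination h
  have h3 : (2 : K) * d i ≠ 0 := mul_ne_zero two_ne_zero (hd i)
  exact (mul_eq_zero.1 h2).resolve_left h3

private theorem skew_ext [CharZero K] {d : Fin n → K} (hd : ∀ i, d i ≠ 0) {Y Z : Mat n K}
    (hY : IsSkew d Y) (hZ : IsSkew d Z) (h : ∀ k l, k ≠ l → Y k l = Z k l) : Y = Z := by
  ext k l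
  by_cases hkl : k = l
  · subst hkl
    rw [diag_zero hd hY, diag_zero hd hZ]
  · exact h k l hkl

private theorem smul_skew {d : Fin n → K} {Y : Mat n K} (c : K) (hY : IsSkew d Y) :
    IsSkew d (c • Y) := by
  intro i j
  have h := hY i j
  simp only [Matrix.smul_apply, smul_eq_mul]
  linear_combination c * h

private theorem iff5 {α : Type} {p q r s t k l : α} (hpq : p ≠ q) (hpr : p ≠ r) (hps : p ≠ s)
    (hpt : p ≠ t) (hqr : q ≠ r) (hqs : q ≠ s) (hqt : q ≠ t) (hrs : r ≠ s) (hrt : r ≠ t)
    (hst : s ≠ t) (hkl : k ≠ l) :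
    (¬ ((k = p ∨ k = t) ↔ (l = p ∨ l = t)) ∧ ¬ ((k = p ∨ k = s) ↔ (l = p ∨ l = s)) ∧
      ¬ ((k = q ∨ k = s) ↔ (l = q ∨ l = s)) ∧ ¬ ((k = p ∨ k = r) ↔ (l = p ∨ l = r))) ↔
    ((k = p ∧ l = q) ∨ (k = q ∧ l = p)) := by
  grind

private theorem iff3 {α : Type} {p q r k l : α} (hpq : p ≠ q) (hpr : p ≠ r)
    (hqr : q ≠ r) (hk : k = p ∨ k = q ∨ k = r) (hl : l = p ∨ l = q ∨ l = r) (hkl : k ≠ l) :
    (¬ ((k = p ∨ k = r) ↔ (l = p ∨ l = r)) ∧ ¬ ((k = q ∨ k = r) ↔ (l = q ∨ l = r))) ↔
    ((k = p ∧ l = q) ∨ (k = q ∧ l = p)) := by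
  grind

private theorem card_lt {s : Finset (Fin n)} (h : s.card < n) : ∃ r, r ∉ s := by
  by_contra h'
  push Not at h'
  have h1 : (Finset.univ : Finset (Fin n)) ⊆ s := fun x _ => h' x
  have h2 := Finset.card_le_card h1
  rw [Finset.card_univ, Fintype.card_fin] at h2
  omega

private theorem all3 (hn : n = 3) {p q r : Fin n} (hpq : p ≠ q) (hpr : p ≠ r) (hqr : q ≠ r)
    (k : Fin n) : k = p ∨ k = q ∨ k = r := by
  subst hn
  revert p q r k
  decide

section ideal

variable [CharZero K] {d : Fin n → K} {N : Submodule K (Mat n K)}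

private theorem D_mem (hI : ∀ X, IsSkew d X → ∀ Y ∈ N, br X Y ∈ N) {Y : Mat n K} (hY : Y ∈ N)
    (i j : Fin n) : br (R d i j) (br (R d i j) Y) ∈ N :=
  hI _ (R_skew d i j) _ (hI _ (R_skew d i j) _ hY)

private theorem D_skew {Y : Mat n K} (hY : IsSkew d Y) (i j : Fin n) :
    IsSkew d (br (R d i j) (br (R d i j) Y)) :=
  br_skew (R_skew d i j) (br_skew (R_skew d i j) hY)

private theorem isolate_fin (hd : ∀ i, d i ≠ 0) (hS : ∀ Y ∈ N, IsSkew d Y) {Y : Mat n K}
    (hY : Y ∈ N) {p q : Fin n} (hpq : p ≠ q) (hne : Y p q ≠ 0) (Z : Mat n K) (c : K) (hZ : Z ∈ N)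
    (hc : c ≠ 0)
    (hZe : ∀ k l, k ≠ l → Z k l = if (k = p ∧ l = q) ∨ (k = q ∧ l = p) then c * Y k l else 0) :
    R d p q ∈ N := by
  have hZ2 : Z = (c * Y p q * (d q)⁻¹) • R d p q := by
    apply skew_ext hd (hS Z hZ) (smul_skew _ (R_skew d p q))
    intro k l hkl
    rw [hZe k l hkl]
    have e := hS Y hY p q
    have hdq := hd q
    clear hZe
    simp only [Matrix.smul_apply, R_apply, smul_eq_mul]
    by_cases h1 : k = p ∧ l = q
    · obtain ⟨rfl, rfl⟩ := h1
      simp only [true_and, true_or, if_true, if_neg hkl]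
      field_simp
      ring
    · by_cases h2 : k = q ∧ l = p
      · obtain ⟨rfl, rfl⟩ := h2
        have hlk : l ≠ k := fun h => hkl h.symm
        rw [if_pos (Or.inr ⟨rfl, rfl⟩)]
        simp only [if_true, if_neg hkl]
        field_simp
        linear_combination e
      · rw [if_neg (by tauto)]
        by_cases ha : k = p <;> by_cases hb : l = q <;> by_cases hc' : k = q <;>
          by_cases he : l = p <;> simp_all
  have h1 : c * Y p q * (d q)⁻¹ ≠ 0 := mul_ne_zero (mul_ne_zero hc hne) (inv_ne_zero (hd q))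
  have : R d p q = (c * Y p q * (d q)⁻¹)⁻¹ • Z := by
    rw [hZ2, smul_smul, inv_mul_cancel₀ h1, one_smul]
  rw [this]
  exact N.smul_mem _ hZ

/-- isolate one coordinate rotation -/
private theorem isolate (hd : ∀ i, d i ≠ 0) (h3 : 3 ≤ n) (h4 : n ≠ 4)
    (hS : ∀ Y ∈ N, IsSkew d Y) (hI : ∀ X, IsSkew d X → ∀ Y ∈ N, br X Y ∈ N) {Y : Mat n K}
    (hY : Y ∈ N) {p q : Fin n} (hpq : p ≠ q) (hne : Y p q ≠ 0) : R d p q ∈ N := by
  have hYs := hS Y hY
  obtain ⟨r, hr⟩ : ∃ r, r ∉ ({p, q} : Finset (Fin n)) :=
    card_lt (lt_of_le_of_lt Finset.card_le_two (by omega))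
  simp only [Finset.mem_insert, Finset.mem_singleton, not_or] at hr
  obtain ⟨hrp, hrq⟩ := hr
  have hpr : p ≠ r := fun h => hrp h.symm
  have hqr : q ≠ r := fun h => hrq h.symm
  by_cases hn : n = 3
  · refine isolate_fin hd hS hY hpq hne _ ((d p * d r) * (d q * d r))
      (D_mem hI (D_mem hI hY q r) p r)
      (mul_ne_zero (mul_ne_zero (hd _) (hd _)) (mul_ne_zero (hd _) (hd _))) ?_
    intro k l hkl
    have hiff := iff3 hpq hpr hqr (all3 hn hpq hpr hqr k) (all3 hn hpq hpr hqr l) hkl
    rw [br_br_apply hpr (D_skew hYs q r) k l hkl, br_br_apply hqr hYs k l hkl]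
    by_cases hc : (k = p ∧ l = q) ∨ (k = q ∧ l = p)
    · obtain ⟨h1, h2⟩ := hiff.2 hc
      rw [if_pos hc, if_neg h1, if_neg h2]
      ring
    · rw [if_neg hc]
      by_cases h1 : (k = p ∨ k = r) ↔ (l = p ∨ l = r)
      · rw [if_pos h1]
      · by_cases h2 : (k = q ∨ k = r) ↔ (l = q ∨ l = r)
        · rw [if_pos h2, if_neg h1, mul_zero]
        · exact absurd (hiff.1 ⟨h1, h2⟩) hc
  · obtain ⟨s, hs⟩ : ∃ s, s ∉ ({p, q, r} : Finset (Fin n)) :=
      card_lt (lt_of_le_of_lt Finset.card_le_three (by omega))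
    obtain ⟨t, ht⟩ : ∃ t, t ∉ ({p, q, r, s} : Finset (Fin n)) :=
      card_lt (lt_of_le_of_lt Finset.card_le_four (by omega))
    simp only [Finset.mem_insert, Finset.mem_singleton, not_or] at hs ht
    obtain ⟨hsp, hsq, hsr⟩ := hs
    obtain ⟨htp, htq, htr, hts⟩ := ht
    refine isolate_fin hd hS hY hpq hne _ ((d p * d t) * ((d p * d s) * ((d q * d s) *
      (d p * d r)))) (D_mem hI (D_mem hI (D_mem hI (D_mem hI hY p r) q s) p s) p t)
      (mul_ne_zero (mul_ne_zero (hd _) (hd _)) (mul_ne_zero (mul_ne_zero (hd _) (hd _))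
        (mul_ne_zero (mul_ne_zero (hd _) (hd _)) (mul_ne_zero (hd _) (hd _))))) ?_
    intro k l hkl
    have hiff := iff5 hpq hpr (Ne.symm hsp) (Ne.symm htp) hqr (Ne.symm hsq) (Ne.symm htq)
      (Ne.symm hsr) (Ne.symm htr) (Ne.symm hts) hkl
    rw [br_br_apply (Ne.symm htp) (D_skew (D_skew (D_skew hYs p r) q s) p s) k l hkl,
      br_br_apply (Ne.symm hsp) (D_skew (D_skew hYs p r) q s) k l hkl,
      br_br_apply (Ne.symm hsq) (D_skew hYs p r) k l hkl, br_br_apply hpr hYs k l hkl]
    by_cases hc : (k = p ∧ l = q) ∨ (k = q ∧ l = p)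
    · obtain ⟨h1, h2, h3, h4⟩ := hiff.2 hc
      rw [if_pos hc, if_neg h1, if_neg h2, if_neg h3, if_neg h4]
      ring
    · rw [if_neg hc]
      by_cases h1 : (k = p ∨ k = t) ↔ (l = p ∨ l = t)
      · rw [if_pos h1]
      · by_cases h2 : (k = p ∨ k = s) ↔ (l = p ∨ l = s)
        · rw [if_pos h2, if_neg h1, mul_zero]
        · by_cases h3 : (k = q ∨ k = s) ↔ (l = q ∨ l = s)
          · rw [if_pos h3, if_neg h1, if_neg h2, mul_zero, mul_zero]
          · by_cases h4 : (k = p ∨ k = r) ↔ (l = p ∨ l = r)
            · rw [if_pos h4, if_neg h1, if_neg h2, if_neg h3, mul_zero, mul_zero, mul_zero]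
            · exact absurd (hiff.1 ⟨h1, h2, h3, h4⟩) hc

private theorem br_R_R {p i j : Fin n} (hpi : p ≠ i) (hpj : p ≠ j) (hij : i ≠ j) :
    br (R d p i) (R d p j) = (-d p) • R d i j := by
  ext k l
  rw [br_apply]
  simp only [Matrix.smul_apply, R_apply, smul_eq_mul]
  have h1 := hpi.symm
  have h2 := hpj.symm
  have h3 := hij.symm
  by_cases a1 : k = p
  · subst a1
    by_cases b1 : l = k
    · subst b1; simp [*]
    · by_cases b2 : l = i
      · subst b2; simp [*]
      · by_cases b3 : l = j
        · subst b3; simp [*]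
        · simp [*]
  · by_cases a2 : k = i
    · subst a2
      by_cases b1 : l = p
      · subst b1; simp [*]
      · by_cases b2 : l = k
        · subst b2; simp [*]
        · by_cases b3 : l = j
          · subst b3; simp [*]
          · simp [*]
    · by_cases a3 : k = j
      · subst a3
        by_cases b1 : l = p
        · subst b1; simp [*]
        · by_cases b2 : l = i
          · subst b2; simp [*]
          · by_cases b3 : l = k
            · subst b3; simp [*]
            · simp [*]
      · simp [*]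

private theorem R_swap (i j : Fin n) : R d j i = - R d i j := by
  ext k l
  simp only [R_apply, Matrix.neg_apply]
  ring

private theorem R_self (i : Fin n) : R d i i = 0 := by
  ext k l
  simp only [R_apply, Matrix.zero_apply]
  ring

private theorem all_R (hd : ∀ i, d i ≠ 0) (hI : ∀ X, IsSkew d X → ∀ Y ∈ N, br X Y ∈ N)
    {p q : Fin n} (hpq : p ≠ q) (h : R d p q ∈ N) (i j : Fin n) : R d i j ∈ N := by
  -- first all `R p r`
  have hp : ∀ r, R d p r ∈ N := by
    intro r
    by_cases hrp : r = p
    · rw [hrp, R_self]; exact N.zero_mem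
    · by_cases hrq : r = q
      · rw [hrq]; exact h
      · have h1 := hI _ (R_skew d q r) _ h
        have h2 : br (R d q r) (R d q p) = (-d q) • R d r p :=
          br_R_R (Ne.symm hrq) (Ne.symm hpq) hrp
        have h3 : br (R d q r) (R d p q) = (-d q) • R d p r := by
          rw [R_swap q p, R_swap r p] at *
          simp only [br, mul_neg, neg_mul, smul_neg] at h2 ⊢
          rw [← h2]
          abel
        rw [h3] at h1
        have h4 := N.smul_mem (-d q)⁻¹ h1
        rwa [smul_smul, inv_mul_cancel₀ (neg_ne_zero.2 (hd q)), one_smul] at h4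
  by_cases hip : i = p
  · rw [hip]; exact hp j
  · by_cases hjp : j = p
    · rw [hjp, R_swap]; exact N.neg_mem (hp i)
    · by_cases hij : i = j
      · rw [hij, R_self]; exact N.zero_mem
      · have h1 := hI _ (R_skew d p i) _ (hp j)
        rw [br_R_R (Ne.symm hip) (Ne.symm hjp) hij] at h1
        have h4 := N.smul_mem (-d p)⁻¹ h1
        rwa [smul_smul, inv_mul_cancel₀ (neg_ne_zero.2 (hd p)), one_smul] at h4

private theorem expand (hd : ∀ i, d i ≠ 0) {Y : Mat n K} (hY : IsSkew d Y) :
    Y = ∑ i, ∑ j, (Y i j / d j / 2) • R d i j := by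
  ext k l
  simp only [Matrix.sum_apply, Matrix.smul_apply, R_apply, smul_eq_mul]
  have h : ∀ i j, Y i j / d j / 2 * (((if k = i then (1 : K) else 0) * (if l = j then 1 else 0) -
      (if k = j then 1 else 0) * (if l = i then 1 else 0)) * d l) =
      (if k = i then (if l = j then Y i j / d j / 2 * d l else 0) else 0) -
        (if k = j then (if l = i then Y i j / d j / 2 * d l else 0) else 0) := by
    intro i j
    split_ifs <;> ring
  simp only [h, Finset.sum_sub_distrib]
  rw [Finset.sum_comm (f := fun i j => if k = j then (if l = i then Y i j / d j / 2 * d l else 0)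
    else 0)]
  have e1 : ∀ i, (∑ j, if k = i then (if l = j then Y i j / d j / 2 * d l else 0) else 0) =
      if k = i then (Y i l / d l / 2 * d l) else 0 := by
    intro i
    split_ifs
    · rw [Finset.sum_ite_eq Finset.univ l, if_pos (Finset.mem_univ _)]
    · simp
  have e2 : ∀ j, (∑ i, if k = j then (if l = i then Y i j / d j / 2 * d l else 0) else 0) =
      if k = j then (Y l j / d j / 2 * d l) else 0 := by
    intro j
    split_ifs
    · rw [Finset.sum_ite_eq Finset.univ l, if_pos (Finset.mem_univ _)]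
    · simp
  simp only [e1, e2]
  rw [Finset.sum_ite_eq Finset.univ k, Finset.sum_ite_eq Finset.univ k,
    if_pos (Finset.mem_univ _), if_pos (Finset.mem_univ _)]
  have e := hY k l
  have hk := hd k
  have hl := hd l
  field_simp
  linear_combination e

/-- The orthogonal Lie algebra of a nondegenerate diagonal form in `n ≥ 3`, `n ≠ 4` variables is
simple. -/
theorem simple (hd : ∀ i, d i ≠ 0) (h3 : 3 ≤ n) (h4 : n ≠ 4) (hS : ∀ Y ∈ N, IsSkew d Y)
    (hI : ∀ X, IsSkew d X → ∀ Y ∈ N, X * Y - Y * X ∈ N) :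
    N = ⊥ ∨ ∀ Y, IsSkew d Y → Y ∈ N := by
  by_cases h : N = ⊥
  · exact Or.inl h
  · right
    obtain ⟨Y, hY, hY0⟩ := (Submodule.ne_bot_iff N).1 h
    obtain ⟨p, q, hpq, hne⟩ : ∃ p q, p ≠ q ∧ Y p q ≠ 0 := by
      by_contra hcon
      push Not at hcon
      apply hY0
      have h0 : IsSkew d (0 : Mat n K) := by intro i j; simp
      exact skew_ext hd (hS Y hY) h0 (fun k l hkl => by rw [hcon k l hkl]; rfl)
    have hR := isolate hd h3 h4 hS hI hY hpq hne
    intro Z hZ
    rw [expand hd hZ]
    exact N.sum_mem fun i _ => N.sum_mem fun j _ => N.smul_mem _ (all_R hd hI hpq hR i j)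

end ideal

end Pool.Agent.Helper42.KSOne
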