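import Mathlib
import Pool.Agent.Helper9.KSMDefs
import Pool.Agent.Helper9.KSMProof
import Pool.Agent.Helper42.KSOne.Defs
import Pool.Agent.Helper42.KSOne.Simple

/-!
One mixed tensor is enough: proof.
-/

namespace Pool.Agent.Helper42.KSOne

open Pool.Agent.Helper9.KSM

variable {K : Type} [Field K] {n m : ℕ} {d : Fin n → K}
  {j : Submodule K (Mat n K × Mat m K)}

/-- the ideal of all `Y` with `(Y, 0)` in `j` -/
private def ker2 (j : Submodule K (Mat n K × Mat m K)) : Submodule K (Mat n K) :=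
  j.comap (LinearMap.inl K (Mat n K) (Mat m K))

private theorem mem_ker2 {Y : Mat n K} : Y ∈ ker2 j ↔ (Y, 0) ∈ j := Iff.rfl

private theorem ker2_bot [CharZero K] (hd : ∀ i, d i ≠ 0) (h3 : 3 ≤ n) (h4 : n ≠ 4)
    (hj : IsOrthPair d j) (hmix : HasMixed d j) : ker2 j = ⊥ := by
  have hS : ∀ Y ∈ ker2 j, IsSkew d Y := fun Y hY => hj.skew _ (mem_ker2.1 hY)
  have hI : ∀ X, IsSkew d X → ∀ Y ∈ ker2 j, X * Y - Y * X ∈ ker2 j := by
    intro X hX Y hY
    obtain ⟨p, hp, rfl⟩ := hj.onto X hX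
    have := hj.lie.2 p hp _ (mem_ker2.1 hY)
    rw [mem_ker2]
    simpa using this
  rcases simple hd h3 h4 hS hI with h | h
  · exact h
  · exfalso
    obtain ⟨a, b, c, T, hT, Y, hY, hne⟩ := hmix
    exact hne (hT _ (mem_ker2.1 (h Y hY)))

/-- One mixed tensor suffices: `j` is the graph of a representation, and all conclusions of the
structural theorem hold. -/
theorem main {L : Type} [CharZero K] [Field L] [Algebra K L] {r : ℕ} {l : Fin r → L}
    {x : Fin r → Mat n K × Mat m K} (hd : ∀ i, d i ≠ 0) (h3 : 3 ≤ n) (h4 : n ≠ 4)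
    (hj : IsOrthPair d j) (hP : IsHodgePair d j l x) (hmix : HasMixed d j) :
    ∃ ρ : Mat m K →ₗ[K] Mat n K, (∀ p ∈ j, p.1 = ρ p.2) ∧
      ∃ E κ, IsKugaSatake d (onH j) ρ l (fun i => (x i).2) E κ := by
  have hk := ker2_bot hd h3 h4 hj hmix
  have hinj : ∀ p ∈ j, p.2 = 0 → p = 0 := by
    intro p hp h0
    have h1 : p.1 ∈ ker2 j := by
      rw [mem_ker2, ← h0]
      exact hp
    rw [hk, Submodule.mem_bot] at h1
    exact Prod.ext h1 h0
  -- the second projection is injective on `j`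
  let f : j →ₗ[K] onH j := (LinearMap.snd K (Mat n K) (Mat m K)).restrict
    (fun p hp => Submodule.mem_map_of_mem hp)
  have hf1 : Function.Injective f := by
    rw [← LinearMap.ker_eq_bot, LinearMap.ker_eq_bot']
    intro p hp
    have : (p : Mat n K × Mat m K).2 = 0 := congrArg Subtype.val hp
    exact Subtype.ext (hinj _ p.2 this)
  have hf2 : Function.Surjective f := by
    rintro ⟨y, hy⟩
    obtain ⟨p, hp, rfl⟩ := hy
    exact ⟨⟨p, hp⟩, rfl⟩
  let e := LinearEquiv.ofBijective f ⟨hf1, hf2⟩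
  obtain ⟨ρ, hρ⟩ := LinearMap.exists_extend
    ((LinearMap.fst K (Mat n K) (Mat m K)).comp (j.subtype.comp e.symm.toLinearMap))
  have hρj : ∀ p ∈ j, p.1 = ρ p.2 := by
    intro p hp
    have h2 := LinearMap.congr_fun hρ (e ⟨p, hp⟩)
    have h3 : (ρ.comp (onH j).subtype) (e ⟨p, hp⟩) = ρ p.2 := rfl
    rw [h3] at h2
    rw [h2]
    simp
  refine ⟨ρ, hρj, ?_⟩
  have hmem : ∀ y, y ∈ onH j ↔ ∃ p ∈ j, p.2 = y := fun y => Iff.rfl
  apply Pool.Agent.Helper9.KSM.main hd h3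
  · constructor
    · -- closed under brackets
      intro a ha b hb
      obtain ⟨p, hp, rfl⟩ := (hmem a).1 ha
      obtain ⟨q, hq, rfl⟩ := (hmem b).1 hb
      exact (hmem _).2 ⟨_, hj.lie.2 p hp q hq, rfl⟩
    · intro a ha b hb
      obtain ⟨p, hp, rfl⟩ := (hmem a).1 ha
      obtain ⟨q, hq, rfl⟩ := (hmem b).1 hb
      rw [← hρj p hp, ← hρj q hq]
      exact (hρj _ (hj.lie.2 p hp q hq)).symm
    · constructor
      · intro a ha
        obtain ⟨p, hp, rfl⟩ := (hmem a).1 ha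
        rw [← hρj p hp]
        exact hj.skew p hp
      · intro Y hY
        obtain ⟨p, hp, rfl⟩ := hj.onto Y hY
        exact ⟨p.2, (hmem _).2 ⟨p, hp, rfl⟩, (hρj p hp).symm⟩
    · obtain ⟨s, hs, hs1, hs2⟩ := hj.compl
      refine ⟨s.map (LinearMap.snd K (Mat n K) (Mat m K)), ⟨Submodule.map_mono hs.1, ?_⟩, ?_, ?_⟩
      · intro a ha b hb
        obtain ⟨p, hp, rfl⟩ := (hmem a).1 ha
        obtain ⟨q, hq, rfl⟩ := hb
        exact ⟨_, hs.2 p hp q hq, rfl⟩
      · intro a ha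
        obtain ⟨p, hp, rfl⟩ := (hmem a).1 ha
        obtain ⟨q, hq, hqp⟩ := hs1 p hp
        refine ⟨q.2, ⟨q, hq, rfl⟩, ?_⟩
        rw [← hρj p hp, ← hρj q (hs.1 hq), hqp]
      · intro b hb h0
        obtain ⟨q, hq, rfl⟩ := hb
        have h1 : q.1 = 0 := by
          rw [hρj q (hs.1 hq)]
          exact h0
        rw [hs2 q hq h1]
        rfl
  · refine ⟨fun i => (hmem _).2 ⟨x i, hP.mem i, rfl⟩, hP.idem, ?_⟩
    obtain ⟨e', f', he, hf⟩ := hP.type
    refine ⟨e', f', he, ?_⟩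
    rw [← hf]
    congr 1
    funext i
    exact (hρj _ (hP.mem i)).symm

end Pool.Agent.Helper42.KSOne
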