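import Mathlib

/-!
Definitions for the theorem on Kuga-Satake varieties of K3 surfaces of odd Picard number.

Dictionary. `K = ℚ`; `M = E^m` is the transcendental part of `H²(X)(1)` of a hyper-Kaehler variety
`X` whose field `E` of Hodge endomorphisms is totally real, with the polarisation
`b(v, w) = Tr (∑ dᵢ vᵢ wᵢ)` and `Q(v) = b(v, v)`; the Clifford algebra of `Q` is two copies of
`H¹(KS(X))`, on which the motivic group acts by left multiplication; the Lie algebra of the Hodge
group consists of the `E`-linear skew maps `Y` of `M`, acting on the Clifford algebra by left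
multiplication by the bivector of `Y`; `j` is the Lie algebra of the elements of multiplier one in
the Tannaka group of the category of homological motives generated by the motives of `M` and of
`KS(X)`.
-/

namespace Pool.Agent.Helper42.KSOne.Odd

open CliffordAlgebra

/-- The bilinear form `b(v, w) = Tr_{E/K} (∑ dᵢ vᵢ wᵢ)` on `E^m`. -/
noncomputable def trBil (K : Type) {E : Type} [Field K] [Field E] [Algebra K E] {m : ℕ}
    (d : Fin m → E) : (Fin m → E) →ₗ[K] (Fin m → E) →ₗ[K] K :=
  LinearMap.mk₂ K (fun v w => Algebra.trace K E (∑ i, d i * v i * w i))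
    (fun v v' w => by
      rw [← map_add, ← Finset.sum_add_distrib]
      exact congrArg _ (Finset.sum_congr rfl fun i _ => by simp only [Pi.add_apply]; ring))
    (fun c v w => by
      rw [← map_smul, Finset.smul_sum]
      exact congrArg _ (Finset.sum_congr rfl fun i _ => by
        simp only [Pi.smul_apply, Algebra.smul_def]; ring))
    (fun v w w' => by
      rw [← map_add, ← Finset.sum_add_distrib]
      exact congrArg _ (Finset.sum_congr rfl fun i _ => by simp only [Pi.add_apply]; ring))
    (fun c v w => by
      rw [← map_smul, Finset.smul_sum]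
      exact congrArg _ (Finset.sum_congr rfl fun i _ => by
        simp only [Pi.smul_apply, Algebra.smul_def]; ring))

/-- The quadratic form `Q(v) = Tr_{E/K} (∑ dᵢ vᵢ²)` on `E^m`. -/
noncomputable def trQ (K : Type) {E : Type} [Field K] [Field E] [Algebra K E] {m : ℕ}
    (d : Fin m → E) : QuadraticForm K (Fin m → E) :=
  LinearMap.BilinMap.toQuadraticMap (trBil K d)

variable {K M : Type} (E : Type) [Field K] [AddCommGroup M] [Module K M] [Field E] [Module E M]
  (Q : QuadraticForm K M)

/-- The algebra `End(M) × Cl(Q)`, where `Cl(Q)` acts on itself by left multiplication. -/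
abbrev Pairs : Type := Module.End K M × CliffordAlgebra Q

/-- The bivectors: the span of all `v w - w v`. -/
noncomputable def bivectors : Submodule K (CliffordAlgebra Q) :=
  Submodule.span K {u | ∃ v w, u = ι Q v * ι Q w - ι Q w * ι Q v}

/-- Elements of the Hodge Lie algebra: `E`-linear maps `Y` of `M` together with a bivector `u`
acting on `M` (by the commutator) as `Y`. -/
def IsHodge (z : Pairs Q) : Prop :=
  (∀ (a : E) (v : M), z.1 (a • v) = a • z.1 v) ∧ z.2 ∈ bivectors Q ∧
    ∀ v, z.2 * ι Q v - ι Q v * z.2 = ι Q (z.1 v)

/-- The properties of the motivic Lie algebra `j`: it is a Lie algebra which contains the Hodge Lie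
algebra, preserves the form on `M`, commutes with all endomorphisms of `Cl(Q)` which commute with
the Hodge Lie algebra (endomorphisms of abelian varieties are algebraic) and preserves the
polarisations of the Kuga-Satake variety (its elements are skew for the canonical involution). -/
structure IsMotivic (j : Submodule K (Pairs Q)) : Prop where
  lie : ∀ z ∈ j, ∀ w ∈ j, z * w - w * z ∈ j
  hodge : ∀ z, IsHodge E Q z → z ∈ j
  skew : ∀ z ∈ j, ∀ v w, QuadraticMap.polar Q (z.1 v) w + QuadraticMap.polar Q v (z.1 w) = 0
  comm : ∀ z ∈ j, ∀ T : Module.End K (CliffordAlgebra Q),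
    (∀ h, IsHodge E Q h → ∀ w, T (h.2 * w) = h.2 * T w) → ∀ w, T (z.2 * w) = z.2 * T w
  pol : ∀ z ∈ j, reverse z.2 = -z.2

/-- Multilinear forms on `M^a × Cl(Q)^b`. -/
abbrev Forms (a b : ℕ) : Type :=
  MultilinearMap K (fun _ : Fin a => M) (MultilinearMap K (fun _ : Fin b => CliffordAlgebra Q) K)

variable {Q} in
/-- The action of `z` on a multilinear form on `M^a × Cl(Q)^b`. -/
noncomputable def actT {a b : ℕ} (z : Pairs Q) (f : Forms Q a b)
    (v : Fin a → M) (w : Fin b → CliffordAlgebra Q) : K :=
  (∑ s, f (Function.update v s (z.1 (v s))) w) + ∑ s, f v (Function.update w s (z.2 * w s))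

/-- There is a mixed form: a multilinear form on `M^a × Cl(Q)^b` which is invariant under `j` but
not invariant under the Hodge Lie algebra acting on the variables in `M` only. -/
def HasMixedForm (j : Submodule K (Pairs Q)) : Prop :=
  ∃ (a b : ℕ) (f : Forms Q a b), (∀ z ∈ j, ∀ v w, actT z f v w = 0) ∧
    ∃ z, IsHodge E Q z ∧ ∃ v w, actT (z.1, 0) f v w ≠ 0

end Pool.Agent.Helper42.KSOne.Odd
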