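import Mathlib
import Pool.Agent.Helper42.KSOne.Defs2
import Pool.Agent.Helper42.KSOne.Ext
import Pool.Agent.Helper42.KSOne.Filt

/-!
The Clifford algebra of a trace form over an algebraically closed field: generators, blocks,
and the form of bivectors and of skew elements.
-/

namespace Pool.Agent.Helper42.KSOne

open Module TensorProduct

section gen

variable {F A : Type*} [Field F] [Ring A] [Algebra F A] {N : ℕ} {x : Fin N → A} {D : Fin N → F}

theorem inv_mono (h : IsGen x D) (α : A →ₐ[F] A) (hx : ∀ i, α (x i) = -x i)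
    (I : Finset (Fin N)) : α (mono x I) = ((-1 : F) ^ I.card) • mono x I := by
  induction I using Finset.induction_on with
  | empty => simp [mono_empty]
  | insert i I hi ih =>
    obtain ⟨c, hc, hcc⟩ := mono_insert h hi
    rw [hcc, map_smul, map_mul, ih, hx, Finset.card_insert_of_notMem hi, pow_succ,
      neg_mul, mul_smul_comm, smul_smul, smul_neg, smul_smul, ← neg_smul]
    congr 1
    ring

theorem pair_span (h : IsGen x D) {p q : Fin N} (hpq : p ≠ q) :
    x p * x q ∈ Submodule.span F {u | ∃ J : Finset (Fin N), J.card = 2 ∧ u = mono x J} := by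
  obtain ⟨c, hc, e⟩ := mono_insert h (i := p) (I := {q}) (by simpa using hpq)
  obtain ⟨c', hc', e'⟩ := mono_insert h (i := q) (I := ∅) (by simp)
  have e2 : mono x {q} = c' • x q := by
    have : (insert q (∅ : Finset (Fin N))) = {q} := rfl
    rw [← this, e', mono_empty, mul_one]
  have e3 : x p * x q = (c * c')⁻¹ • mono x {p, q} := by
    have : (insert p ({q} : Finset (Fin N))) = {p, q} := rfl
    have e4 : (c * c')⁻¹ * c * c' = 1 := by field_simp
    rw [← this, e, e2, mul_smul_comm, smul_smul, smul_smul, e4, one_smul]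
  rw [e3]
  exact Submodule.smul_mem _ _ (Submodule.subset_span ⟨_, Finset.card_pair hpq, rfl⟩)

theorem comm_span (h : IsGen x D) {a b : A} (ha : a ∈ Submodule.span F (Set.range x))
    (hb : b ∈ Submodule.span F (Set.range x)) :
    a * b - b * a ∈
      Submodule.span F {u | ∃ J : Finset (Fin N), J.card = 2 ∧ u = mono x J} := by
  induction ha using Submodule.span_induction with
  | mem a ha =>
    obtain ⟨p, rfl⟩ := ha
    induction hb using Submodule.span_induction with
    | mem b hb =>
      obtain ⟨q, rfl⟩ := hb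
      by_cases hpq : p = q
      · subst hpq
        rw [sub_self]
        exact Submodule.zero_mem _
      · exact Submodule.sub_mem _ (pair_span h hpq) (pair_span h (Ne.symm hpq))
    | zero => simp
    | add b c _ _ hb hc =>
      have : x p * (b + c) - (b + c) * x p = (x p * b - b * x p) + (x p * c - c * x p) := by
        noncomm_ring
      rw [this]
      exact Submodule.add_mem _ hb hc
    | smul t b _ hb =>
      have : x p * (t • b) - (t • b) * x p = t • (x p * b - b * x p) := by
        rw [mul_smul_comm, smul_mul_assoc, smul_sub]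
      rw [this]
      exact Submodule.smul_mem _ _ hb
  | zero => simp
  | add a c _ _ ha hc =>
    have : (a + c) * b - b * (a + c) = (a * b - b * a) + (c * b - b * c) := by
      noncomm_ring
    rw [this]
    exact Submodule.add_mem _ ha hc
  | smul t a _ ha =>
    have : (t • a) * b - b * (t • a) = t • (a * b - b * a) := by
      rw [mul_smul_comm, smul_mul_assoc, smul_sub]
    rw [this]
    exact Submodule.smul_mem _ _ ha

end gen

variable {K E : Type} [Field K] [CharZero K] [Field E] [Algebra K E] [FiniteDimensional K E]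
  {m : ℕ} (d : Fin m → E) (L : Type) [Field L] [CharZero L] [Algebra K L] [IsAlgClosed L]

/-- numbering of the basis over `L` -/
noncomputable def ee (K E L : Type) [Field K] [CharZero K] [Field E] [Algebra K E]
    [FiniteDimensional K E] [Field L] [Algebra K L] [IsAlgClosed L] (m : ℕ) :
    Fin (Fintype.card ((E →ₐ[K] L) × Fin m)) ≃ (E →ₐ[K] L) × Fin m :=
  (Fintype.equivFin _).symm

/-- the generators -/
noncomputable def XX (p : Fin (Fintype.card ((E →ₐ[K] L) × Fin m))) : L ⊗[K] Cl K d :=
  xx d (ee K E L m p).1 (ee K E L m p).2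

/-- their squares -/
noncomputable def DD (p : Fin (Fintype.card ((E →ₐ[K] L) × Fin m))) : L :=
  (ee K E L m p).1 (d (ee K E L m p).2)

/-- the blocks -/
noncomputable def bb (K E L : Type) [Field K] [CharZero K] [Field E] [Algebra K E]
    [FiniteDimensional K E] [Field L] [Algebra K L] [IsAlgClosed L] (m : ℕ)
    (p : Fin (Fintype.card ((E →ₐ[K] L) × Fin m))) : E →ₐ[K] L :=
  (ee K E L m p).1

theorem isGen (hd : ∀ i, d i ≠ 0) : IsGen (XX d L) (DD (K := K) d L) := by
  classical
  refine ⟨?_, ?_, ?_⟩
  · intro p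
    have h := xx_rel (K := K) d (ee K E L m p).1 (ee K E L m p).1 (ee K E L m p).2
      (ee K E L m p).2
    rw [if_pos ⟨rfl, rfl⟩, ← two_smul L] at h
    have h2 : XX d L p * XX d L p = (2 : L)⁻¹ • ((2 : L) • (XX d L p * XX d L p)) := by
      rw [smul_smul, inv_mul_cancel₀ two_ne_zero, one_smul]
    rw [h2]
    change (2 : L)⁻¹ • ((2 : L) • (xx d (ee K E L m p).1 (ee K E L m p).2 *
      xx d (ee K E L m p).1 (ee K E L m p).2)) = _
    rw [h, Algebra.smul_def, ← map_mul]
    congr 1
    rw [← mul_assoc, inv_mul_cancel₀ two_ne_zero, one_mul]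
    rfl
  · intro p q hpq
    have h := xx_rel (K := K) d (ee K E L m p).1 (ee K E L m q).1 (ee K E L m p).2
      (ee K E L m q).2
    rw [if_neg, map_zero] at h
    · exact eq_neg_of_add_eq_zero_left h
    · rintro ⟨h1, h2⟩
      exact hpq ((ee K E L m).injective (Prod.ext h1 h2))
  · intro p
    have := hd (ee K E L m p).2
    exact (map_ne_zero (ee K E L m p).1).2 this

theorem card_block [DecidableEq (E →ₐ[K] L)]
    (p : Fin (Fintype.card ((E →ₐ[K] L) × Fin m))) :
    (prt (bb K E L m) Finset.univ (bb K E L m p)).card = m := by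
  have : prt (bb K E L m) Finset.univ (bb K E L m p) =
      (Finset.univ : Finset (Fin m)).map
        ⟨fun i => (ee K E L m).symm ((bb K E L m p), i), fun i j h => by
          have := (ee K E L m).symm.injective h
          exact (Prod.ext_iff.1 this).2⟩ := by
    ext q
    rw [mem_prt]
    simp only [Finset.mem_univ, true_and, Finset.mem_map, Function.Embedding.coeFn_mk]
    constructor
    · intro h
      refine ⟨(ee K E L m q).2, ?_⟩
      rw [← h]
      exact (ee K E L m).symm_apply_apply q
    · rintro ⟨i, rfl⟩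
      change (ee K E L m ((ee K E L m).symm (bb K E L m p, i))).1 = _
      rw [Equiv.apply_symm_apply]
  rw [this, Finset.card_map, Finset.card_univ, Fintype.card_fin]

theorem inc_span (v : Fin m → E) :
    (inc (inV K d v) : L ⊗[K] Cl K d) ∈ Submodule.span L (Set.range (XX (K := K) d L)) := by
  rw [inc_inV]
  apply Submodule.sum_mem
  intro σ _
  apply Submodule.sum_mem
  intro i _
  apply Submodule.smul_mem
  apply Submodule.subset_span
  refine ⟨(ee K E L m).symm (σ, i), ?_⟩
  unfold XX
  rw [Equiv.apply_symm_apply]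

theorem biv_span (hd : ∀ i, d i ≠ 0) {c : Cl K d} (hc : c ∈ bivectors K d) :
    (inc c : L ⊗[K] Cl K d) ∈
      Submodule.span L {u | ∃ J : Finset (Fin (Fintype.card ((E →ₐ[K] L) × Fin m))),
        J.card = 2 ∧ u = mono (XX (K := K) d L) J} := by
  unfold bivectors at hc
  induction hc using Submodule.span_induction with
  | mem c hc =>
    obtain ⟨v, w, rfl⟩ := hc
    rw [map_sub, map_mul, map_mul]
    exact comm_span (isGen d L hd) (inc_span d L v) (inc_span d L w)
  | zero => rw [map_zero]; exact Submodule.zero_mem _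
  | add a b _ _ ha hb => rw [map_add]; exact Submodule.add_mem _ ha hb
  | smul t a _ ha =>
    rw [map_smul, ← alg_smul]
    exact Submodule.smul_mem _ _ ha

theorem biv_Phi (hd : ∀ i, d i ≠ 0) {c : Cl K d} (hc : c ∈ bivectors K d) :
    ∃ f : Finset (Fin (Fintype.card ((E →ₐ[K] L) × Fin m))) → L,
      (∀ I, f I ≠ 0 → I.card = 2) ∧ (inc c : L ⊗[K] Cl K d) = Phi (XX (K := K) d L) f :=
  span_to_Phi (fun J => J.card = 2) _ (biv_span d L hd hc)

/-- generators are combinations of vectors of `V` -/
theorem XX_eq (p : Fin (Fintype.card ((E →ₐ[K] L) × Fin m))) :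
    XX (K := K) d L p = ∑ k, (ee K E L m p).1 (omd K E k) •
      inc (inV K d (Pi.single (ee K E L m p).2 (om K E k))) := rfl

/-- a bivector commuting with `V` is zero -/
theorem biv_central (hd : ∀ i, d i ≠ 0) {c : Cl K d} (hc : c ∈ bivectors K d)
    (h : ∀ v, c * inV K d v - inV K d v * c = 0) : c = 0 := by
  let L := AlgebraicClosure K
  have : CharZero L := charZero_of_injective_algebraMap (algebraMap K L).injective
  obtain ⟨f, hf, hfc⟩ := biv_Phi d L hd hc
  apply inc_injective (K := K) (L := L) (C := Cl K d)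
  rw [map_zero, hfc]
  apply pairs_central (isGen d L hd) f hf
  intro k
  rw [← hfc, XX_eq, Finset.mul_sum, Finset.sum_mul]
  apply Finset.sum_congr rfl
  intro l _
  rw [smul_mul_assoc, mul_smul_comm, ← map_mul, ← map_mul, sub_eq_zero.1 (h _)]

theorem inc_adjoin (u : Cl K d) :
    (inc u : L ⊗[K] Cl K d) ∈ Algebra.adjoin L (Set.range (XX (K := K) d L)) := by
  induction u using CliffordAlgebra.induction with
  | algebraMap r =>
    rw [AlgHom.commutes]
    have : (algebraMap K (L ⊗[K] Cl K d)) r =
        algebraMap L (L ⊗[K] Cl K d) (algebraMap K L r) := rfl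
    rw [this]
    exact Subalgebra.algebraMap_mem _ _
  | ι v =>
    have h := inc_span (K := K) d L v
    have h2 : Submodule.span L (Set.range (XX (K := K) d L)) ≤
        Subalgebra.toSubmodule (Algebra.adjoin L (Set.range (XX (K := K) d L))) :=
      Submodule.span_le.2 Algebra.subset_adjoin
    exact h2 h
  | mul a b ha hb => rw [map_mul]; exact Subalgebra.mul_mem _ ha hb
  | add a b ha hb => rw [map_add]; exact Subalgebra.add_mem _ ha hb

theorem inc_Phi (hd : ∀ i, d i ≠ 0) (u : Cl K d) :
    ∃ f : Finset (Fin (Fintype.card ((E →ₐ[K] L) × Fin m))) → L,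
      (inc u : L ⊗[K] Cl K d) = Phi (XX (K := K) d L) f := by
  have h := adjoin_le (F := L) (XX (K := K) d L) (Set.range (XX (K := K) d L)) (fun _ => True)
    trivial (by
      rintro _ ⟨p, rfl⟩ I _
      obtain ⟨c, _, e⟩ := left_mono (isGen d L hd) p I
      rw [e]
      exact Submodule.smul_mem _ _ (Submodule.subset_span ⟨_, trivial, rfl⟩)) _ (inc_adjoin d L u)
  obtain ⟨f, _, hf⟩ := span_to_Phi (fun _ => True) _ h
  exact ⟨f, hf⟩

/-- the grade involution over `L` -/
noncomputable def invL : (L ⊗[K] Cl K d) →ₐ[L] (L ⊗[K] Cl K d) :=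
  Algebra.TensorProduct.map (AlgHom.id L L) CliffordAlgebra.involute

theorem invL_inc (u : Cl K d) : invL d L (inc u) = inc (CliffordAlgebra.involute u) := by
  rw [inc_apply, invL, Algebra.TensorProduct.map_tmul]
  rfl

theorem invL_XX (p : Fin (Fintype.card ((E →ₐ[K] L) × Fin m))) :
    invL d L (XX (K := K) d L p) = -XX d L p := by
  rw [XX_eq, map_sum, ← Finset.sum_neg_distrib]
  apply Finset.sum_congr rfl
  intro k _
  rw [map_smul, invL_inc, CliffordAlgebra.involute_ι, map_neg, smul_neg]

/-- the canonical involution over `L` -/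
noncomputable def revL : (L ⊗[K] Cl K d) →ₗ[L] (L ⊗[K] Cl K d) :=
  TensorProduct.AlgebraTensorModule.map LinearMap.id CliffordAlgebra.reverse

theorem revL_tmul (a : L) (u : Cl K d) :
    revL d L (a ⊗ₜ[K] u) = a ⊗ₜ[K] CliffordAlgebra.reverse u := rfl

theorem revL_inc (u : Cl K d) : revL d L (inc u) = inc (CliffordAlgebra.reverse u) := rfl

theorem revL_mul (a b : L ⊗[K] Cl K d) : revL d L (a * b) = revL d L b * revL d L a := by
  induction a using TensorProduct.induction_on with
  | zero => simp
  | tmul l u =>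
    induction b using TensorProduct.induction_on with
    | zero => simp
    | tmul l' u' =>
      rw [Algebra.TensorProduct.tmul_mul_tmul, revL_tmul, revL_tmul, revL_tmul,
        Algebra.TensorProduct.tmul_mul_tmul, CliffordAlgebra.reverse.map_mul, mul_comm l]
    | add a b ha hb => rw [mul_add, map_add, map_add, add_mul, ha, hb]
  | add a b ha hb => rw [add_mul, map_add, map_add, mul_add, ha, hb]

theorem revL_XX (p : Fin (Fintype.card ((E →ₐ[K] L) × Fin m))) :
    revL d L (XX (K := K) d L p) = XX d L p := by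
  rw [XX_eq, map_sum]
  apply Finset.sum_congr rfl
  intro k _
  rw [map_smul, revL_inc, CliffordAlgebra.reverse_ι]

/-- the form of even skew elements which commute with the volume elements of the blocks -/
theorem right_Phi [DecidableEq (E →ₐ[K] L)] (hd : ∀ i, d i ≠ 0) (hm : Odd m) {u : Cl K d}
    (h1 : CliffordAlgebra.involute u = u) (h2 : CliffordAlgebra.reverse u = -u)
    (h3 : ∀ σ : E →ₐ[K] L, mono (XX (K := K) d L) (prt (bb K E L m) Finset.univ σ) * inc u =
      inc u * mono (XX (K := K) d L) (prt (bb K E L m) Finset.univ σ)) :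
    ∃ g : Finset (Fin (Fintype.card ((E →ₐ[K] L) × Fin m))) → L,
      (∀ I, g I ≠ 0 → BlockEven (bb K E L m) I ∧ I.card % 4 = 2) ∧
      (inc u : L ⊗[K] Cl K d) = Phi (XX (K := K) d L) g := by
  classical
  have hg := isGen (K := K) d L hd
  obtain ⟨f, hf⟩ := inc_Phi d L hd u
  have e1 := filt (invL d L).toLinearMap (fun I => (-1 : L) ^ I.card)
    (fun I => inv_mono hg (invL d L) (invL_XX d L) I) (fun I => neg_one_pow_cases _) f (by
      rw [← hf]
      change invL d L (inc u) = inc u
      rw [invL_inc, h1])
  rw [e1] at hf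
  have hrev1 : revL d L (1 : L ⊗[K] Cl K d) = 1 := by
    rw [← map_one (inc (L := L) (K := K) (C := Cl K d)), revL_inc,
      CliffordAlgebra.reverse.map_one]
  have hrevI : ∀ I, (-(revL d L)) (mono (XX (K := K) d L) I) =
      (-(-1 : L) ^ (I.card * (I.card - 1) / 2)) • mono (XX (K := K) d L) I := by
    intro I
    rw [LinearMap.neg_apply, rev_mono hg (revL d L) hrev1 (revL_mul d L) (revL_XX d L) I,
      neg_smul]
  have e2 := filt (x := XX (K := K) d L) (-(revL d L))
    (fun I => -(-1 : L) ^ (I.card * (I.card - 1) / 2)) hrevI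
    (fun I => by
      rcases neg_one_pow_cases (F := L) (I.card * (I.card - 1) / 2) with h | h
      · right; rw [h]
      · left; rw [h, neg_neg]) _ (by
      rw [← hf, LinearMap.neg_apply, revL_inc, h2, map_neg, neg_neg])
  rw [e2] at hf
  have hBodd : ∀ σ : E →ₐ[K] L, (∃ p, bb K E L m p = σ) →
      Odd (prt (bb K E L m) Finset.univ σ).card := by
    rintro σ ⟨p, rfl⟩
    rw [card_block]
    exact hm
  have hpos : 0 < m := hm.pos
  have hsurj : ∀ σ : E →ₐ[K] L, ∃ p, bb K E L m p = σ := by
    intro σ
    refine ⟨(ee K E L m).symm (σ, ⟨0, hpos⟩), ?_⟩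
    unfold bb
    rw [Equiv.apply_symm_apply]
  choose cB hcB hsq using fun σ : E →ₐ[K] L =>
    mono_sq hg (prt (bb K E L m) Finset.univ σ)
  have e3 := filtAll (x := XX (K := K) d L) (Finset.univ : Finset (E →ₐ[K] L))
    (fun σ => conjL (mono (XX (K := K) d L) (prt (bb K E L m) Finset.univ σ)) (cB σ))
    (fun σ I => (-1 : L) ^ (I \ prt (bb K E L m) Finset.univ σ).card)
    (fun σ I => conjL_of_comm (hcB σ) (hsq σ) (mono_conj hg _ I (hBodd σ (hsurj σ))))
    (fun σ I => neg_one_pow_cases _) _ (fun σ _ => by
      have := conjL_of_comm (hcB σ) (hsq σ) (a := (inc u : L ⊗[K] Cl K d)) (s := 1)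
        (by rw [h3 σ, one_smul])
      rw [one_smul] at this
      rw [← hf]
      exact this)
  rw [e3] at hf
  refine ⟨_, ?_, hf⟩
  intro I hI
  simp only [ne_eq, ite_eq_right_iff, Classical.not_imp] at hI
  obtain ⟨hI1, hI2, hI3, -⟩ := hI
  have hev : Even I.card := neg_one_pow_eq_one hI3
  constructor
  · intro σ
    have h4 := neg_one_pow_eq_one (hI1 σ (Finset.mem_univ σ))
    have h5 : (I \ prt (bb K E L m) Finset.univ σ).card + (prt (bb K E L m) I σ).card =
        I.card := by
      have h6 : prt (bb K E L m) I σ = I ∩ prt (bb K E L m) Finset.univ σ := by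
        ext a
        rw [Finset.mem_inter, mem_prt, mem_prt]
        simp
      rw [h6]
      exact Finset.card_sdiff_add_card_inter _ _
    rw [← h5] at hev
    exact (Nat.even_add.1 hev).1 h4
  · obtain ⟨r, hr⟩ := hev
    have h7 : Odd (I.card * (I.card - 1) / 2) := by
      rw [← Nat.not_even_iff_odd]
      intro h8
      rw [h8.neg_one_pow] at hI2
      have : (2 : L) = 0 := by linear_combination -hI2
      exact two_ne_zero this
    have h9 : I.card * (I.card - 1) / 2 = r * (2 * r - 1) := by
      rw [hr, ← two_mul, mul_assoc, Nat.mul_div_cancel_left _ (by norm_num)]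
    rw [h9] at h7
    have h10 := Nat.odd_mul.1 h7
    obtain ⟨s, hs⟩ := h10.1
    omega

end Pool.Agent.Helper42.KSOne
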