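import Mathlib
import Pool.Agent.Helper42.KSOne.Defs2
import Pool.Agent.Helper42.KSOne.Gen
import Pool.Agent.Helper42.KSOne.RMa

/-!
Skew maps of a trace form and bivectors.
-/

namespace Pool.Agent.Helper42.KSOne

open Module

variable {K E : Type} [Field K] [CharZero K] [Field E] [Algebra K E] [FiniteDimensional K E]
  {m : ℕ} (d : Fin m → E)

theorem alg_inj {a b : K} (h : algebraMap K (Cl K d) a = algebraMap K (Cl K d) b) : a = b := by
  have : Invertible (2 : K) := invertibleOfNonzero two_ne_zero
  exact (algebraMap K (Cl K d)).injective h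

/-- bivectors act by skew maps -/
theorem skew_of_ad {u : Cl K d} {Y : Module.End K (Fin m → E)}
    (h : ∀ v, u * inV K d v - inV K d v * u = inV K d (Y v)) (v w : Fin m → E) :
    trBil K d (Y v) w + trBil K d v (Y w) = 0 := by
  have h1 := inV_anti (K := K) d (Y v) w
  have h2 := inV_anti (K := K) d v (Y w)
  have h3 := inV_anti (K := K) d v w
  rw [← h v] at h1
  rw [← h w] at h2
  have h4 : (u * inV K d v - inV K d v * u) * inV K d w + inV K d w *
      (u * inV K d v - inV K d v * u) + (inV K d v * (u * inV K d w - inV K d w * u) +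
      (u * inV K d w - inV K d w * u) * inV K d v) =
      u * (inV K d v * inV K d w + inV K d w * inV K d v) -
      (inV K d v * inV K d w + inV K d w * inV K d v) * u := by noncomm_ring
  rw [h1, h2, h3, Algebra.commutes, sub_self, ← map_add] at h4
  have h5 : algebraMap K (Cl K d) (2 * trBil K d (Y v) w + 2 * trBil K d v (Y w)) =
      algebraMap K (Cl K d) 0 := by rw [h4, map_zero]
  have h6 := alg_inj d h5
  have h7 : (2 : K) * (trBil K d (Y v) w + trBil K d v (Y w)) = 0 := by
    rw [mul_add]; exact h6
  exact (mul_eq_zero.1 h7).resolve_left two_ne_zero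

theorem trace_zero {z : E} (h : ∀ a : E, Algebra.trace K E (a * z) = 0) : z = 0 := by
  rw [expand_om K E z]
  exact Finset.sum_eq_zero fun k _ => by rw [h, zero_smul]

/-- the matrix of an `E`-linear skew map is skew -/
theorem skew_entries {Y : Module.End K (Fin m → E)} (hE : ∀ (a : E) (v : Fin m → E),
    Y (a • v) = a • Y v) (hs : ∀ v w, trBil K d (Y v) w + trBil K d v (Y w) = 0) (i j : Fin m) :
    d i * Y (Pi.single j 1) i + d j * Y (Pi.single i 1) j = 0 := by
  apply trace_zero (K := K)
  intro a
  have h := hs (Pi.single i a) (Pi.single j 1)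
  have h1 : (Pi.single i a : Fin m → E) = a • Pi.single i 1 := by
    rw [← Pi.single_smul, smul_eq_mul, mul_one]
  have h2 : trBil K d (Y (Pi.single i a)) (Pi.single j 1) =
      Algebra.trace K E (a * (d j * Y (Pi.single i 1) j)) := by
    rw [trBil_symm, trBil_single, h1, hE, Pi.smul_apply, smul_eq_mul]
    congr 1
    ring
  have h3 : trBil K d (Pi.single i a) (Y (Pi.single j 1)) =
      Algebra.trace K E (a * (d i * Y (Pi.single j 1) i)) := by
    rw [trBil_single]
    congr 1
    ring
  rw [h2, h3, ← map_add] at h
  rw [← h]
  congr 1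
  ring

/-- the combination of the `cc i j` acting as a given `E`-linear skew map -/
theorem exists_cc (hd : ∀ i, d i ≠ 0) {Y : Module.End K (Fin m → E)}
    (hE : ∀ (a : E) (v : Fin m → E), Y (a • v) = a • Y v)
    (hs : ∀ v w, trBil K d (Y v) w + trBil K d v (Y w) = 0) :
    ∃ u ∈ Submodule.span K {w : Cl K d | ∃ i j a, i ≠ j ∧ w = cc d i j a},
      ∀ v, u * inV K d v - inV K d v * u = inV K d (Y v) := by
  classical
  have hsk := skew_entries d hE hs
  refine ⟨∑ i, ∑ j, if i = j then 0 else cc d i j (Y (Pi.single j 1) i / (4 * d j)), ?_, ?_⟩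
  · apply Submodule.sum_mem
    intro i _
    apply Submodule.sum_mem
    intro j _
    split_ifs with h
    · exact Submodule.zero_mem _
    · exact Submodule.subset_span ⟨i, j, _, h, rfl⟩
  · intro v
    rw [Finset.sum_mul, Finset.mul_sum, ← Finset.sum_sub_distrib]
    have e1 : ∀ i, (∑ j, if i = j then 0 else cc (K := K) d i j
        (Y (Pi.single j 1) i / (4 * d j))) * inV K d v -
        inV K d v * (∑ j, if i = j then 0 else cc (K := K) d i j
        (Y (Pi.single j 1) i / (4 * d j))) =
        inV K d (∑ j, if i = j then 0 else YY (K := K) d i j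
          (Y (Pi.single j 1) i / (4 * d j)) v) := by
      intro i
      rw [Finset.sum_mul, Finset.mul_sum, ← Finset.sum_sub_distrib, map_sum]
      apply Finset.sum_congr rfl
      intro j _
      split_ifs with h
      · rw [zero_mul, mul_zero, sub_zero, map_zero]
      · exact ad_cc d i j _ v
    simp only [e1]
    rw [← map_sum]
    congr 1
    -- the vector identity
    have hv : v = ∑ j, v j • (Pi.single j 1 : Fin m → E) := by
      conv_lhs => rw [← Finset.univ_sum_single v]
      apply Finset.sum_congr rfl
      intro j _
      rw [← Pi.single_smul, smul_eq_mul, mul_one]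
    have hYv : ∀ i, Y v i = ∑ j, v j * Y (Pi.single j 1) i := by
      intro i
      conv_lhs => rw [hv]
      rw [map_sum, Finset.sum_apply]
      apply Finset.sum_congr rfl
      intro j _
      rw [hE, Pi.smul_apply, smul_eq_mul]
    have hdiag : ∀ i, Y (Pi.single i 1) i = 0 := by
      intro i
      have h := hsk i i
      have h2 : (2 : E) * d i * Y (Pi.single i 1) i = 0 := by linear_combination h
      have h3 : (2 : E) ≠ 0 := by
        have : CharZero E := charZero_of_injective_algebraMap (algebraMap K E).injective
        exact two_ne_zero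
      exact (mul_eq_zero.1 h2).resolve_left (mul_ne_zero h3 (hd i))
    funext k
    rw [hYv k, Finset.sum_apply]
    have e2 : ∀ i, (∑ j, if i = j then (0 : Fin m → E) else YY (K := K) d i j
          (Y (Pi.single j 1) i / (4 * d j)) v) k =
        ∑ j, ((if k = i then v j * Y (Pi.single j 1) i / 2 else 0) +
          (if k = j then v i * Y (Pi.single i 1) j / 2 else 0)) := by
      intro i
      rw [Finset.sum_apply]
      apply Finset.sum_congr rfl
      intro j _
      have hchar : CharZero E := charZero_of_injective_algebraMap (algebraMap K E).injective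
      by_cases hij : i = j
      · subst hij
        rw [if_pos rfl, hdiag i]
        simp
      · rw [if_neg hij, YY_apply, Pi.sub_apply]
        have h1 := hsk i j
        have hdi := hd i
        have hdj := hd j
        have e3 : 2 * (Y (Pi.single j 1) i / (4 * d j)) * d j * v j =
            v j * Y (Pi.single j 1) i / 2 := by
          field_simp
          ring
        have e4 : 2 * (Y (Pi.single j 1) i / (4 * d j)) * d i * v i =
            -(v i * Y (Pi.single i 1) j / 2) := by
          field_simp
          linear_combination (4 * v i) * h1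
        rw [e3, e4]
        by_cases hki : k = i
        · subst hki
          rw [Pi.single_eq_same, Pi.single_eq_of_ne hij, if_pos rfl, if_neg hij]
          ring
        · by_cases hkj : k = j
          · subst hkj
            rw [Pi.single_eq_same, Pi.single_eq_of_ne hki, if_pos rfl, if_neg hki]
            ring
          · rw [Pi.single_eq_of_ne hki, Pi.single_eq_of_ne hkj, if_neg hki, if_neg hkj]
            ring
    simp only [e2]
    simp only [Finset.sum_add_distrib]
    rw [Finset.sum_comm (f := fun i j => if k = j then v i * Y (Pi.single i 1) j / 2 else 0)]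
    have hchar : CharZero E := charZero_of_injective_algebraMap (algebraMap K E).injective
    have e5 : ∀ i, (∑ j, if k = i then v j * Y (Pi.single j 1) i / 2 else 0) =
        if k = i then ∑ j, v j * Y (Pi.single j 1) i / 2 else 0 := by
      intro i
      split_ifs
      · rfl
      · simp
    simp only [e5]
    rw [Finset.sum_ite_eq Finset.univ k, if_pos (Finset.mem_univ _), ← Finset.sum_add_distrib]
    apply Finset.sum_congr rfl
    intro j _
    ring

/-- Elements of the Hodge Lie algebra are combinations of the `cc i j`. -/
theorem hodge_span (hd : ∀ i, d i ≠ 0) {z : Module.End K (Fin m → E) × Cl K d}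
    (hz : IsHodge K d z) :
    z.2 ∈ Submodule.span K {w : Cl K d | ∃ i j a, i ≠ j ∧ w = cc d i j a} := by
  obtain ⟨hE, hb, ha⟩ := hz
  have hs := skew_of_ad d ha
  obtain ⟨u, hu, hua⟩ := exists_cc d hd hE hs
  have hub : u ∈ bivectors K d := by
    have : Submodule.span K {w : Cl K d | ∃ i j a, i ≠ j ∧ w = cc d i j a} ≤
        bivectors K d := by
      rw [Submodule.span_le]
      rintro w ⟨i, j, a, hij, rfl⟩
      exact cc_biv d hij a
    exact this hu
  have h1 : z.2 - u = 0 := by
    apply biv_central d hd (Submodule.sub_mem _ hb hub)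
    intro v
    have : (z.2 - u) * inV K d v - inV K d v * (z.2 - u) =
        (z.2 * inV K d v - inV K d v * z.2) - (u * inV K d v - inV K d v * u) := by
      noncomm_ring
    rw [this, ha, hua, sub_self]
  rw [sub_eq_zero.1 h1]
  exact hu

/-- combinations of the `cc i j` act `E`-linearly -/
theorem span_hodge {u : Cl K d}
    (hu : u ∈ Submodule.span K {w : Cl K d | ∃ i j a, i ≠ j ∧ w = cc d i j a}) :
    ∃ Y, IsHodge K d (Y, u) := by
  induction hu using Submodule.span_induction with
  | mem w hw =>
    obtain ⟨i, j, a, hij, rfl⟩ := hw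
    exact ⟨_, isHodge_cc d hij a⟩
  | zero =>
    refine ⟨0, ?_, Submodule.zero_mem _, ?_⟩
    · intro a v; simp
    · intro v; simp
  | add a b _ _ ha hb =>
    obtain ⟨Y, hY1, hY2, hY3⟩ := ha
    obtain ⟨Z, hZ1, hZ2, hZ3⟩ := hb
    refine ⟨Y + Z, ?_, Submodule.add_mem _ hY2 hZ2, ?_⟩
    · intro c v
      have h1 := hY1 c v
      have h2 := hZ1 c v
      simp only [LinearMap.add_apply] at *
      rw [h1, h2, smul_add]
    · intro v
      have h1 := hY3 v
      have h2 := hZ3 v
      simp only [LinearMap.add_apply] at *
      rw [map_add, ← h1, ← h2]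
      noncomm_ring
  | smul t a _ ha =>
    obtain ⟨Y, hY1, hY2, hY3⟩ := ha
    refine ⟨t • Y, ?_, Submodule.smul_mem _ _ hY2, ?_⟩
    · intro c v
      have h1 := hY1 c v
      simp only [LinearMap.smul_apply] at *
      rw [h1, smul_comm]
    · intro v
      have h1 := hY3 v
      simp only [LinearMap.smul_apply] at *
      rw [map_smul, ← h1, smul_mul_assoc, mul_smul_comm, smul_sub]

/-- every skew map is the action of a bivector -/
theorem exists_biv (hd : ∀ i, d i ≠ 0) {Y : Module.End K (Fin m → E)}
    (hs : ∀ v w, trBil K d (Y v) w + trBil K d v (Y w) = 0) :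
    ∃ u ∈ bivectors K d, ∀ v, u * inV K d v - inV K d v * u = inV K d (Y v) := by
  classical
  -- a basis of `V` and the dual basis
  let f : Fin m × Fin (finrank K E) → (Fin m → E) := fun t => Pi.single t.1 (om K E t.2)
  let f' : Fin m × Fin (finrank K E) → (Fin m → E) :=
    fun t => Pi.single t.1 ((d t.1)⁻¹ * omd K E t.2)
  have hf' : ∀ v, v = ∑ t, trBil K d (f' t) v • f t := by
    intro v
    conv_lhs => rw [← Finset.univ_sum_single v]
    rw [Fintype.sum_prod_type]
    apply Finset.sum_congr rfl
    intro i _
    simp only [f, f']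
    have e : ∀ k, trBil K d (Pi.single i ((d i)⁻¹ * omd K E k)) v •
        (Pi.single i (om K E k) : Fin m → E) =
        Pi.single i (Algebra.trace K E (omd K E k * v i) • om K E k) := by
      intro k
      rw [trBil_single, Pi.single_smul]
      congr 2
      have := hd i
      field_simp
    simp only [e]
    rw [single_sum, ← expand_om K E]
  have hf : ∀ v, v = ∑ t, trBil K d (f t) v • f' t := by
    intro v
    conv_lhs => rw [← Finset.univ_sum_single v]
    rw [Fintype.sum_prod_type]
    apply Finset.sum_congr rfl
    intro i _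
    simp only [f, f']
    have e : ∀ k, trBil K d (Pi.single i (om K E k)) v •
        (Pi.single i ((d i)⁻¹ * omd K E k) : Fin m → E) =
        Pi.single i ((d i)⁻¹ * (Algebra.trace K E (om K E k * (d i * v i)) • omd K E k)) := by
      intro k
      rw [trBil_single, ← Pi.single_smul, mul_smul_comm]
      congr 3
      ring
    simp only [e]
    rw [single_sum, ← Finset.mul_sum, ← expand_omd K E]
    congr 1
    have := hd i
    field_simp
  refine ⟨(8 : K)⁻¹ • ∑ t, (inV K d (Y (f t)) * inV K d (f' t) -
    inV K d (f' t) * inV K d (Y (f t))), ?_, ?_⟩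
  · apply Submodule.smul_mem
    apply Submodule.sum_mem
    intro t _
    exact Submodule.subset_span ⟨_, _, rfl⟩
  · intro v
    rw [smul_mul_assoc, mul_smul_comm, ← smul_sub, Finset.sum_mul, Finset.mul_sum,
      ← Finset.sum_sub_distrib]
    have e : ∀ t, (inV K d (Y (f t)) * inV K d (f' t) - inV K d (f' t) * inV K d (Y (f t))) *
        inV K d v - inV K d v * (inV K d (Y (f t)) * inV K d (f' t) -
          inV K d (f' t) * inV K d (Y (f t))) =
        (4 : K) • inV K d (trBil K d (f' t) v • Y (f t) + trBil K d (f t) (Y v) • f' t) := by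
      intro t
      have h1 := ad_pair (K := K) d (Y (f t)) (f' t) v
      have h2 := ad_pair (K := K) d (f' t) (Y (f t)) v
      have h3 := hs (f t) v
      have h4 : trBil K d (Y (f t)) v = -trBil K d (f t) (Y v) := eq_neg_of_add_eq_zero_left h3
      have h5 : (inV K d (Y (f t)) * inV K d (f' t) - inV K d (f' t) * inV K d (Y (f t))) *
        inV K d v - inV K d v * (inV K d (Y (f t)) * inV K d (f' t) -
          inV K d (f' t) * inV K d (Y (f t))) =
          (inV K d (Y (f t)) * inV K d (f' t) * inV K d v -
            inV K d v * (inV K d (Y (f t)) * inV K d (f' t))) -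
          (inV K d (f' t) * inV K d (Y (f t)) * inV K d v -
            inV K d v * (inV K d (f' t) * inV K d (Y (f t)))) := by noncomm_ring
      rw [h5, h1, h2, h4, map_add, map_smul, map_smul]
      module
    simp only [e]
    rw [← Finset.smul_sum, smul_smul, ← map_sum, Finset.sum_add_distrib]
    have e1 : ∑ t, trBil K d (f' t) v • Y (f t) = Y v := by
      conv_rhs => rw [hf' v]
      rw [map_sum]
      exact Finset.sum_congr rfl fun t _ => (map_smul _ _ _).symm
    have e2 : ∑ t, trBil K d (f t) (Y v) • f' t = Y v := (hf (Y v)).symm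
    rw [e1, e2, ← two_smul K (Y v), map_smul, smul_smul]
    norm_num

end Pool.Agent.Helper42.KSOne
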