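import Mathlib
import Pool.Agent.Helper42.KSOne.Defs2
import Pool.Agent.Helper42.KSOne.RMa
import Pool.Agent.Helper42.KSOne.RMb

/-!
The theorem on real multiplication: one mixed form forces the motivic Lie algebra to be the
Hodge Lie algebra.
-/

namespace Pool.Agent.Helper42.KSOne

open Module TensorProduct

variable {K E : Type} [Field K] [CharZero K] [Field E] [Algebra K E] [FiniteDimensional K E]
  {m : ℕ} (d : Fin m → E)

/-- pairs of a bivector and an element of the Clifford algebra -/
noncomputable def jj (j : Submodule K (Module.End K (Fin m → E) × Cl K d)) :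
    Submodule K (Cl K d × Cl K d) where
  carrier := {z | z.1 ∈ bivectors K d ∧ ∃ Y, (Y, z.2) ∈ j ∧
    ∀ v, z.1 * inV K d v - inV K d v * z.1 = inV K d (Y v)}
  zero_mem' := ⟨Submodule.zero_mem _, 0, j.zero_mem, fun v => by simp⟩
  add_mem' := by
    rintro a b ⟨ha1, Y, hY, ha2⟩ ⟨hb1, Z, hZ, hb2⟩
    refine ⟨Submodule.add_mem _ ha1 hb1, Y + Z, j.add_mem hY hZ, fun v => ?_⟩
    have : (a + b).1 * inV K d v - inV K d v * (a + b).1 =
        (a.1 * inV K d v - inV K d v * a.1) + (b.1 * inV K d v - inV K d v * b.1) := by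
      rw [Prod.fst_add]; noncomm_ring
    rw [this, ha2, hb2, LinearMap.add_apply, map_add]
  smul_mem' := by
    rintro t a ⟨ha1, Y, hY, ha2⟩
    refine ⟨Submodule.smul_mem _ _ ha1, t • Y, j.smul_mem t hY, fun v => ?_⟩
    rw [Prod.smul_fst, smul_mul_assoc, mul_smul_comm, ← smul_sub, ha2, LinearMap.smul_apply,
      map_smul]

variable {d} {j : Submodule K (Module.End K (Fin m → E) × Cl K d)}

theorem mem_jj {z : Cl K d × Cl K d} : z ∈ jj d j ↔ z.1 ∈ bivectors K d ∧ ∃ Y, (Y, z.2) ∈ j ∧
    ∀ v, z.1 * inV K d v - inV K d v * z.1 = inV K d (Y v) := Iff.rfl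

theorem biv_brk {a b : Cl K d} {Y : Module.End K (Fin m → E)}
    (ha : ∀ v, a * inV K d v - inV K d v * a = inV K d (Y v)) (hb : b ∈ bivectors K d) :
    a * b - b * a ∈ bivectors K d := by
  unfold bivectors at hb
  induction hb using Submodule.span_induction with
  | mem b hb =>
    obtain ⟨v, w, rfl⟩ := hb
    have : a * (inV K d v * inV K d w - inV K d w * inV K d v) -
        (inV K d v * inV K d w - inV K d w * inV K d v) * a =
        ((a * inV K d v - inV K d v * a) * inV K d w - inV K d w *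
          (a * inV K d v - inV K d v * a)) +
        (inV K d v * (a * inV K d w - inV K d w * a) -
          (a * inV K d w - inV K d w * a) * inV K d v) := by noncomm_ring
    rw [this, ha, ha]
    exact Submodule.add_mem _ (Submodule.subset_span ⟨_, _, rfl⟩)
      (Submodule.subset_span ⟨_, _, rfl⟩)
  | zero => simp
  | add x y _ _ hx hy =>
    have : a * (x + y) - (x + y) * a = (a * x - x * a) + (a * y - y * a) := by noncomm_ring
    rw [this]
    exact Submodule.add_mem _ hx hy
  | smul t x _ hx =>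
    have : a * (t • x) - (t • x) * a = t • (a * x - x * a) := by
      rw [mul_smul_comm, smul_mul_assoc, smul_sub]
    rw [this]
    exact Submodule.smul_mem _ _ hx

theorem jj_brk (hj : IsMotivic K d j) {z w : Cl K d × Cl K d} (hz : z ∈ jj d j)
    (hw : w ∈ jj d j) : brk z w ∈ jj d j := by
  obtain ⟨hz1, Y, hY, hz2⟩ := hz
  obtain ⟨hw1, Z, hZ, hw2⟩ := hw
  refine ⟨biv_brk hz2 hw1, Y * Z - Z * Y, hj.lie _ hY _ hZ, fun v => ?_⟩
  have h1 : (z.1 * w.1 - w.1 * z.1) * inV K d v - inV K d v * (z.1 * w.1 - w.1 * z.1) =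
      (z.1 * (w.1 * inV K d v - inV K d v * w.1) - (w.1 * inV K d v - inV K d v * w.1) * z.1) -
      (w.1 * (z.1 * inV K d v - inV K d v * z.1) - (z.1 * inV K d v - inV K d v * z.1) * w.1) := by
    noncomm_ring
  simp only [brk]
  rw [h1, hw2, hz2, hz2, hw2, ← map_sub]
  rfl

/-- the commutator of two of the basic elements, first form -/
theorem cc_brk1 {i k l : Fin m} (hik : i ≠ k) (hil : i ≠ l) (hkl : k ≠ l) (a b : E) :
    cc (K := K) d i k a * cc d k l b - cc d k l b * cc d i k a = cc d i l (2 * a * d k * b) := by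
  have h : ∀ t, cc (K := K) d i k a * (inV K d (Pi.single k (b * om K E t)) *
      inV K d (Pi.single l (omd K E t))) - (inV K d (Pi.single k (b * om K E t)) *
      inV K d (Pi.single l (omd K E t))) * cc (K := K) d i k a =
      inV K d (Pi.single i (2 * a * d k * b * om K E t)) * inV K d (Pi.single l (omd K E t)) := by
    intro t
    have e1 : cc (K := K) d i k a * (inV K d (Pi.single k (b * om K E t)) *
      inV K d (Pi.single l (omd K E t))) - (inV K d (Pi.single k (b * om K E t)) *
      inV K d (Pi.single l (omd K E t))) * cc (K := K) d i k a =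
      (cc (K := K) d i k a * inV K d (Pi.single k (b * om K E t)) -
        inV K d (Pi.single k (b * om K E t)) * cc (K := K) d i k a) *
        inV K d (Pi.single l (omd K E t)) + inV K d (Pi.single k (b * om K E t)) *
        (cc (K := K) d i k a * inV K d (Pi.single l (omd K E t)) -
        inV K d (Pi.single l (omd K E t)) * cc (K := K) d i k a) := by noncomm_ring
    rw [e1, ad_cc, ad_cc, YY_apply, YY_apply]
    rw [Pi.single_eq_same, Pi.single_eq_of_ne hik, Pi.single_eq_of_ne hkl,
      Pi.single_eq_of_ne hil]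
    simp only [mul_zero, Pi.single_zero, sub_zero, map_zero, add_zero]
    congr 3
    ring
  have hcc : cc (K := K) d k l b = ∑ t, inV K d (Pi.single k (b * om K E t)) *
      inV K d (Pi.single l (omd K E t)) := rfl
  rw [hcc, Finset.mul_sum, Finset.sum_mul, ← Finset.sum_sub_distrib]
  simp only [h]
  rfl

/-- the commutator of two of the basic elements, second form -/
theorem cc_brk2 {i k l : Fin m} (hik : i ≠ k) (hil : i ≠ l) (hkl : k ≠ l) (a b : E) :
    cc (K := K) d i k a * cc d i l b - cc d i l b * cc d i k a =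
      cc d k l (-(2 * a * d i * b)) := by
  have h : ∀ t, cc (K := K) d i k a * (inV K d (Pi.single i (b * om K E t)) *
      inV K d (Pi.single l (omd K E t))) - (inV K d (Pi.single i (b * om K E t)) *
      inV K d (Pi.single l (omd K E t))) * cc (K := K) d i k a =
      inV K d (Pi.single k (-(2 * a * d i * b) * om K E t)) *
        inV K d (Pi.single l (omd K E t)) := by
    intro t
    have e1 : cc (K := K) d i k a * (inV K d (Pi.single i (b * om K E t)) *
      inV K d (Pi.single l (omd K E t))) - (inV K d (Pi.single i (b * om K E t)) *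
      inV K d (Pi.single l (omd K E t))) * cc (K := K) d i k a =
      (cc (K := K) d i k a * inV K d (Pi.single i (b * om K E t)) -
        inV K d (Pi.single i (b * om K E t)) * cc (K := K) d i k a) *
        inV K d (Pi.single l (omd K E t)) + inV K d (Pi.single i (b * om K E t)) *
        (cc (K := K) d i k a * inV K d (Pi.single l (omd K E t)) -
        inV K d (Pi.single l (omd K E t)) * cc (K := K) d i k a) := by noncomm_ring
    rw [e1, ad_cc, ad_cc, YY_apply, YY_apply]
    rw [Pi.single_eq_same, Pi.single_eq_of_ne (Ne.symm hik), Pi.single_eq_of_ne hkl,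
      Pi.single_eq_of_ne hil]
    simp only [mul_zero, Pi.single_zero, sub_zero, zero_sub, map_zero, add_zero]
    rw [← Pi.single_neg]
    congr 3
    ring
  have hcc : cc (K := K) d i l b = ∑ t, inV K d (Pi.single i (b * om K E t)) *
      inV K d (Pi.single l (omd K E t)) := rfl
  rw [hcc, Finset.mul_sum, Finset.sum_mul, ← Finset.sum_sub_distrib]
  simp only [h]
  rfl

theorem cc_mem (hj : IsMotivic K d j) {i k : Fin m} (hik : i ≠ k) (a : E) :
    (cc (K := K) d i k a, cc (K := K) d i k a) ∈ jj d j := by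
  have h := isHodge_cc (K := K) d hik a
  exact ⟨cc_biv d hik a, _, hj.hodge _ h, fun v => ad_cc d i k a v⟩

theorem rule1 (hd : ∀ i, d i ≠ 0) (hj : IsMotivic K d j) {i k l : Fin m} (hik : i ≠ k)
    (hil : i ≠ l) (hkl : k ≠ l) {a : E} (ha : a ≠ 0)
    (h : (cc (K := K) d i k a, (0 : Cl K d)) ∈ jj d j) (e : E) :
    (cc (K := K) d i l e, (0 : Cl K d)) ∈ jj d j := by
  have hchar : CharZero E := charZero_of_injective_algebraMap (algebraMap K E).injective
  have h1 := jj_brk hj h (cc_mem hj hkl (e / (2 * a * d k)))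
  simp only [brk, zero_mul, mul_zero, sub_zero] at h1
  rw [cc_brk1 hik hil hkl] at h1
  have h2 : 2 * a * d k * (e / (2 * a * d k)) = e := by
    have := hd k
    field_simp
  rwa [h2] at h1

theorem rule2 (hd : ∀ i, d i ≠ 0) (hj : IsMotivic K d j) {i k l : Fin m} (hik : i ≠ k)
    (hil : i ≠ l) (hkl : k ≠ l) {a : E} (ha : a ≠ 0)
    (h : (cc (K := K) d i k a, (0 : Cl K d)) ∈ jj d j) (e : E) :
    (cc (K := K) d k l e, (0 : Cl K d)) ∈ jj d j := by
  have hchar : CharZero E := charZero_of_injective_algebraMap (algebraMap K E).injective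
  have h1 := jj_brk hj h (cc_mem hj hil (-e / (2 * a * d i)))
  simp only [brk, zero_mul, mul_zero, sub_zero] at h1
  rw [cc_brk2 hik hil hkl] at h1
  have h2 : -(2 * a * d i * (-e / (2 * a * d i))) = e := by
    have := hd i
    field_simp
  rwa [h2] at h1

theorem third (h3 : 3 ≤ m) (i k : Fin m) : ∃ l, i ≠ l ∧ k ≠ l := by
  have : ({i, k} : Finset (Fin m)).card < (Finset.univ : Finset (Fin m)).card := by
    rw [Finset.card_univ, Fintype.card_fin]
    exact lt_of_le_of_lt Finset.card_le_two (by omega)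
  obtain ⟨l, _, hl⟩ := Finset.exists_mem_notMem_of_card_lt_card this
  simp only [Finset.mem_insert, Finset.mem_singleton, not_or] at hl
  exact ⟨l, fun h => hl.1 h.symm, fun h => hl.2 h.symm⟩

theorem all_cc (hd : ∀ i, d i ≠ 0) (h3 : 3 ≤ m) (hj : IsMotivic K d j) {i k : Fin m}
    (hik : i ≠ k) {a : E} (ha : a ≠ 0) (h : (cc (K := K) d i k a, (0 : Cl K d)) ∈ jj d j)
    {r s : Fin m} (hrs : r ≠ s) (e : E) : (cc (K := K) d r s e, (0 : Cl K d)) ∈ jj d j := by
  -- `G i k` implies `U i` and `U k`
  have hU : ∀ i k, i ≠ k → (∀ e, (cc (K := K) d i k e, (0 : Cl K d)) ∈ jj d j) →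
      (∀ l, i ≠ l → ∀ e, (cc (K := K) d i l e, (0 : Cl K d)) ∈ jj d j) ∧
      (∀ l, k ≠ l → ∀ e, (cc (K := K) d k l e, (0 : Cl K d)) ∈ jj d j) := by
    intro i k hik hG
    constructor
    · intro l hil e
      by_cases hkl : k = l
      · subst hkl; exact hG e
      · exact rule1 hd hj hik hil hkl one_ne_zero (hG 1) e
    · intro l hkl e
      by_cases hil : i = l
      · subst hil
        obtain ⟨t, hit, hkt⟩ := third h3 i k
        have h1 := rule2 hd hj hik hit hkt one_ne_zero (hG 1) 1
        exact rule1 hd hj hkt hkl (Ne.symm hit) one_ne_zero h1 e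
      · exact rule2 hd hj hik hil hkl one_ne_zero (hG 1) e
  obtain ⟨t, hit, hkt⟩ := third h3 i k
  have h1 : ∀ e, (cc (K := K) d i t e, (0 : Cl K d)) ∈ jj d j :=
    rule1 hd hj hik hit hkt ha h
  have h2 := (hU i t hit h1).1
  by_cases hir : i = r
  · subst hir; exact h2 s hrs e
  · exact (hU i r hir (h2 r hir)).2 s hrs e

/-- the elements `(u, 0)` do not occur -/
theorem no_cc (hd : ∀ i, d i ≠ 0) (h3 : 3 ≤ m) (hj : IsMotivic K d j) (hmix : HasMixedForm K d j)
    {i k : Fin m} (hik : i ≠ k) {a : E} (ha : a ≠ 0) :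
    (cc (K := K) d i k a, (0 : Cl K d)) ∉ jj d j := by
  intro h
  obtain ⟨p, q, f, hf, z, hz, v, w, hne⟩ := hmix
  apply hne
  have h1 : (z.2, (0 : Cl K d)) ∈ jj d j := by
    have h2 := hodge_span d hd hz
    generalize z.2 = u at h2
    induction h2 using Submodule.span_induction with
    | mem u hu =>
      obtain ⟨r, s, e, hrs, rfl⟩ := hu
      exact all_cc hd h3 hj hik ha h hrs e
    | zero => exact (jj d j).zero_mem
    | add x y _ _ hx hy =>
      have := (jj d j).add_mem hx hy
      rwa [Prod.mk_add_mk, add_zero] at this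
    | smul t x _ hx =>
      have := (jj d j).smul_mem t hx
      rwa [Prod.smul_mk, smul_zero] at this
  obtain ⟨_, Y, hY, hYa⟩ := h1
  have h4 : Y = z.1 := by
    apply LinearMap.ext
    intro u
    apply inV_inj (K := K) d
    rw [← hYa u]
    exact hz.2.2 u
  rw [h4] at hY
  exact hf _ hY v w

section ext

variable (j) (L : Type) [Field L] [CharZero L] [Algebra K L] [IsAlgClosed L]

/-- the extension of scalars of `jj` -/
noncomputable def JJ : Submodule L ((L ⊗[K] Cl K d) × (L ⊗[K] Cl K d)) :=
  Submodule.span L {w | ∃ z ∈ jj d j, w = (inc z.1, inc z.2)}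

variable {j}

theorem JJ_brk (hj : IsMotivic K d j) : ∀ z ∈ JJ j L, ∀ w ∈ JJ j L, brk z w ∈ JJ j L := by
  intro z hz
  unfold JJ at hz
  induction hz using Submodule.span_induction with
  | mem z hz =>
    intro w hw
    unfold JJ at hw
    induction hw using Submodule.span_induction with
    | mem w hw =>
      obtain ⟨a, ha, rfl⟩ := hz
      obtain ⟨b, hb, rfl⟩ := hw
      apply Submodule.subset_span
      refine ⟨brk a b, jj_brk hj ha hb, ?_⟩
      simp only [brk, map_sub, map_mul]
    | zero => simp only [brk, Prod.fst_zero, Prod.snd_zero, mul_zero, zero_mul, sub_zero]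
              exact Submodule.zero_mem _
    | add u v _ _ hu hv =>
      have : brk z (u + v) = brk z u + brk z v := by
        simp only [brk, Prod.fst_add, Prod.snd_add, Prod.mk_add_mk, mul_add, add_mul]
        congr 1 <;> abel
      rw [this]
      exact Submodule.add_mem _ hu hv
    | smul t u _ hu =>
      have : brk z (t • u) = t • brk z u := by
        simp only [brk, Prod.smul_fst, Prod.smul_snd, Prod.smul_mk, mul_smul_comm,
          smul_mul_assoc, smul_sub]
      rw [this]
      exact Submodule.smul_mem _ _ hu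
  | zero =>
    intro w _
    simp only [brk, Prod.fst_zero, Prod.snd_zero, mul_zero, zero_mul, sub_zero]
    exact Submodule.zero_mem _
  | add u v _ _ hu hv =>
    intro w hw
    have : brk (u + v) w = brk u w + brk v w := by
      simp only [brk, Prod.fst_add, Prod.snd_add, Prod.mk_add_mk, mul_add, add_mul]
      congr 1 <;> abel
    rw [this]
    exact Submodule.add_mem _ (hu w hw) (hv w hw)
  | smul t u _ hu =>
    intro w hw
    have : brk (t • u) w = t • brk u w := by
      simp only [brk, Prod.smul_fst, Prod.smul_snd, Prod.smul_mk, mul_smul_comm,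
        smul_mul_assoc, smul_sub]
    rw [this]
    exact Submodule.smul_mem _ _ (hu w hw)

/-- the product of two generators of a block -/
theorem XX_mul {p q : Fin (Fintype.card ((E →ₐ[K] L) × Fin m))} (hb : bb K E L m p = bb K E L m q) :
    XX (K := K) d L p * XX d L q = ∑ k, (bb K E L m p) (omd K E k) •
      (inc (cc (K := K) d (ee K E L m p).2 (ee K E L m q).2 (om K E k)) : L ⊗[K] Cl K d) := by
  have h := xx_mul (K := K) d (bb K E L m p) (ee K E L m p).2 (ee K E L m q).2
  rw [← h]
  unfold XX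
  have h2 : (ee K E L m q).1 = bb K E L m p := hb.symm
  rw [h2]
  rfl

theorem ne_idx {p q : Fin (Fintype.card ((E →ₐ[K] L) × Fin m))} (hpq : p ≠ q)
    (hb : bb K E L m p = bb K E L m q) : (ee K E L m p).2 ≠ (ee K E L m q).2 := fun h =>
  hpq ((ee K E L m).injective (Prod.ext hb h))

theorem JJ_tor (hj : IsMotivic K d j) {p q : Fin (Fintype.card ((E →ₐ[K] L) × Fin m))}
    (hpq : p ≠ q ∧ bb K E L m p = bb K E L m q) :
    (XX (K := K) d L p * XX d L q, XX (K := K) d L p * XX d L q) ∈ JJ j L := by
  rw [XX_mul L hpq.2]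
  have : ((∑ k, (bb K E L m p) (omd K E k) •
      (inc (cc (K := K) d (ee K E L m p).2 (ee K E L m q).2 (om K E k)) : L ⊗[K] Cl K d)),
      (∑ k, (bb K E L m p) (omd K E k) •
      (inc (cc (K := K) d (ee K E L m p).2 (ee K E L m q).2 (om K E k)) : L ⊗[K] Cl K d))) =
      ∑ k, (bb K E L m p) (omd K E k) •
      ((inc (cc (K := K) d (ee K E L m p).2 (ee K E L m q).2 (om K E k)) : L ⊗[K] Cl K d),
      (inc (cc (K := K) d (ee K E L m p).2 (ee K E L m q).2 (om K E k)) : L ⊗[K] Cl K d)) := by
    apply Prod.ext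
    · rw [Prod.fst_sum]; rfl
    · rw [Prod.snd_sum]; rfl
  rw [this]
  apply Submodule.sum_mem
  intro k _
  apply Submodule.smul_mem
  exact Submodule.subset_span ⟨_, cc_mem hj (ne_idx L hpq.1 hpq.2) _, rfl⟩

theorem JJ_left (hd : ∀ i, d i ≠ 0) {z : (L ⊗[K] Cl K d) × (L ⊗[K] Cl K d)} (hz : z ∈ JJ j L) :
    ∃ f : Finset (Fin (Fintype.card ((E →ₐ[K] L) × Fin m))) → L,
      (∀ I, f I ≠ 0 → I.card = 2) ∧ z.1 = Phi (XX (K := K) d L) f := by
  apply span_to_Phi (fun J => J.card = 2)
  unfold JJ at hz
  induction hz using Submodule.span_induction with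
  | mem z hz =>
    obtain ⟨a, ha, rfl⟩ := hz
    exact biv_span d L hd ha.1
  | zero => exact Submodule.zero_mem _
  | add u v _ _ hu hv => exact Submodule.add_mem _ hu hv
  | smul t u _ hu => exact Submodule.smul_mem _ _ hu

theorem biv_even {c : Cl K d} (hc : c ∈ bivectors K d) : CliffordAlgebra.involute c = c := by
  unfold bivectors at hc
  induction hc using Submodule.span_induction with
  | mem c hc =>
    obtain ⟨v, w, rfl⟩ := hc
    rw [map_sub, map_mul, map_mul, CliffordAlgebra.involute_ι, CliffordAlgebra.involute_ι]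
    noncomm_ring
  | zero => exact map_zero _
  | add a b _ _ ha hb => rw [map_add, ha, hb]
  | smul t a _ ha => rw [map_smul, ha]

theorem vol_comm [DecidableEq (E →ₐ[K] L)] (hd : ∀ i, d i ≠ 0)
    {z : Module.End K (Fin m → E) × Cl K d} (hz : IsHodge K d z) (σ : E →ₐ[K] L) :
    mono (XX (K := K) d L) (prt (bb K E L m) Finset.univ σ) * inc z.2 =
      inc z.2 * mono (XX (K := K) d L) (prt (bb K E L m) Finset.univ σ) := by
  have h := hodge_span d hd hz
  generalize z.2 = u at h
  induction h using Submodule.span_induction with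
  | mem u hu =>
    obtain ⟨i, k, a, hik, rfl⟩ := hu
    rw [inc_cc, Finset.mul_sum, Finset.sum_mul]
    apply Finset.sum_congr rfl
    intro τ _
    rw [mul_smul_comm, smul_mul_assoc]
    congr 1
    set p := (ee K E L m).symm (τ, i) with hp
    set q := (ee K E L m).symm (τ, k) with hq
    have e1 : xx (K := K) d τ i = XX d L p := by
      unfold XX; rw [hp, Equiv.apply_symm_apply]
    have e2 : xx (K := K) d τ k = XX d L q := by
      unfold XX; rw [hq, Equiv.apply_symm_apply]
    have h1 := pair_comm (isGen (K := K) d L hd) p q (prt (bb K E L m) Finset.univ σ)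
    have h2 : (p ∈ prt (bb K E L m) Finset.univ σ ↔ q ∈ prt (bb K E L m) Finset.univ σ) := by
      rw [mem_prt, mem_prt]
      unfold bb
      rw [hp, hq, Equiv.apply_symm_apply, Equiv.apply_symm_apply]
      simp
    rw [if_pos h2, one_smul] at h1
    rw [e1, e2, h1]
  | zero => simp
  | add x y _ _ hx hy => rw [map_add, mul_add, add_mul, hx, hy]
  | smul t x _ hx => rw [map_smul, mul_smul_comm, smul_mul_assoc, hx]

theorem JJ_right [DecidableEq (E →ₐ[K] L)] (hd : ∀ i, d i ≠ 0) (hm : Odd m)
    (hj : IsMotivic K d j) {z : (L ⊗[K] Cl K d) × (L ⊗[K] Cl K d)} (hz : z ∈ JJ j L) :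
    ∃ g : Finset (Fin (Fintype.card ((E →ₐ[K] L) × Fin m))) → L,
      (∀ I, g I ≠ 0 → BlockEven (bb K E L m) I ∧ I.card % 4 = 2) ∧
      z.2 = Phi (XX (K := K) d L) g := by
  apply span_to_Phi (fun I => BlockEven (bb K E L m) I ∧ I.card % 4 = 2)
  unfold JJ at hz
  induction hz using Submodule.span_induction with
  | mem z hz =>
    obtain ⟨a, ⟨_, Y, hY, _⟩, rfl⟩ := hz
    have h1 : CliffordAlgebra.involute a.2 = a.2 := by
      have := hj.comm _ hY CliffordAlgebra.involute.toLinearMap (fun h hh w => by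
        change CliffordAlgebra.involute (h.2 * w) = h.2 * CliffordAlgebra.involute w
        rw [map_mul, biv_even hh.2.1]) 1
      change CliffordAlgebra.involute (a.2 * 1) = a.2 * CliffordAlgebra.involute 1 at this
      rwa [mul_one, map_one, mul_one] at this
    have h3 : ∀ σ : E →ₐ[K] L,
        mono (XX (K := K) d L) (prt (bb K E L m) Finset.univ σ) * inc a.2 =
        inc a.2 * mono (XX (K := K) d L) (prt (bb K E L m) Finset.univ σ) := by
      intro σ
      set y := mono (XX (K := K) d L) (prt (bb K E L m) Finset.univ σ) with hy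
      rw [← sub_eq_zero]
      apply rr_sep
      intro φ
      have := hj.comm _ hY (rr φ ∘ₗ (LinearMap.mulLeft K y) ∘ₗ
        (inc (K := K) (L := L) (C := Cl K d)).toLinearMap) (fun h hh w => by
        change rr φ (y * inc (h.2 * w)) = h.2 * rr φ (y * inc w)
        rw [map_mul (inc (K := K) (L := L) (C := Cl K d)) h.2 w, ← mul_assoc, hy,
          vol_comm L hd hh σ, mul_assoc, rr_inc_mul]) 1
      change rr φ (y * inc (a.2 * 1)) = a.2 * rr φ (y * inc 1) at this
      rw [mul_one, map_one, mul_one, ← rr_inc_mul] at this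
      rw [map_sub, this, sub_self]
    obtain ⟨g, hg, hgg⟩ := right_Phi d L hd hm h1 (hj.pol _ hY) h3
    rw [hgg]
    change (∑ I, g I • mono (XX (K := K) d L) I) ∈ _
    apply Submodule.sum_mem
    intro I _
    by_cases hI : g I = 0
    · rw [hI, zero_smul]; exact Submodule.zero_mem _
    · exact Submodule.smul_mem _ _ (Submodule.subset_span ⟨I, hg I hI, rfl⟩)
  | zero => exact Submodule.zero_mem _
  | add u v _ _ hu hv => exact Submodule.add_mem _ hu hv
  | smul t u _ hu => exact Submodule.smul_mem _ _ hu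

theorem JJ_rr {z : (L ⊗[K] Cl K d) × (L ⊗[K] Cl K d)} (hz : z ∈ JJ j L) :
    ∀ φ : L →ₗ[K] K, (rr φ z.1, rr φ z.2) ∈ jj d j := by
  unfold JJ at hz
  induction hz using Submodule.span_induction with
  | mem z hz =>
    obtain ⟨a, ha, rfl⟩ := hz
    intro φ
    rw [rr_inc, rr_inc]
    exact (jj d j).smul_mem (φ 1) ha
  | zero =>
    intro φ
    simp only [Prod.fst_zero, Prod.snd_zero, map_zero]
    exact (jj d j).zero_mem
  | add u v _ _ hu hv =>
    intro φ
    simp only [Prod.fst_add, Prod.snd_add, map_add]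
    exact (jj d j).add_mem (hu φ) (hv φ)
  | smul t u _ hu =>
    intro φ
    simp only [Prod.smul_fst, Prod.smul_snd, rr_smul]
    exact hu _

/-- the image of a product of two generators of a block under a functional -/
theorem rr_XX (φ : L →ₗ[K] K) {p q : Fin (Fintype.card ((E →ₐ[K] L) × Fin m))}
    (hb : bb K E L m p = bb K E L m q) :
    rr φ (XX (K := K) d L p * XX d L q) = cc d (ee K E L m p).2 (ee K E L m q).2
      (∑ k, φ ((bb K E L m p) (omd K E k)) • om K E k) := by
  rw [XX_mul L hb, map_sum]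
  have h1 : ∀ k, rr φ ((bb K E L m p) (omd K E k) •
      (inc (cc (K := K) d (ee K E L m p).2 (ee K E L m q).2 (om K E k)) : L ⊗[K] Cl K d)) =
      cc d (ee K E L m p).2 (ee K E L m q).2 (φ ((bb K E L m p) (omd K E k)) • om K E k) := by
    intro k
    rw [rr_smul, rr_inc, cc_smul]
    congr 1
    change φ ((bb K E L m p) (omd K E k) * 1) = _
    rw [mul_one]
  simp only [h1]
  let F : E →+ Cl K d := AddMonoidHom.mk' (cc (K := K) d (ee K E L m p).2 (ee K E L m q).2)
    (cc_add d _ _)
  exact (map_sum F _ _).symm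

theorem JJ_indep (hd : ∀ i, d i ≠ 0) (h3 : 3 ≤ m) (hj : IsMotivic K d j)
    (hmix : HasMixedForm K d j) {p q : Fin (Fintype.card ((E →ₐ[K] L) × Fin m))}
    (hpq : p ≠ q ∧ bb K E L m p = bb K E L m q) :
    (XX (K := K) d L p * XX d L q, 0) ∉ JJ j L := by
  intro h
  have h1 := JJ_rr L h
  simp only [map_zero] at h1
  have hpos : 0 < finrank K E := finrank_pos
  set k₀ : Fin (finrank K E) := ⟨0, hpos⟩
  have h2 : (bb K E L m p) (omd K E k₀) ≠ 0 :=
    (map_ne_zero _).2 ((omd K E).ne_zero k₀)
  obtain ⟨φ, hφ⟩ : ∃ φ : L →ₗ[K] K, φ ((bb K E L m p) (omd K E k₀)) ≠ 0 := by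
    by_contra hcon
    push Not at hcon
    exact h2 ((Module.forall_dual_apply_eq_zero_iff K _).1 hcon)
  have h4 := h1 φ
  rw [rr_XX L φ hpq.2] at h4
  have h5 : (∑ k, φ ((bb K E L m p) (omd K E k)) • om K E k) ≠ 0 := by
    intro h6
    have h7 := (Fintype.linearIndependent_iff.1 (om K E).linearIndependent) _ h6 k₀
    exact hφ h7
  exact no_cc hd h3 hj hmix (ne_idx L hpq.1 hpq.2) h5 h4

end ext

/-- One mixed form forces the motivic Lie algebra to be the Hodge Lie algebra. -/
theorem rm_main (hd : ∀ i, d i ≠ 0) (hm : Odd m) (h3 : 3 ≤ m) (hj : IsMotivic K d j)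
    (hmix : HasMixedForm K d j) : ∀ z ∈ j, IsHodge K d z := by
  classical
  intro z hz
  let L := AlgebraicClosure K
  have hL : CharZero L := charZero_of_injective_algebraMap (algebraMap K L).injective
  obtain ⟨c, hc, hca⟩ := exists_biv d hd (hj.skew z hz)
  have hpa : IsPairAlg (XX (K := K) d L) (bb K E L m) (JJ j L) :=
    { lie := JJ_brk L hj
      tor := fun p q h => JJ_tor L hj h
      left := fun z hz => JJ_left L hd hz
      right := fun z hz => JJ_right L hd hm hj hz
      indep := fun p q h => JJ_indep L hd h3 hj hmix h }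
  have hmem : ((inc c : L ⊗[K] Cl K d), (inc z.2 : L ⊗[K] Cl K d)) ∈ JJ j L :=
    Submodule.subset_span ⟨(c, z.2), ⟨hc, z.1, hz, hca⟩, rfl⟩
  obtain ⟨h1, h2⟩ := block_main (isGen (K := K) d L hd) hm h3 (card_block L) hpa _ hmem
  have h4 : c = z.2 := inc_injective (K := K) (L := L) (C := Cl K d) h1
  -- descend
  have h5 : ∀ w ∈ Submodule.span L {u | ∃ p q, (p ≠ q ∧ bb K E L m p = bb K E L m q) ∧
      u = XX (K := K) d L p * XX d L q}, ∀ φ : L →ₗ[K] K,
      rr φ w ∈ Submodule.span K {w : Cl K d | ∃ i j a, i ≠ j ∧ w = cc d i j a} := by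
    intro w hw
    induction hw using Submodule.span_induction with
    | mem w hw =>
      obtain ⟨p, q, hpq, rfl⟩ := hw
      intro φ
      rw [rr_XX L φ hpq.2]
      exact Submodule.subset_span ⟨_, _, _, ne_idx L hpq.1 hpq.2, rfl⟩
    | zero => intro φ; rw [map_zero]; exact Submodule.zero_mem _
    | add a b _ _ ha hb => intro φ; rw [map_add]; exact Submodule.add_mem _ (ha φ) (hb φ)
    | smul t a _ ha => intro φ; rw [rr_smul]; exact ha _
  obtain ⟨φ, hφ⟩ := exists_functional_one (K := K) (L := L)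
  have h6 := h5 _ h2 φ
  rw [rr_inc, hφ, one_smul] at h6
  obtain ⟨Y, hY⟩ := span_hodge d h6
  have h7 : Y = z.1 := by
    apply LinearMap.ext
    intro u
    apply inV_inj (K := K) d
    rw [← hca u, h4]
    exact (hY.2.2 u).symm
  rw [h7] at hY
  exact hY

end Pool.Agent.Helper42.KSOne
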