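import Mathlib
import Pool.Agent.Helper42.KSOne.OddDefs
import Pool.Agent.Helper42.KSOne.Defs2
import Pool.Agent.Helper42.KSOne.RMc

/-!
The theorem `rm_main` for the definitions of `OddDefs`.
-/

namespace Pool.Agent.Helper42.KSOne.Odd

variable {K E : Type} [Field K] [Field E] [Algebra K E] {m : ℕ} {d : Fin m → E}

private theorem isHodge_iff (z : Pairs (trQ K d)) :
    IsHodge E (trQ K d) z ↔ KSOne.IsHodge K d z := Iff.rfl

private theorem trBil_symm (v w : Fin m → E) : KSOne.trBil K d v w = KSOne.trBil K d w v := by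
  change Algebra.trace K E (∑ i, d i * v i * w i) = Algebra.trace K E (∑ i, d i * w i * v i)
  exact congrArg _ (Finset.sum_congr rfl fun i _ => by ring)

private theorem polar_eq (v w : Fin m → E) :
    QuadraticMap.polar (trQ K d) v w = 2 * KSOne.trBil K d v w := by
  have h : QuadraticMap.polar (trQ K d) v w = KSOne.trBil K d v w + KSOne.trBil K d w v :=
    LinearMap.BilinMap.polar_toQuadraticMap v w
  rw [h, trBil_symm w v, two_mul]

private theorem toOld [CharZero K] {j : Submodule K (Pairs (trQ K d))}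
    (hj : IsMotivic E (trQ K d) j) : KSOne.IsMotivic K d j where
  lie := fun z hz w hw => hj.lie z hz w hw
  hodge := fun z hz => hj.hodge z hz
  skew := fun z hz v w => by
    have h := hj.skew z hz v w
    rw [polar_eq, polar_eq, ← mul_add] at h
    exact (mul_eq_zero.mp h).resolve_left two_ne_zero
  comm := fun z hz T hT => hj.comm z hz T hT
  pol := fun z hz => hj.pol z hz

theorem odd_main [CharZero K] [FiniteDimensional K E] (hd : ∀ i, d i ≠ 0) (hm : Odd m)
    (h3 : 3 ≤ m) {j : Submodule K (Pairs (trQ K d))} (hj : IsMotivic E (trQ K d) j)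
    (hmix : HasMixedForm E (trQ K d) j) (z : Pairs (trQ K d)) :
    z ∈ j ↔ IsHodge E (trQ K d) z :=
  ⟨fun hz => KSOne.rm_main (K := K) (E := E) hd hm h3 (toOld hj) hmix z hz, hj.hodge z⟩

end Pool.Agent.Helper42.KSOne.Odd
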